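import Pool.Agent.P.MP_cf639b_al.T.AF
import Pool.Agent.P.MP_cf639b_al.T.AF12
import Pool.Agent.P.MP_cf639b_al.T.AUT
import Pool.Agent.P.MP_cf639b_al.T.BCLOC
import Pool.Agent.P.MP_cf639b_al.T.BOCK
import Pool.Agent.P.MP_cf639b_al.T.CC
import Pool.Agent.P.MP_cf639b_al.T.COMP
import Pool.Agent.P.MP_cf639b_al.T.CST
import Pool.Agent.P.MP_cf639b_al.T.DD
import Pool.Agent.P.MP_cf639b_al.T.DMY
import Pool.Agent.P.MP_cf639b_al.T.DPP
import Pool.Agent.P.MP_cf639b_al.T.DUAL
import Pool.Agent.P.MP_cf639b_al.T.EXT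
import Pool.Agent.P.MP_cf639b_al.T.FD
import Pool.Agent.P.MP_cf639b_al.T.ID
import Pool.Agent.P.MP_cf639b_al.T.KS
import Pool.Agent.P.MP_cf639b_al.T.NDND
import Pool.Agent.P.MP_cf639b_al.T.NOE
import Pool.Agent.P.MP_cf639b_al.T.NOTOR
import Pool.Agent.P.MP_cf639b_al.T.PG
import Pool.Agent.P.MP_cf639b_al.T.PP
import Pool.Agent.P.MP_cf639b_al.T.QQ
import Pool.Agent.P.MP_cf639b_al.T.REP
import Pool.Agent.P.MP_cf639b_al.T.SAMES
import Pool.Agent.P.MP_cf639b_al.T.ST
import Pool.Agent.P.MP_cf639b_al.T.TEN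
import Pool.Agent.P.MP_cf639b_al.T.TW
import Pool.Agent.P.MP_cf639b_al.T.WT

/-! The library statements hold. -/

set_option linter.dupNamespace false

namespace Pool.Agent.P.MP_cf639b_al

universe u

theorem all_lib (k : Type u) [Field k] [IsAlgClosed k] : Lib k := by
  have aut := t_AUT k
  have pp := t_PP k
  have id := t_ID k
  have fd := t_FD k
  have dpp := t_DPP k
  have ten := t_TEN k
  have bock := t_BOCK k
  have cc := t_CC k
  have af2 := t_AF2 k
  have ndnd : ∀ (S : Type u) [Ring S] [Algebra k S] [FiniteDimensional k S], S_NDND k S :=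
    fun S _ _ _ => t_NDND k S pp
  have dd : ∀ (S : Type u) [Ring S] [Algebra k S] [FiniteDimensional k S], S_DD k S :=
    fun S _ _ _ => t_DD k S id fd
  have ks : ∀ (S : Type u) [Ring S] [Algebra k S] [FiniteDimensional k S], S_KS k S :=
    fun S _ _ _ => t_KS k S id
  have tw : ∀ (S : Type u) [Ring S] [Algebra k S] [FiniteDimensional k S], S_TW k S :=
    fun S _ _ _ => t_TW k S id
  have rep : ∀ (S : Type u) [Ring S] [Algebra k S] [FiniteDimensional k S], S_REP k S :=
    fun S _ _ _ => t_REP k S bock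
  have noe : ∀ (S : Type u) [Ring S] [Algebra k S] [FiniteDimensional k S], S_NOE k S :=
    fun S _ _ _ => t_NOE k S bock fd
  have notor : ∀ (S : Type u) [Ring S] [Algebra k S] [FiniteDimensional k S], S_NOTOR k S :=
    fun S _ _ _ => t_NOTOR k S bock noe cc
  have comp : ∀ (S : Type u) [Ring S] [Algebra k S] [FiniteDimensional k S], S_COMP k S :=
    fun S _ _ _ => t_COMP k S pp
  have pg : ∀ (S : Type u) [Ring S] [Algebra k S] [FiniteDimensional k S], S_PG k S :=
    fun S _ _ _ => t_PG k S bock rep notor cc fd id ks aut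
  exact
    { aut := aut, jord := t_JORD k, pp := pp, ndnd := ndnd, dpp := dpp
      dual := fun S _ _ _ => t_DUAL k S pp dpp fd
      ndop := fun S _ _ _ => t_NDOP k S pp dpp fd dd
      fd := fd, id := id
      qq := fun S _ _ _ => t_QQ k S id tw
      ten := ten
      cst := fun S _ _ _ => t_CST k S id fd ten
      dd := dd
      dmy := fun S _ _ _ => t_DMY k S id fd dd
      st := fun S _ _ _ => t_ST k S id
      zeta := fun S _ _ _ => t_ZETA k S id
      ext := fun S _ _ _ => t_EXT k S id fd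
      als := fun S _ _ _ => t_ALS k S id fd ks
      bock := bock, rep := rep, noe := noe
      co := fun S _ _ _ => t_CO k S bock noe
      cc := cc, notor := notor, af := t_AF k
      af1 := fun S _ _ _ => t_AF1 k S af2
      af2 := af2, ks := ks
      bcloc := fun S _ _ _ => t_BCLOC k S id fd ks
      cancel := fun S _ _ _ => t_CANCEL k S id fd ks
      tw := tw, comp := comp
      orb := fun S _ _ _ => t_ORB k S pp comp fd
      pg := pg
      sames := fun S _ _ _ => t_SAMES k S pp cc pg aut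
      wt := fun S _ _ _ => t_WT k S (ndnd S) }

end Pool.Agent.P.MP_cf639b_al
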