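import Pool.Agent.P.MP_cf639b_al.T.C1
import Pool.Agent.P.MP_cf639b_al.T.CKrev
import Pool.Agent.P.MP_cf639b_al.T.CL
import Pool.Agent.P.MP_cf639b_al.T.D1
import Pool.Agent.P.MP_cf639b_al.T.E
import Pool.Agent.P.MP_cf639b_al.T.E2
import Pool.Agent.P.MP_cf639b_al.T.ENDO
import Pool.Agent.P.MP_cf639b_al.T.FAK
import Pool.Agent.P.MP_cf639b_al.T.FANTI1
import Pool.Agent.P.MP_cf639b_al.T.FANTI2
import Pool.Agent.P.MP_cf639b_al.T.FARI
import Pool.Agent.P.MP_cf639b_al.T.FCALC
import Pool.Agent.P.MP_cf639b_al.T.FCKop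
import Pool.Agent.P.MP_cf639b_al.T.FDENSE
import Pool.Agent.P.MP_cf639b_al.T.FDUALC
import Pool.Agent.P.MP_cf639b_al.T.FLAM
import Pool.Agent.P.MP_cf639b_al.T.FLC
import Pool.Agent.P.MP_cf639b_al.T.FLEN
import Pool.Agent.P.MP_cf639b_al.T.FLF
import Pool.Agent.P.MP_cf639b_al.T.FLOCN
import Pool.Agent.P.MP_cf639b_al.T.FO2
import Pool.Agent.P.MP_cf639b_al.T.FO2A
import Pool.Agent.P.MP_cf639b_al.T.FPF
import Pool.Agent.P.MP_cf639b_al.T.FPF1
import Pool.Agent.P.MP_cf639b_al.T.FRX
import Pool.Agent.P.MP_cf639b_al.T.FSYM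
import Pool.Agent.P.MP_cf639b_al.T.FTN
import Pool.Agent.P.MP_cf639b_al.T.FTR
import Pool.Agent.P.MP_cf639b_al.T.FUNIV
import Pool.Agent.P.MP_cf639b_al.T.G
import Pool.Agent.P.MP_cf639b_al.T.GOOD
import Pool.Agent.P.MP_cf639b_al.T.HOM
import Pool.Agent.P.MP_cf639b_al.T.KG
import Pool.Agent.P.MP_cf639b_al.T.KILL
import Pool.Agent.P.MP_cf639b_al.T.L0
import Pool.Agent.P.MP_cf639b_al.T.LINK
import Pool.Agent.P.MP_cf639b_al.T.LL
import Pool.Agent.P.MP_cf639b_al.T.MS
import Pool.Agent.P.MP_cf639b_al.T.MSA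
import Pool.Agent.P.MP_cf639b_al.T.MSB
import Pool.Agent.P.MP_cf639b_al.T.NTH
import Pool.Agent.P.MP_cf639b_al.T.O1
import Pool.Agent.P.MP_cf639b_al.T.ORTH
import Pool.Agent.P.MP_cf639b_al.T.PDIM
import Pool.Agent.P.MP_cf639b_al.T.RED
import Pool.Agent.P.MP_cf639b_al.T.REL
import Pool.Agent.P.MP_cf639b_al.T.SAME
import Pool.Agent.P.MP_cf639b_al.T.SMALL
import Pool.Agent.P.MP_cf639b_al.T.STRC
import Pool.Agent.P.MP_cf639b_al.T.STRO
import Pool.Agent.P.MP_cf639b_al.T.STRP
import Pool.Agent.P.MP_cf639b_al.T.SWF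
import Pool.Agent.P.MP_cf639b_al.T.TUBE
import Pool.Agent.P.MP_cf639b_al.AllLib

/-! All steps hold; the main theorem. -/

set_option linter.dupNamespace false

namespace Pool.Agent.P.MP_cf639b_al

universe u v

variable (k : Type u) [Field k] [IsAlgClosed k]

theorem all_RED (S : Type u) [Ring S] [Algebra k S] [FiniteDimensional k S] : S_RED k S :=
  t_RED k S ((all_lib k).wt S)
theorem all_CL (S : Type u) [Ring S] [Algebra k S] [FiniteDimensional k S] : S_CL k S :=
  t_CL k S (all_lib k) (all_RED k S)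
theorem all_CL1 (S : Type u) [Ring S] [Algebra k S] [FiniteDimensional k S] : S_CL1 k S :=
  t_CL1 k S (all_lib k) (all_CL k S)
theorem all_HOM (S : Type u) [Ring S] [Algebra k S] [FiniteDimensional k S] : S_HOM k S :=
  t_HOM k S (all_lib k) (all_CL k S)
theorem all_C1 (S : Type u) [Ring S] [Algebra k S] [FiniteDimensional k S] : S_C1 k S :=
  t_C1 k S (all_lib k)
theorem all_GOOD (S : Type u) [Ring S] [Algebra k S] [FiniteDimensional k S] : S_GOOD k S :=
  t_GOOD k S (all_lib k) (all_HOM k S) (all_C1 k S)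
theorem all_CKrev (S : Type u) [Ring S] [Algebra k S] [FiniteDimensional k S] : S_CKrev k S :=
  t_CKrev k S (all_lib k)
theorem all_NTH (S : Type u) [Ring S] [Algebra k S] [FiniteDimensional k S] : S_NTH k S :=
  t_NTH k S (all_lib k)
theorem all_L0 (S : Type u) [Ring S] [Algebra k S] [FiniteDimensional k S] : S_L0 k S :=
  t_L0 k S (all_lib k)
theorem all_TUBE (S : Type u) [Ring S] [Algebra k S] [FiniteDimensional k S] : S_TUBE k S :=
  t_TUBE k S (all_lib k) (all_NTH k S)
theorem all_TUBE2 (S : Type u) [Ring S] [Algebra k S] [FiniteDimensional k S] : S_TUBE2 k S :=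
  t_TUBE2 k S (all_lib k)
theorem all_ORTH (S : Type u) [Ring S] [Algebra k S] [FiniteDimensional k S] : S_ORTH k S :=
  t_ORTH k S (all_lib k)
theorem all_STRP (S : Type u) [Ring S] [Algebra k S] [FiniteDimensional k S] : S_STRP k S :=
  t_STRP k S (all_lib k)
theorem all_STRO (S : Type u) [Ring S] [Algebra k S] [FiniteDimensional k S] : S_STRO k S :=
  t_STRO k S (all_lib k)
theorem all_STRC (S : Type u) [Ring S] [Algebra k S] [FiniteDimensional k S] : S_STRC k S :=
  t_STRC k S (all_lib k) (all_ORTH k S)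
theorem all_STR (S : Type u) [Ring S] [Algebra k S] [FiniteDimensional k S] : S_STR k S :=
  t_STR k S (all_STRP k S) (all_STRO k S) (all_STRC k S)
theorem all_SAME (S : Type u) [Ring S] [Algebra k S] [FiniteDimensional k S] : S_SAME k S :=
  t_SAME k S (all_lib k) (all_GOOD k S) (all_TUBE k S) (all_TUBE2 k S) (all_STR k S)
theorem all_SWF (S : Type u) [Ring S] [Algebra k S] [FiniteDimensional k S] : S_SWF k S :=
  t_SWF k S (all_lib k) (all_NTH k S) (all_L0 k S)
theorem all_REL (S : Type u) [Ring S] [Algebra k S] [FiniteDimensional k S] : S_REL k S :=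
  t_REL k S (all_lib k)
theorem all_LL (S : Type u) [Ring S] [Algebra k S] [FiniteDimensional k S] : S_LL k S :=
  t_LL k S (all_lib k)
theorem all_PDIM (S : Type u) [Ring S] [Algebra k S] [FiniteDimensional k S] : S_PDIM k S :=
  t_PDIM k S (all_lib k)
theorem all_E (S : Type u) [Ring S] [Algebra k S] [FiniteDimensional k S] : S_E k S :=
  t_E k S (all_lib k) (all_CL1 k S) (all_HOM k S) (all_REL k S) (all_SAME k S) (all_LL k S)
    (all_PDIM k S)
theorem all_UNIV (S : Type u) [Ring S] [Algebra k S] [FiniteDimensional k S] : S_UNIV k S :=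
  t_UNIV k S (all_lib k)
theorem all_LOCN (S : Type u) [Ring S] [Algebra k S] [FiniteDimensional k S] : S_LOCN k S :=
  t_LOCN k S (all_lib k) (all_UNIV k S)
theorem all_TN1 (S : Type u) [Ring S] [Algebra k S] [FiniteDimensional k S] : S_TN1 k S :=
  t_TN1 k S (all_lib k) (all_UNIV k S) (all_LOCN k S)
theorem all_TN2 (S : Type u) [Ring S] [Algebra k S] [FiniteDimensional k S] : S_TN2 k S :=
  t_TN2 k S (all_lib k) (all_UNIV k S) (all_LOCN k S)
theorem all_SYM (S : Type u) [Ring S] [Algebra k S] [FiniteDimensional k S] : S_SYM k S :=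
  t_SYM k S (all_lib k)
theorem all_CKop (S : Type u) [Ring S] [Algebra k S] [FiniteDimensional k S] : S_CKop k S :=
  t_CKop k S (all_lib k) (all_UNIV k) (all_TN1 k S) (all_TN2 k) (all_SYM k S) (t_SWAP k)
theorem all_AK (S : Type u) [Ring S] [Algebra k S] [FiniteDimensional k S] : S_AK k S :=
  t_AK k S (all_lib k)
theorem all_NA (S : Type u) [Ring S] [Algebra k S] [FiniteDimensional k S] : S_NA k S :=
  t_NA k S (all_lib k)
theorem all_LC (S : Type u) [Ring S] [Algebra k S] [FiniteDimensional k S] : S_LC k S :=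
  t_LC k S (all_lib k) (all_NTH k S) (all_L0 k S)
theorem all_TR (S : Type u) [Ring S] [Algebra k S] [FiniteDimensional k S] : S_TR k S :=
  t_TR k S
theorem all_WR (S : Type u) [Ring S] [Algebra k S] [FiniteDimensional k S] : S_WR k S :=
  t_WR k S
theorem all_CALC (S : Type u) [Ring S] [Algebra k S] [FiniteDimensional k S] : S_CALC k S :=
  t_CALC k S (all_lib k) (all_TR k S)
theorem all_LAM (S : Type u) [Ring S] [Algebra k S] [FiniteDimensional k S] : S_LAM k S :=
  t_LAM k S (all_WR k S)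
theorem all_LF (S : Type u) [Ring S] [Algebra k S] [FiniteDimensional k S] : S_LF k S :=
  t_LF k S (all_WR k S)
theorem all_ANTI1 (S : Type u) [Ring S] [Algebra k S] [FiniteDimensional k S] : S_ANTI1 k S :=
  t_ANTI1 k S
theorem all_RX (S : Type u) [Ring S] [Algebra k S] [FiniteDimensional k S] : S_RX k S :=
  t_RX k S (all_lib k)
theorem all_ANTI2 (S : Type u) [Ring S] [Algebra k S] [FiniteDimensional k S] : S_ANTI2 k S :=
  t_ANTI2 k S (all_lib k) (all_RX k S)
theorem all_DENSE (S : Type u) [Ring S] [Algebra k S] [FiniteDimensional k S] : S_DENSE k S :=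
  t_DENSE k S (all_lib k)
theorem all_ATT (S : Type u) [Ring S] [Algebra k S] [FiniteDimensional k S] : S_ATT k S :=
  t_ATT k S (all_lib k) (all_LF k S) (all_ANTI1 k S) (all_ANTI2 k S) (all_DENSE k S) t_ARI
theorem all_PF1 (S : Type u) [Ring S] [Algebra k S] [FiniteDimensional k S] : S_PF1 k S :=
  t_PF1 k S (all_lib k)
theorem all_PF (S : Type u) [Ring S] [Algebra k S] [FiniteDimensional k S] : S_PF k S :=
  t_PF k S (all_lib k) (all_PF1 k)
theorem all_DUALC (S : Type u) [Ring S] [Algebra k S] [FiniteDimensional k S] : S_DUALC k S :=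
  t_DUALC k S (all_lib k)
theorem all_DIV (S : Type u) [Ring S] [Algebra k S] [FiniteDimensional k S] : S_DIV k S :=
  t_DIV k S
theorem all_O2A (S : Type u) [Ring S] [Algebra k S] [FiniteDimensional k S] : S_O2A k S :=
  t_O2A k S
theorem all_O2B (S : Type u) [Ring S] [Algebra k S] [FiniteDimensional k S] : S_O2B k S :=
  t_O2B k S (all_WR k S)
theorem all_WINX (S : Type u) [Ring S] [Algebra k S] [FiniteDimensional k S] : S_WINX k S :=
  t_WINX k S (all_LC k S) (all_CALC k S) (all_LAM k S)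
theorem all_O2 (S : Type u) [Ring S] [Algebra k S] [FiniteDimensional k S] : S_O2 k S :=
  t_O2 k S (all_lib k) (all_CKop k S) (all_LC k) (all_AK k S) (all_NA k S) (all_CALC k S)
    (all_LAM k) (all_ATT k) t_ARI (all_PF k S) (all_DUALC k S) (all_DIV k S) (all_O2A k S)
    (all_O2B k S)
theorem all_O1 (S : Type u) [Ring S] [Algebra k S] [FiniteDimensional k S] : S_O1 k S :=
  t_O1 k S (all_lib k) (all_CKrev k S) (all_NTH k S) (all_L0 k S) (all_AK k S) (all_NA k S)
    (all_WINX k S)
theorem all_SMALL (S : Type u) [Ring S] [Algebra k S] [FiniteDimensional k S] : S_SMALL k S :=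
  t_SMALL k S
theorem all_RP (S : Type u) [Ring S] [Algebra k S] [FiniteDimensional k S] : S_RP k S :=
  t_RP k S
theorem all_KILL (S : Type u) [Ring S] [Algebra k S] [FiniteDimensional k S] : S_KILL k S :=
  t_KILL k S (all_lib k)
theorem all_FLEN (S : Type u) [Ring S] [Algebra k S] [FiniteDimensional k S] : S_FLEN k S :=
  t_FLEN k S (all_lib k)
theorem all_ENDO (S : Type u) [Ring S] [Algebra k S] [FiniteDimensional k S] : S_ENDO k S :=
  t_ENDO k S (all_lib k) (all_SMALL k S) (all_RP k S) (all_KILL k S) (all_FLEN k S)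
theorem all_D1 (S : Type u) [Ring S] [Algebra k S] [FiniteDimensional k S] : S_D1 k S :=
  t_D1 k S (all_lib k) (all_RED k S) (all_ENDO k S)
theorem all_LINK (S : Type u) [Ring S] [Algebra k S] [FiniteDimensional k S] : S_LINK k S :=
  t_LINK k S (all_lib k)
theorem all_SEP (S : Type u) [Ring S] [Algebra k S] [FiniteDimensional k S] : S_SEP k S :=
  t_SEP k S (all_lib k)
theorem all_MSA (S : Type u) [Ring S] [Algebra k S] [FiniteDimensional k S] : S_MSA k S :=
  t_MSA k S (all_lib k)
theorem all_MSC (S : Type u) [Ring S] [Algebra k S] [FiniteDimensional k S] : S_MSC k S :=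
  t_MSC k S (all_lib k)
theorem all_E2 (S : Type u) [Ring S] [Algebra k S] [FiniteDimensional k S] : S_E2 k S :=
  t_E2 k S (all_lib k) (all_E k S) (all_REL k S) (all_HOM k S)
theorem all_DG (S : Type u) [Ring S] [Algebra k S] [FiniteDimensional k S] : S_DG k S :=
  t_DG k S (all_lib k) (all_CL1 k)
theorem all_GAMD (S : Type u) [Ring S] [Algebra k S] [FiniteDimensional k S] : S_GAMD k S :=
  t_GAMD k S (all_lib k) (all_DG k)
theorem all_MSB (S : Type u) [Ring S] [Algebra k S] [FiniteDimensional k S] : S_MSB k S :=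
  t_MSB k S (all_lib k) (all_GOOD k S) (all_CKop k S) (all_O1 k) (all_MSA k) (all_DG k S)
    (all_E2 k) (all_GAMD k S) (all_HOM k S)
theorem all_MS (S : Type u) [Ring S] [Algebra k S] [FiniteDimensional k S] : S_MS k S :=
  t_MS k S (all_lib k) (all_GOOD k S) (all_CKrev k S) (all_TUBE k S) (all_TUBE2 k S) (all_STR k S)
    (all_LINK k S) (all_O1 k S) (all_O2 k S) (all_SWF k S) (all_MSA k S) (all_MSC k S)
    (all_E2 k S) (all_MSB k S)
theorem all_FIN (S : Type u) [Ring S] [Algebra k S] [FiniteDimensional k S] : S_FIN k S :=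
  t_FIN k S (all_lib k) (all_D1 k S) (all_MS k S) (all_SEP k S)
theorem all_G (S : Type u) [Ring S] [Algebra k S] [FiniteDimensional k S] : S_G k S :=
  t_G k S (all_lib k) (all_CL1 k S) (all_SAME k S)

/-- no dense system of pp-pairs implies domestic -/
theorem domestic_of_nd0 (S : Type u) [Ring S] [Algebra k S] [FiniteDimensional k S]
    (h : ND0 k S) : Domestic k S := all_G k S h (all_FIN k S h)

theorem main (S : Type u) [Ring S] [Algebra k S] [FiniteDimensional k S]
    (h : ¬ Domestic k S) : KGInfinite.{u, v} S := by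
  by_contra hK
  exact h (domestic_of_nd0 k S (t_KG.{u, v} k S (all_lib k).pp hK))

end Pool.Agent.P.MP_cf639b_al
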