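import Mathlib

/-! Basic objects for the Krull-Gabriel dimension project: modules, projectives `P V`,
injectives `I V`, the Nakayama map, two-term complexes, functorial translates. -/

set_option linter.dupNamespace false

namespace Pool.Agent.P.MP_cf639b_al

universe u
open TensorProduct

noncomputable section

variable (k : Type u) [Field k] (R : Type u) [Ring R] [Algebra k R]

/-- bundled left `R`-module with its `k`-structure -/
structure Md where
  T : Type u
  [ag : AddCommGroup T]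
  [mk' : Module k T]
  [mr : Module R T]
  [tw : IsScalarTower k R T]

attribute [instance] Md.ag Md.mk' Md.mr Md.tw

instance : CoeSort (Md k R) (Type u) := ⟨Md.T⟩

variable {k R}

instance (A : Md k R) : SMulCommClass R k A := IsScalarTower.to_smulCommClass'
instance (A : Md k R) : SMulCommClass k R A := IsScalarTower.to_smulCommClass
instance (A B : Md k R) : LinearMap.CompatibleSMul A B k R := LinearMap.IsScalarTower.compatibleSMul

/-- finite dimensional over `k` -/
abbrev Md.fd (A : Md k R) : Prop := Module.Finite k A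

/-- finite product -/
abbrev Md.pi {ι : Type} (A : ι → Md k R) : Md k R := ⟨∀ i, A i⟩
/-- binary product -/
abbrev Md.prod (A B : Md k R) : Md k R := ⟨A × B⟩
/-- submodule -/
abbrev Md.sub (A : Md k R) (S : Submodule R A) : Md k R := ⟨S⟩
/-- quotient -/
abbrev Md.quo (A : Md k R) (S : Submodule R A) : Md k R := ⟨A ⧸ S⟩

variable (R)

/-- the projective `R ⊗ V` -/
abbrev P (V : Type u) [AddCommGroup V] [Module k V] : Md k R := ⟨R ⊗[k] V⟩

variable (k)
/-- carrier of the injective `Hom_k(R,V)` -/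
def CoInd (V : Type u) [AddCommGroup V] [Module k V] : Type u := R →ₗ[k] V
variable {k}

section
variable (V : Type u) [AddCommGroup V] [Module k V]
instance : AddCommGroup (CoInd k R V) := inferInstanceAs (AddCommGroup (R →ₗ[k] V))
instance : Module k (CoInd k R V) := inferInstanceAs (Module k (R →ₗ[k] V))
instance : FunLike (CoInd k R V) R V := inferInstanceAs (FunLike (R →ₗ[k] V) R V)
instance : LinearMapClass (CoInd k R V) k R V :=
  inferInstanceAs (LinearMapClass (R →ₗ[k] V) k R V)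

variable {R V}
@[ext] theorem CoInd.ext {h h' : CoInd k R V} (e : ∀ s, h s = h' s) : h = h' :=
  LinearMap.ext e
/-- view a linear map as an element of `CoInd` -/
def CoInd.of (h : R →ₗ[k] V) : CoInd k R V := h
/-- the underlying linear map -/
def CoInd.lin (h : CoInd k R V) : R →ₗ[k] V := h
@[simp] theorem CoInd.of_apply (h : R →ₗ[k] V) (s : R) : CoInd.of h s = h s := rfl
@[simp] theorem CoInd.lin_apply (h : CoInd k R V) (s : R) : h.lin s = h s := rfl
@[simp] theorem CoInd.add_apply (h h' : CoInd k R V) (s : R) : (h + h') s = h s + h' s := rfl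
@[simp] theorem CoInd.sub_apply (h h' : CoInd k R V) (s : R) : (h - h') s = h s - h' s := rfl
@[simp] theorem CoInd.neg_apply (h : CoInd k R V) (s : R) : (-h) s = - h s := rfl
@[simp] theorem CoInd.zero_apply (s : R) : (0 : CoInd k R V) s = 0 := rfl
@[simp] theorem CoInd.ksmul_apply (c : k) (h : CoInd k R V) (s : R) : (c • h) s = c • h s := rfl
@[simp] theorem CoInd.sum_apply {ι : Type*} (t : Finset ι) (h : ι → CoInd k R V) (s : R) :
    (∑ i ∈ t, h i) s = ∑ i ∈ t, h i s := LinearMap.sum_apply t h s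
variable (R V)

instance : SMul R (CoInd k R V) := ⟨fun r h => CoInd.of (h.lin ∘ₗ LinearMap.mulRight k r)⟩
variable {R V}
@[simp] theorem CoInd.smul_apply (r : R) (h : CoInd k R V) (s : R) : (r • h) s = h (s * r) := rfl
variable (R V)
instance : Module R (CoInd k R V) where
  one_smul h := by ext s; simp
  mul_smul r r' h := by ext s; simp [mul_assoc]
  smul_zero r := by ext s; simp
  smul_add r h h' := by ext s; simp
  add_smul r r' h := by ext s; simp [mul_add]
  zero_smul h := by ext s; simp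
instance : IsScalarTower k R (CoInd k R V) := ⟨fun c r h => by ext s; simp⟩

/-- the injective `Hom_k(R,V)` -/
abbrev I : Md k R := ⟨CoInd k R V⟩
end

variable {R}
section
variable {V V' V'' : Type u} [AddCommGroup V] [Module k V] [AddCommGroup V'] [Module k V']
  [AddCommGroup V''] [Module k V'']
variable {T : Type u} [AddCommGroup T] [Module k T] [Module R T] [IsScalarTower k R T]

/-- the `R`-map `R ⊗ V → T` extending a `k`-linear map -/
def Plift (g : V →ₗ[k] T) : (R ⊗[k] V) →ₗ[R] T :=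
  TensorProduct.AlgebraTensorModule.lift (LinearMap.toSpanSingleton R (V →ₗ[k] T) g)
@[simp] theorem Plift_tmul (g : V →ₗ[k] T) (r : R) (v : V) :
    Plift g (r ⊗ₜ v) = r • g v := by simp [Plift]
/-- `v ↦ 1 ⊗ v` -/
def Pin (V : Type u) [AddCommGroup V] [Module k V] : V →ₗ[k] (R ⊗[k] V) :=
  TensorProduct.mk k R V 1
@[simp] theorem Pin_apply (v : V) : Pin (R := R) V v = (1 : R) ⊗ₜ[k] v := rfl
theorem P_ext {f g : (R ⊗[k] V) →ₗ[R] T}
    (h : ∀ v, f ((1 : R) ⊗ₜ v) = g ((1 : R) ⊗ₜ v)) : f = g := by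
  refine TensorProduct.AlgebraTensorModule.ext fun r v => ?_
  have e : r ⊗ₜ[k] v = r • ((1 : R) ⊗ₜ[k] v) := by simp [TensorProduct.smul_tmul']
  rw [e, map_smul, map_smul, h]
/-- functoriality of `P` -/
def Pmap (g : V →ₗ[k] V') : (R ⊗[k] V) →ₗ[R] (R ⊗[k] V') :=
  TensorProduct.AlgebraTensorModule.map LinearMap.id g
@[simp] theorem Pmap_tmul (g : V →ₗ[k] V') (r : R) (v : V) :
    Pmap g (r ⊗ₜ v) = r ⊗ₜ g v := by simp [Pmap]
theorem Pmap_id : Pmap (R := R) (LinearMap.id : V →ₗ[k] V) = LinearMap.id :=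
  P_ext fun v => by simp
theorem Pmap_comp (g : V' →ₗ[k] V'') (f : V →ₗ[k] V') :
    Pmap (R := R) (g ∘ₗ f) = Pmap g ∘ₗ Pmap f := P_ext fun v => by simp
theorem Pmap_add (g f : V →ₗ[k] V') : Pmap (R := R) (g + f) = Pmap g + Pmap f :=
  P_ext fun v => by simp [TensorProduct.tmul_add]
theorem Pmap_smul (c : k) (f : V →ₗ[k] V') : Pmap (R := R) (c • f) = c • Pmap f :=
  P_ext fun v => by simp
/-- functoriality of `I` -/
def Imap (g : V →ₗ[k] V') : (CoInd k R V) →ₗ[R] (CoInd k R V') where
  toFun h := CoInd.of (g ∘ₗ CoInd.lin h)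
  map_add' h h' := by ext s; simp
  map_smul' r h := by ext s; simp
@[simp] theorem Imap_apply (g : V →ₗ[k] V') (h : CoInd k R V) (s : R) :
    (Imap (R := R) g h : CoInd k R V') s = g (h s) := rfl
theorem Imap_id : Imap (R := R) (LinearMap.id : V →ₗ[k] V) = LinearMap.id := rfl
theorem Imap_comp (g : V' →ₗ[k] V'') (f : V →ₗ[k] V') :
    Imap (R := R) (g ∘ₗ f) = Imap g ∘ₗ Imap f := rfl
theorem Imap_add (g f : V →ₗ[k] V') : Imap (R := R) (g + f) = Imap g + Imap f := rfl
theorem Imap_smul (c : k) (f : V →ₗ[k] V') : Imap (R := R) (c • f) = c • Imap f := rfl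
/-- the `R`-map `T → Hom_k(R,V)` coextending a `k`-linear map -/
def Ilift (g : T →ₗ[k] V) : T →ₗ[R] (CoInd k R V) where
  toFun t := CoInd.of (g ∘ₗ (LinearMap.toSpanSingleton R T t).restrictScalars k)
  map_add' t t' := by ext s; simp
  map_smul' r t := by ext s; simp [mul_smul]
@[simp] theorem Ilift_apply (g : T →ₗ[k] V) (t : T) (s : R) :
    (Ilift g t : CoInd k R V) s = g (s • t) := rfl
/-- evaluation at `1` -/
def Iev (V : Type u) [AddCommGroup V] [Module k V] : (CoInd k R V) →ₗ[k] V where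
  toFun h := (h : CoInd k R V) 1
  map_add' _ _ := rfl
  map_smul' _ _ := rfl
@[simp] theorem Iev_apply (h : CoInd k R V) : Iev (R := R) V h = h 1 := rfl
end

/-- bundled `k`-vector space -/
structure Vs (k : Type u) [Field k] where
  T : Type u
  [ag : AddCommGroup T]
  [mk' : Module k T]

attribute [instance] Vs.ag Vs.mk'

instance : CoeSort (Vs k) (Type u) := ⟨Vs.T⟩

/-- an additive `k`-linear endofunctor of the module category -/
structure AFun (k : Type u) [Field k] (R : Type u) [Ring R] [Algebra k R] where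
  obj : Md k R → Md k R
  map : ∀ {A B : Md k R}, (A →ₗ[R] B) →ₗ[k] (obj A →ₗ[R] obj B)
  map_id : ∀ A : Md k R, map (LinearMap.id : A →ₗ[R] A) = LinearMap.id
  map_comp : ∀ {A B C : Md k R} (g : B →ₗ[R] C) (f : A →ₗ[R] B),
    map (g ∘ₗ f) = map g ∘ₗ map f

/-- identity functor -/
def AFun.id : AFun k R where
  obj A := A
  map := LinearMap.id
  map_id _ := rfl
  map_comp _ _ := rfl

/-- composite functor, first `Ψ` then `Φ` -/
def AFun.comp (Φ Ψ : AFun k R) : AFun k R where
  obj A := Φ.obj (Ψ.obj A)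
  map := Φ.map ∘ₗ Ψ.map
  map_id A := by simp [Ψ.map_id, Φ.map_id]
  map_comp g f := by simp [Ψ.map_comp, Φ.map_comp]

/-- iterated functor -/
def AFun.iter (Φ : AFun k R) : ℕ → AFun k R
  | 0 => AFun.id
  | n + 1 => Φ.comp (Φ.iter n)

section
variable [FiniteDimensional k R]
variable {V V' V'' : Type u} [AddCommGroup V] [Module k V] [AddCommGroup V'] [Module k V']
  [AddCommGroup V''] [Module k V'']

variable (k R) in
/-- the chosen basis of `R` -/
def bR : Module.Basis (Fin (Module.finrank k R)) k R := Module.finBasis k R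

/-- `i`-th coordinate `R ⊗ V → V` -/
def cf (V : Type u) [AddCommGroup V] [Module k V] (i : Fin (Module.finrank k R)) :
    (R ⊗[k] V) →ₗ[k] V :=
  TensorProduct.lift ((LinearMap.lsmul k V) ∘ₗ (bR k R).coord i)
@[simp] theorem cf_tmul (i : Fin (Module.finrank k R)) (r : R) (v : V) :
    cf V i (r ⊗ₜ v) = (bR k R).repr r i • v := by simp [cf]

theorem sum_cf (z : (R ⊗[k] V)) : ∑ i, bR k R i ⊗ₜ[k] cf V i z = z := by
  induction z using TensorProduct.induction_on with
  | zero => simp
  | tmul r v =>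
    simp only [cf_tmul, TensorProduct.tmul_smul, TensorProduct.smul_tmul']
    rw [← TensorProduct.sum_tmul, (bR k R).sum_repr]
  | add x y hx hy => simp only [map_add, TensorProduct.tmul_add, Finset.sum_add_distrib, hx, hy]

/-- the Nakayama map `Hom(P V, P V') → Hom(I V, I V')` -/
def nu : ((R ⊗[k] V) →ₗ[R] (R ⊗[k] V')) →ₗ[k] ((CoInd k R V) →ₗ[R] (CoInd k R V')) where
  toFun f :=
    { toFun := fun h => CoInd.of (∑ i, (cf V' i ∘ₗ f.restrictScalars k ∘ₗ Pin V) ∘ₗ
        CoInd.lin h ∘ₗ LinearMap.mulLeft k (bR k R i))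
      map_add' := fun h h' => by ext s; simp [Finset.sum_add_distrib, TensorProduct.tmul_add]
      map_smul' := fun r h => by ext s; simp [mul_assoc] }
  map_add' f g := by ext h s; simp [Finset.sum_add_distrib]
  map_smul' c f := by ext h s; simp [Finset.smul_sum]

theorem nu_apply (f : (R ⊗[k] V) →ₗ[R] (R ⊗[k] V')) (h : CoInd k R V) (s : R) :
    (nu f h : CoInd k R V') s = ∑ i, cf V' i (f ((1 : R) ⊗ₜ h (bR k R i * s))) := by
  simp [nu]

/-- the formula for `nu` from any expression of `f` -/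
theorem nu_apply_of {ι : Type*} (t : Finset ι) (r : ι → R) (g : ι → V →ₗ[k] V')
    (f : (R ⊗[k] V) →ₗ[R] (R ⊗[k] V'))
    (hf : ∀ v, f ((1 : R) ⊗ₜ v) = ∑ a ∈ t, r a ⊗ₜ g a v) (h : CoInd k R V) (s : R) :
    (nu f h : CoInd k R V') s = ∑ a ∈ t, g a (h (r a * s)) := by
  simp only [nu_apply, hf, map_sum, cf_tmul]
  rw [Finset.sum_comm]
  refine Finset.sum_congr rfl fun a _ => ?_
  conv_rhs => rw [← (bR k R).sum_repr (r a)]
  simp only [Finset.sum_mul, smul_mul_assoc, map_sum, map_smul]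

theorem nu_Pmap (g : V →ₗ[k] V') : nu (Pmap (R := R) g) = Imap g := by
  ext h s
  rw [nu_apply_of {()} (fun _ => (1 : R)) (fun _ => g) _ (by simp)]
  simp

theorem nu_id : nu (LinearMap.id : (R ⊗[k] V) →ₗ[R] _) = LinearMap.id := by
  ext h s
  rw [nu_apply_of {()} (fun _ => (1 : R)) (fun _ => LinearMap.id) _ (by simp)]
  simp

theorem nu_comp (g : (R ⊗[k] V') →ₗ[R] (R ⊗[k] V''))
    (f : (R ⊗[k] V) →ₗ[R] (R ⊗[k] V')) : nu (g ∘ₗ f) = nu g ∘ₗ nu f := by
  ext h s
  have hf : ∀ v, f ((1 : R) ⊗ₜ v) =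
      ∑ i, bR k R i ⊗ₜ (cf V' i ∘ₗ f.restrictScalars k ∘ₗ Pin V) v := fun v => (sum_cf _).symm
  have hg : ∀ v, g ((1 : R) ⊗ₜ v) =
      ∑ i, bR k R i ⊗ₜ (cf V'' i ∘ₗ g.restrictScalars k ∘ₗ Pin V') v := fun v => (sum_cf _).symm
  set a := fun i => cf V' i ∘ₗ f.restrictScalars k ∘ₗ Pin V
  set b := fun i => cf V'' i ∘ₗ g.restrictScalars k ∘ₗ Pin V'
  have hgf : ∀ v, (g ∘ₗ f) ((1 : R) ⊗ₜ v) =
      ∑ p : Fin _ × Fin _, (bR k R p.1 * bR k R p.2) ⊗ₜ (b p.2 ∘ₗ a p.1) v := by
    intro v
    rw [LinearMap.comp_apply, hf, map_sum, Fintype.sum_prod_type]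
    refine Finset.sum_congr rfl fun i _ => ?_
    have e : bR k R i ⊗ₜ[k] a i v = bR k R i • ((1 : R) ⊗ₜ[k] a i v) := by
      simp [TensorProduct.smul_tmul']
    rw [e, map_smul, hg, Finset.smul_sum]
    simp [TensorProduct.smul_tmul', b]
  rw [nu_apply_of _ _ _ _ hgf, LinearMap.comp_apply, nu_apply_of _ _ _ _ hg,
    Fintype.sum_prod_type_right]
  refine Finset.sum_congr rfl fun j _ => ?_
  rw [nu_apply_of _ _ _ _ hf, map_sum]
  simp [mul_assoc, a, b]

theorem nu_eq_zero {f : (R ⊗[k] V) →ₗ[R] (R ⊗[k] V')} (hf : nu f = 0) : f = 0 := by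
  refine P_ext fun v => ?_
  rw [← sum_cf (f _)]
  refine Finset.sum_eq_zero fun j _ => ?_
  have := congrArg (fun φ : (CoInd k R V) →ₗ[R] (CoInd k R V') =>
    (φ (CoInd.of (((bR k R).coord j).smulRight v)) : CoInd k R V') 1) hf
  simp only [nu_apply, mul_one, CoInd.of_apply, LinearMap.smulRight_apply, Module.Basis.coord_apply,
    Module.Basis.repr_self, LinearMap.zero_apply, CoInd.zero_apply] at this
  rw [Finset.sum_eq_single j (fun i _ hi => by simp [Finsupp.single_apply, hi])
    (by simp)] at this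
  simp only [Finsupp.single_eq_same, one_smul] at this
  simp [this]

theorem nu_inj {f g : (R ⊗[k] V) →ₗ[R] (R ⊗[k] V')} (h : nu f = nu g) : f = g :=
  sub_eq_zero.mp (nu_eq_zero (by rw [map_sub, h, sub_self]))
end

variable (k R) in
/-- a two-term complex `P V1 → P V0` -/
structure EO where
  V1 : Vs k
  V0 : Vs k
  d : (R ⊗[k] V1) →ₗ[R] (R ⊗[k] V0)

/-- chain maps -/
@[ext] structure CM (X Y : EO k R) where
  f1 : (R ⊗[k] X.V1) →ₗ[R] (R ⊗[k] Y.V1)
  f0 : (R ⊗[k] X.V0) →ₗ[R] (R ⊗[k] Y.V0)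
  comm : Y.d ∘ₗ f1 = f0 ∘ₗ X.d

/-- cokernel -/
abbrev EO.H0 (X : EO k R) : Md k R := ⟨(R ⊗[k] X.V0) ⧸ LinearMap.range X.d⟩

/-- induced map on cokernels -/
def CM.H0 {X Y : EO k R} (c : CM X Y) :
    ((R ⊗[k] X.V0) ⧸ LinearMap.range X.d) →ₗ[R] ((R ⊗[k] Y.V0) ⧸ LinearMap.range Y.d) :=
  Submodule.mapQ _ _ c.f0 (by
    rintro _ ⟨z, rfl⟩
    exact ⟨c.f1 z, LinearMap.congr_fun c.comm z⟩)
@[simp] theorem CM.H0_mk {X Y : EO k R} (c : CM X Y) (z : (R ⊗[k] X.V0)) :
    c.H0 (Submodule.Quotient.mk z) = Submodule.Quotient.mk (c.f0 z) := rfl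

theorem CM.H0_id {X : EO k R} (c : CM X X) (h : c.f0 = LinearMap.id) : c.H0 = LinearMap.id :=
  Submodule.linearMap_qext _ (LinearMap.ext fun z => by simp [h])
theorem CM.H0_comp {X Y Z : EO k R} (c : CM X Z) (b : CM Y Z) (a : CM X Y)
    (h : c.f0 = b.f0 ∘ₗ a.f0) : c.H0 = b.H0 ∘ₗ a.H0 :=
  Submodule.linearMap_qext _ (LinearMap.ext fun z => by simp [h])
theorem CM.H0_add {X Y : EO k R} (c b a : CM X Y) (h : c.f0 = b.f0 + a.f0) :
    c.H0 = b.H0 + a.H0 :=
  Submodule.linearMap_qext _ (LinearMap.ext fun z => by simp [h])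
theorem CM.H0_smul {X Y : EO k R} (c a : CM X Y) (r : k) (h : c.f0 = r • a.f0) :
    c.H0 = r • a.H0 :=
  Submodule.linearMap_qext _ (LinearMap.ext fun z => by simp [h])

/-- identity chain map -/
def CM.id (X : EO k R) : CM X X := ⟨LinearMap.id, LinearMap.id, rfl⟩
/-- composite chain map -/
def CM.comp {X Y Z : EO k R} (b : CM Y Z) (a : CM X Y) : CM X Z :=
  ⟨b.f1 ∘ₗ a.f1, b.f0 ∘ₗ a.f0, by
    rw [← LinearMap.comp_assoc, b.comm, LinearMap.comp_assoc, a.comm, LinearMap.comp_assoc]⟩

variable (k R) in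
/-- the multiplication map `R ⊗ T → T` -/
def Pmul (T : Type u) [AddCommGroup T] [Module k T] [Module R T] [IsScalarTower k R T] :
    R ⊗[k] T →ₗ[R] T := Plift LinearMap.id
@[simp] theorem Pmul_tmul {T : Type u} [AddCommGroup T] [Module k T] [Module R T]
    [IsScalarTower k R T] (r : R) (t : T) : Pmul k R T (r ⊗ₜ t) = r • t := by simp [Pmul]

variable (k R) in
/-- the differential of the standard presentation -/
def presD (T : Type u) [AddCommGroup T] [Module k T] [Module R T] [IsScalarTower k R T] :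
    R ⊗[k] (R ⊗[k] T) →ₗ[R] R ⊗[k] T :=
  Plift (LinearMap.id - Pin T ∘ₗ (Pmul k R T).restrictScalars k)
@[simp] theorem presD_tmul {T : Type u} [AddCommGroup T] [Module k T] [Module R T]
    [IsScalarTower k R T] (r : R) (z : R ⊗[k] T) :
    presD k R T (r ⊗ₜ z) = r • z - r ⊗ₜ Pmul k R T z := by
  simp [presD, smul_sub, TensorProduct.smul_tmul']

/-- the standard presentation -/
abbrev pres (T : Md k R) : EO k R where
  V1 := ⟨R ⊗[k] T⟩
  V0 := ⟨T⟩
  d := presD k R T

/-- functoriality of `pres` -/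
def presMap {T T' : Md k R} (g : T →ₗ[R] T') : CM (pres T) (pres T') where
  f1 := Pmap ((Pmap (g.restrictScalars k)).restrictScalars k)
  f0 := Pmap (g.restrictScalars k)
  comm := P_ext fun v => by
    induction v using TensorProduct.induction_on with
    | zero => simp
    | tmul r t => simp
    | add x y hx hy => simp only [TensorProduct.tmul_add, map_add, hx, hy]

/-- the augmentation `(pres T)^0 → T` -/
def presEps (T : Md k R) : (pres T).H0 →ₗ[R] T :=
  Submodule.liftQ _ (Pmul k R T) (by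
    rw [LinearMap.range_le_ker_iff]
    exact P_ext fun v => by simp)

/-- the canonical chain map `X → pres X^0` -/
def can (X : EO k R) : CM X (pres X.H0) where
  f1 := Pmap ((Pmap ((Submodule.mkQ _).restrictScalars k ∘ₗ Pin X.V0) ∘ₗ X.d).restrictScalars k
    ∘ₗ Pin X.V1)
  f0 := Pmap ((Submodule.mkQ _).restrictScalars k ∘ₗ Pin X.V0)
  comm := P_ext fun v => by
    have e : Pmul k R X.H0 ∘ₗ
        Pmap ((Submodule.mkQ _).restrictScalars k ∘ₗ Pin X.V0) = Submodule.mkQ _ :=
      P_ext fun w => by simp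
    have e2 := LinearMap.congr_fun e (X.d ((1 : R) ⊗ₜ v))
    have e3 : (LinearMap.range X.d).mkQ (X.d ((1 : R) ⊗ₜ v)) = 0 := by simp
    simp only [LinearMap.comp_apply] at e2
    simp [e2, e3]

section
variable [FiniteDimensional k R]

/-- kernel of the Nakayama map -/
abbrev EO.Tau (X : EO k R) : Md k R := ⟨LinearMap.ker (nu X.d)⟩

/-- induced map on `Tau` -/
def CM.Tau {X Y : EO k R} (c : CM X Y) : LinearMap.ker (nu X.d) →ₗ[R] LinearMap.ker (nu Y.d) :=
  (nu c.f1).restrict (fun h hh => by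
    have := LinearMap.congr_fun (congrArg nu c.comm) h
    simp only [nu_comp, LinearMap.comp_apply] at this
    rw [LinearMap.mem_ker] at hh ⊢
    rw [this, hh, map_zero])
@[simp] theorem CM.Tau_coe {X Y : EO k R} (c : CM X Y) (h : LinearMap.ker (nu X.d)) :
    (c.Tau h).1 = nu c.f1 h.1 := rfl

theorem CM.Tau_id {X : EO k R} (c : CM X X) (h : c.f1 = LinearMap.id) : c.Tau = LinearMap.id :=
  LinearMap.ext fun z => Subtype.ext (by simp [h, nu_id])
theorem CM.Tau_comp {X Y Z : EO k R} (c : CM X Z) (b : CM Y Z) (a : CM X Y)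
    (h : c.f1 = b.f1 ∘ₗ a.f1) : c.Tau = b.Tau ∘ₗ a.Tau :=
  LinearMap.ext fun z => Subtype.ext (by simp [h, nu_comp])
theorem CM.Tau_add {X Y : EO k R} (c b a : CM X Y) (h : c.f1 = b.f1 + a.f1) :
    c.Tau = b.Tau + a.Tau :=
  LinearMap.ext fun z => Subtype.ext (by simp [h])
theorem CM.Tau_smul {X Y : EO k R} (c a : CM X Y) (r : k) (h : c.f1 = r • a.f1) :
    c.Tau = r • a.Tau :=
  LinearMap.ext fun z => Subtype.ext (by simp [h])

section
variable (T : Type u) [AddCommGroup T] [Module k T] [Module R T] [IsScalarTower k R T]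
/-- components of the standard copresentation -/
def copd (i : Fin (Module.finrank k R)) : T →ₗ[k] CoInd k R T where
  toFun t := CoInd.of (((bR k R).coord i).smulRight t) -
    (bR k R).repr 1 i • Ilift (LinearMap.id : T →ₗ[k] T) t
  map_add' t t' := by ext s; simp; abel
  map_smul' c t := by ext s; simp [smul_sub, smul_comm c]
@[simp] theorem copd_apply (i : Fin (Module.finrank k R)) (t : T) (s : R) :
    (copd T i t : CoInd k R T) s = (bR k R).repr s i • t - (bR k R).repr 1 i • s • t := rfl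

variable (k R) in
/-- the differential of the standard copresentation, pulled back along `nu` -/
def copD : R ⊗[k] T →ₗ[R] R ⊗[k] CoInd k R T :=
  Plift (∑ i, TensorProduct.mk k R _ (bR k R i) ∘ₗ copd T i)

variable {T} in
@[simp] theorem nu_copD (h : CoInd k R T) (s s' : R) :
    nu (copD k R T) h s s' = h (s' * s) - s' • h s := by
  rw [nu_apply_of Finset.univ (bR k R) (copd T) _ (fun v => by simp [copD])]
  simp only [CoInd.sum_apply, copd_apply, Finset.sum_sub_distrib]
  congr 1
  · conv_rhs => rw [← (bR k R).sum_repr s']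
    simp only [Finset.sum_mul, smul_mul_assoc, map_sum, map_smul]
  · conv_rhs => rw [← one_mul s, ← (bR k R).sum_repr 1]
    simp only [Finset.sum_mul, smul_mul_assoc, map_sum, map_smul, Finset.smul_sum, smul_comm s']
end

/-- the standard copresentation, pulled back along `nu` -/
abbrev copres (T : Md k R) : EO k R where
  V1 := ⟨T⟩
  V0 := ⟨CoInd k R T⟩
  d := copD k R T

/-- functoriality of `copres` -/
def copresMap {T T' : Md k R} (g : T →ₗ[R] T') : CM (copres T) (copres T') where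
  f1 := Pmap (g.restrictScalars k)
  f0 := Pmap ((Imap (g.restrictScalars k)).restrictScalars k)
  comm := nu_inj (by
    rw [nu_comp, nu_comp, nu_Pmap, nu_Pmap]
    ext h s s'
    simp)

/-- the coaugmentation `T → (copres T)^τ` -/
def copresEta (T : Md k R) : T →ₗ[R] (copres T).Tau :=
  LinearMap.codRestrict _ (Ilift (LinearMap.id : T →ₗ[k] T)) (fun t => by
    rw [LinearMap.mem_ker]
    ext s s'
    simp [mul_smul])

/-- the canonical chain map `copres X^τ → X` -/
def cocan (X : EO k R) : CM (copres X.Tau) X where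
  f1 := Pmap (Iev X.V1 ∘ₗ (Submodule.subtype _).restrictScalars k)
  f0 := Pmap (Iev X.V0 ∘ₗ (nu X.d ∘ₗ
    Imap (Iev X.V1 ∘ₗ (Submodule.subtype _).restrictScalars k)).restrictScalars k)
  comm := nu_inj (by
    rw [nu_comp, nu_comp, nu_Pmap, nu_Pmap]
    ext h s
    set e : X.Tau →ₗ[k] X.V1 := Iev X.V1 ∘ₗ (Submodule.subtype _).restrictScalars k with he
    have h1 : Imap (R := R) e (nu (copD k R X.Tau) h s) =
        s • Imap (R := R) e h - (h s).1 := by
      ext s'
      simp [he]
    have h2 : nu X.d (h s).1 = 0 := (h s).2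
    simp [h1, h2])

/-- the functor `T^+` -/
def Tp : AFun k R where
  obj T := (pres T).Tau
  map :=
    { toFun := fun g => (presMap g).Tau
      map_add' := fun g g' => CM.Tau_add _ _ _
        (P_ext fun v => by simp [presMap, Pmap_add, TensorProduct.tmul_add])
      map_smul' := fun c g => CM.Tau_smul _ _ _ (P_ext fun v => by simp [presMap, Pmap_smul]) }
  map_id T := CM.Tau_id _ (P_ext fun v => by simp [presMap, Pmap_id])
  map_comp g f := CM.Tau_comp _ _ _ (P_ext fun v => by simp [presMap, Pmap_comp])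

/-- the functor `T^-` -/
def Tm : AFun k R where
  obj T := (copres T).H0
  map :=
    { toFun := fun g => (copresMap g).H0
      map_add' := fun g g' => CM.H0_add _ _ _
        (P_ext fun v => by simp [copresMap, Imap_add, TensorProduct.tmul_add])
      map_smul' := fun c g => CM.H0_smul _ _ _ (P_ext fun v => by simp [copresMap, Imap_smul]) }
  map_id T := CM.H0_id _ (P_ext fun v => by simp [copresMap, Imap_id])
  map_comp g f := CM.H0_comp _ _ _ (P_ext fun v => by simp [copresMap, Imap_comp])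

/-- unit `T → T^+ T^- T` -/
def eta (T : Md k R) : T →ₗ[R] Tp.obj (Tm.obj T) := (can (copres T)).Tau ∘ₗ copresEta T
/-- counit `T^- T^+ T → T` -/
def eps (T : Md k R) : Tm.obj (Tp.obj T) →ₗ[R] T := presEps T ∘ₗ (cocan (pres T)).H0

/-- `T^+` for `true`, `T^-` for `false` -/
def Te : Bool → AFun k R
  | true => Tp
  | false => Tm
/-- the iterates `T^{e n}` -/
def Tn (e : Bool) (n : ℕ) : AFun k R := (Te e).iter n
/-- the iterates `T^j` -/
def Tz : ℤ → AFun k R
  | Int.ofNat n => Tn true n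
  | Int.negSucc n => Tn false (n + 1)
end

end
end Pool.Agent.P.MP_cf639b_al
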