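import Pool.Agent.P.MP_cf639b_al.Fam

/-! Modules with a commuting action of a field `F` over `k`. -/

set_option linter.dupNamespace false

namespace Pool.Agent.P.MP_cf639b_al

universe u
open TensorProduct Polynomial

noncomputable section

variable {k : Type u} [Field k] {R : Type u} [Ring R] [Algebra k R]

/-- an `F`-object: an `R`-module with a commuting action of `F` -/
structure FO (k : Type u) [Field k] (R : Type u) [Ring R] [Algebra k R]
    (F : Type u) [Field F] [Algebra k F] where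
  X : Md k R
  act : F →ₐ[k] Module.End R X

/-- a `k[x]`-module with a commuting action of `F` -/
structure FXV (k : Type u) [Field k] (F : Type u) [Field F] [Algebra k F] where
  V : XV k
  act : F →ₐ[k] Module.End k V
  comm : ∀ a, act a ∘ₗ V.x = V.x ∘ₗ act a

variable {F : Type u} [Field F] [Algebra k F]

instance (priority := 100) FO.module (A : FO k R F) : Module F A.X :=
  Module.compHom A.X A.act.toRingHom
theorem FO.smul_def (A : FO k R F) (a : F) (t : A.X) : a • t = A.act a t := rfl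
instance (A : FO k R F) : IsScalarTower k F A.X :=
  ⟨fun c a t => by simp only [FO.smul_def, map_smul, LinearMap.smul_apply]⟩
instance (A : FO k R F) : SMulCommClass R F A.X :=
  ⟨fun r a t => by simp only [FO.smul_def, map_smul]⟩
instance (A : FO k R F) : SMulCommClass F R A.X := SMulCommClass.symm _ _ _

instance (priority := 100) FXV.module (V : FXV k F) : Module F V.V :=
  Module.compHom V.V V.act.toRingHom
theorem FXV.smul_def (V : FXV k F) (a : F) (t : V.V) : a • t = V.act a t := rfl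
instance (V : FXV k F) : IsScalarTower k F V.V :=
  ⟨fun c a t => by simp only [FXV.smul_def, map_smul, LinearMap.smul_apply]⟩
/-- the scalar `a` as a `k[x]`-linear map -/
def FXV.sc (V : FXV k F) (a : F) : XH V.V V.V := ⟨V.act a, V.comm a⟩

/-- finite dimensional over `F` -/
abbrev FO.fd (A : FO k R F) : Prop := Module.Finite F A.X

/-- dimension over `F` -/
abbrev FO.dim (A : FO k R F) : ℕ := Module.finrank F A.X
/-- finite dimensional over `F` -/
abbrev FXV.fd (V : FXV k F) : Prop := Module.Finite F V.V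
/-- dimension over `F` -/
abbrev FXV.dim (V : FXV k F) : ℕ := Module.finrank F V.V
/-- `F`-linearity of a `k[x]`-linear map -/
def XLin (V V' : FXV k F) (g : XH V.V V'.V) : Prop :=
  ∀ (a : F) (v : V.V), g.1 (V.act a v) = V'.act a (g.1 v)

/-- `F`-linear homomorphisms -/
def HomF (A B : FO k R F) : Submodule F (A.X →ₗ[R] B.X) where
  carrier := {f | ∀ (a : F) (t : A.X), f (a • t) = a • f t}
  add_mem' {f g} hf hg a t := by simp [hf a t, hg a t]
  zero_mem' a t := by simp
  smul_mem' c f hf a t := by simp [hf a t, smul_comm c a]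
theorem mem_HomF {A B : FO k R F} {f : A.X →ₗ[R] B.X} :
    f ∈ HomF A B ↔ ∀ (a : F) (t : A.X), f (a • t) = a • f t := Iff.rfl
theorem mem_HomF' {A B : FO k R F} {f : A.X →ₗ[R] B.X} :
    f ∈ HomF A B ↔ ∀ a : F, f ∘ₗ A.act a = B.act a ∘ₗ f :=
  ⟨fun h a => LinearMap.ext (h a), fun h a t => LinearMap.congr_fun (h a) t⟩
theorem HomF.id (A : FO k R F) : LinearMap.id ∈ HomF A A := fun _ _ => rfl
theorem HomF.comp {A B C : FO k R F} {g : B.X →ₗ[R] C.X} {f : A.X →ₗ[R] B.X}
    (hg : g ∈ HomF B C) (hf : f ∈ HomF A B) : g ∘ₗ f ∈ HomF A C := fun a t => by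
  rw [LinearMap.comp_apply, hf, hg, LinearMap.comp_apply]
theorem HomF.act (A : FO k R F) (a : F) : A.act a ∈ HomF A A := fun b t => by
  simp only [FO.smul_def, ← Module.End.mul_apply, ← map_mul, mul_comm]
/-- an `F`-linear homomorphism as an `F`-linear map -/
def HomF.lin {A B : FO k R F} {f : A.X →ₗ[R] B.X} (hf : f ∈ HomF A B) : A.X →ₗ[F] B.X where
  toFun := f
  map_add' := f.map_add
  map_smul' := hf
@[simp] theorem HomF.lin_apply {A B : FO k R F} {f : A.X →ₗ[R] B.X} (hf : f ∈ HomF A B)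
    (t : A.X) : HomF.lin hf t = f t := rfl

/-- a module as a `k`-object -/
abbrev FO.ofMd (T : Md k R) : FO k R k := ⟨T, Algebra.ofId k _⟩
theorem FO.smul_k (A : FO k R k) (c : k) (t : A.X) : A.act c t = c • t := by
  have := A.act.commutes c
  simp only [Algebra.algebraMap_self, RingHom.id_apply] at this
  rw [this]; simp
theorem mem_HomF_k {A B : FO k R k} (f : A.X →ₗ[R] B.X) : f ∈ HomF A B := fun a t => by
  change f (A.act a t) = B.act a (f t)
  rw [FO.smul_k, FO.smul_k, LinearMap.map_smul_of_tower]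

/-- the induced action on `Φ A` -/
def AFun.actF (Φ : AFun k R) (A : FO k R F) : F →ₐ[k] Module.End R (Φ.obj A.X) where
  toFun a := Φ.map (A.act a)
  map_one' := by rw [map_one]; exact Φ.map_id _
  map_mul' a b := by rw [map_mul]; exact Φ.map_comp _ _
  map_zero' := by simp
  map_add' a b := by simp
  commutes' c := by
    rw [AlgHom.commutes, Algebra.algebraMap_eq_smul_one, Algebra.algebraMap_eq_smul_one, map_smul]
    exact congrArg _ (Φ.map_id _)
theorem AFun.actF_apply (Φ : AFun k R) (A : FO k R F) (a : F) :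
    Φ.actF A a = Φ.map (A.act a) := rfl
/-- an endofunctor applied to an `F`-object -/
abbrev AFun.onF (Φ : AFun k R) (A : FO k R F) : FO k R F := ⟨Φ.obj A.X, Φ.actF A⟩
theorem AFun.map_mem (Φ : AFun k R) {A B : FO k R F} {f : A.X →ₗ[R] B.X} (hf : f ∈ HomF A B) :
    Φ.map f ∈ HomF (Φ.onF A) (Φ.onF B) := mem_HomF'.mpr fun a => by
  rw [AFun.actF_apply, AFun.actF_apply, ← Φ.map_comp, ← Φ.map_comp, mem_HomF'.mp hf a]

/-- the induced action on `G V` -/
def NF.actF (G : NF k R) (V : FXV k F) : F →ₐ[k] Module.End R (G.obj V.V) where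
  toFun a := G.map (V.sc a)
  map_one' := by
    have : V.sc 1 = XH.id _ := Subtype.ext (map_one V.act)
    rw [this]; exact G.map_id _
  map_mul' a b := by
    have : V.sc (a * b) = XH.comp (V.sc a) (V.sc b) := Subtype.ext (map_mul V.act a b)
    rw [this]; exact G.map_comp _ _
  map_zero' := by
    have : V.sc 0 = 0 := Subtype.ext (map_zero V.act)
    rw [this, map_zero]
  map_add' a b := by
    have : V.sc (a + b) = V.sc a + V.sc b := Subtype.ext (map_add V.act a b)
    rw [this, map_add]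
  commutes' c := by
    have : V.sc (algebraMap k F c) = c • XH.id _ := Subtype.ext (by
      change V.act _ = c • 1
      rw [AlgHom.commutes, Algebra.algebraMap_eq_smul_one])
    rw [this, map_smul, G.map_id, Algebra.algebraMap_eq_smul_one]
    rfl
theorem NF.actF_apply (G : NF k R) (V : FXV k F) (a : F) : G.actF V a = G.map (V.sc a) := rfl
/-- a functor applied to an `F[x]`-module -/
abbrev NF.onF (G : NF k R) (V : FXV k F) : FO k R F := ⟨G.obj V.V, G.actF V⟩
theorem NT.mem {G H : NF k R} (a : NT G H) (V : FXV k F) : a.app V.V ∈ HomF (G.onF V) (H.onF V) :=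
  mem_HomF'.mpr fun c => (a.nat (V.sc c)).symm
theorem NF.map_mem (G : NF k R) {V V' : FXV k F} (g : XH V.V V'.V)
    (hg : XLin V V' g) : G.map g ∈ HomF (G.onF V) (G.onF V') :=
  mem_HomF'.mpr fun c => by
    rw [NF.actF_apply, NF.actF_apply, ← G.map_comp, ← G.map_comp]
    exact congrArg _ (Subtype.ext (LinearMap.ext (hg c)))

/-- `M[V]` as an `F`-object -/
abbrev MF (d : Fam R) (V : FXV k F) : FO k R F := (MN d).onF V
/-- `Y[V]` as an `F`-object -/
abbrev YF [FiniteDimensional k R] (d : Fam R) (V : FXV k F) : FO k R F := (YN d).onF V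

variable (k) in
/-- `F` with `x` acting as `y` -/
abbrev one (y : F) : FXV k F where
  V := ⟨F, LinearMap.mulLeft k y⟩
  act := Algebra.lmul k F
  comm a := LinearMap.ext fun z => by simp [mul_left_comm]

/-- the ring `F[x]/(q)` -/
abbrev QT (q : F[X]) : Type u := F[X] ⧸ Ideal.span {q}
/-- the class of a polynomial -/
abbrev Qmk (q : F[X]) : F[X] →+* QT q := Ideal.Quotient.mk _

variable (k) in
/-- the cyclic module `F[x]/(q)` -/
abbrev Jq (q : F[X]) : FXV k F where
  V := ⟨QT q, LinearMap.mulLeft k (Qmk q X)⟩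
  act := (Algebra.lmul k (QT q)).comp (IsScalarTower.toAlgHom k F (QT q))
  comm a := LinearMap.ext fun z => by simp [mul_left_comm]

/-- the top coefficient of the remainder modulo a monic polynomial -/
def lamQ {q : F[X]} (hq : q.Monic) : QT q →ₗ[F] F :=
  lcoeff F (q.natDegree - 1) ∘ₗ AdjoinRoot.modByMonicHom hq
theorem lamQ_mk {q : F[X]} (hq : q.Monic) (p : F[X]) :
    lamQ hq (Qmk q p) = (p %ₘ q).coeff (q.natDegree - 1) := rfl

/-- the ring `F[x]/(x-y)^n` -/
abbrev JT (y : F) (n : ℕ) : Type u := QT ((X - C y) ^ n)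
/-- the class of a polynomial -/
abbrev Jmk (y : F) (n : ℕ) : F[X] →+* JT y n := Qmk _
theorem Jmonic (y : F) (n : ℕ) : ((X - C y) ^ n).Monic := (monic_X_sub_C y).pow n

variable (k) in
/-- the Jordan block `J_n(y)` -/
abbrev J (y : F) (n : ℕ) : FXV k F := Jq k ((X - C y) ^ n)

variable (k) in
/-- multiplication by `c` between quotient rings -/
def qmul {A : Type u} [CommRing A] [Algebra k A] (N N' : Ideal A) (c : A)
    (h : ∀ a ∈ N, c * a ∈ N') : (A ⧸ N) →ₗ[k] (A ⧸ N') :=
  (Submodule.mapQ N N' (LinearMap.mulLeft A c) h).restrictScalars k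
theorem qmul_mk {A : Type u} [CommRing A] [Algebra k A] (N N' : Ideal A) (c : A)
    (h : ∀ a ∈ N, c * a ∈ N') (a : A) :
    qmul k N N' c h (Ideal.Quotient.mk N a) = Ideal.Quotient.mk N' (c * a) := rfl

variable (k) in
/-- multiplication by `π^(m-n)` -/
def jmL (y : F) (n m : ℕ) : JT y n →ₗ[k] JT y m :=
  qmul k _ _ ((X - C y) ^ (m - n)) (fun a ha => by
    rw [Ideal.mem_span_singleton] at ha ⊢
    refine dvd_trans ?_ (mul_dvd_mul_left _ ha)
    rw [← pow_add]
    exact pow_dvd_pow _ (by omega))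
theorem jmL_mk (y : F) (n m : ℕ) (p : F[X]) :
    jmL k y n m (Jmk y n p) = Jmk y m ((X - C y) ^ (m - n) * p) := qmul_mk _ _ _ _ _

variable (k) in
/-- `J_n → J_m`, multiplication by `π^(m-n)`: the inclusion for `n ≤ m`, the quotient map for
`m ≤ n` -/
def jm (y : F) (n m : ℕ) : XH (J k y n).V (J k y m).V :=
  ⟨jmL k y n m, by
    refine LinearMap.ext fun z => ?_
    obtain ⟨p, rfl⟩ := Ideal.Quotient.mk_surjective z
    change jmL k y n m (Jmk y n X * Jmk y n p) = Jmk y m X * jmL k y n m (Jmk y n p)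
    rw [← map_mul, jmL_mk, jmL_mk, ← map_mul, mul_left_comm]⟩
theorem jm_mk (y : F) (n m : ℕ) (p : F[X]) :
    (jm k y n m).1 (Jmk y n p) = Jmk y m ((X - C y) ^ (m - n) * p) := jmL_mk _ _ _ _

variable (k) in
/-- multiplication by a polynomial on `F[x]/(q)` -/
def jmul (q p : F[X]) : XH (Jq k q).V (Jq k q).V :=
  ⟨LinearMap.mulLeft k (Qmk q p), LinearMap.ext fun z => by simp [mul_left_comm]⟩

/-- the functor `V ↦ Q ⊗ V` -/
def TenN (Q : Md k R) : NF k R where
  obj V := ⟨Q ⊗[k] V⟩
  map := AlgebraTensorModule.lTensor R Q ∘ₗ Submodule.subtype _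
  map_id V := AlgebraTensorModule.ext fun _ _ => rfl
  map_comp g f := AlgebraTensorModule.ext fun _ _ => rfl
/-- the functor `Q ↦ Q ⊗ V` -/
def TenA (V : Type u) [AddCommGroup V] [Module k V] : AFun k R where
  obj Q := ⟨Q ⊗[k] V⟩
  map :=
    { toFun := fun g => AlgebraTensorModule.map g LinearMap.id
      map_add' := fun g g' => AlgebraTensorModule.ext fun _ _ => by simp [add_tmul]
      map_smul' := fun c g => AlgebraTensorModule.ext fun _ _ => by simp [smul_tmul'] }
  map_id V := AlgebraTensorModule.ext fun _ _ => rfl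
  map_comp g f := AlgebraTensorModule.ext fun _ _ => rfl
variable (F) in
/-- the constant object `Q ⊗ F` -/
abbrev TenF (Q : Md k R) : FO k R F := (TenN Q).onF (one k (0 : F))

/-- the functor `T ↦ R ⊗ T` -/
def PA : AFun k R where
  obj T := P R T
  map :=
    { toFun := fun g => Pmap (g.restrictScalars k)
      map_add' := fun g g' => by rw [LinearMap.restrictScalars_add, Pmap_add]
      map_smul' := fun c g => Pmap_smul c (g.restrictScalars k) }
  map_id _ := Pmap_id
  map_comp g f := Pmap_comp (g.restrictScalars k) (f.restrictScalars k)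
/-- the functor `T ↦ Hom_k(R,T)` -/
def IA : AFun k R where
  obj T := I R T
  map :=
    { toFun := fun g => Imap (g.restrictScalars k)
      map_add' := fun _ _ => rfl
      map_smul' := fun _ _ => rfl }
  map_id _ := rfl
  map_comp _ _ := rfl
/-- the projective cover map -/
def pP (T : Md k R) : PA.obj T →ₗ[R] T := Pmul k R T
/-- the injective hull map -/
def iI (T : Md k R) : T →ₗ[R] IA.obj T := Ilift (LinearMap.id : T →ₗ[k] T)
/-- the functor `V ↦ (R ⊗ V) × Hom_k(R,V)` -/
def T0N : NF k R where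
  obj V := ⟨(R ⊗[k] V) × CoInd k R V⟩
  map :=
    { toFun := fun g => (Pmap g.1).prodMap (Imap g.1)
      map_add' := fun g g' => by
        rw [Submodule.coe_add, Pmap_add, Imap_add, LinearMap.prodMap_add]
      map_smul' := fun c g => by
        rw [Submodule.coe_smul, Pmap_smul, Imap_smul, LinearMap.prodMap_smul]; rfl }
  map_id _ := by rw [LinearMap.coe_mk, AddHom.coe_mk, XH.id_val, Pmap_id, Imap_id]; rfl
  map_comp g f := by
    simp only [LinearMap.coe_mk, AddHom.coe_mk, XH.comp_val, Pmap_comp, Imap_comp]; rfl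
variable (k R F) in
/-- `(R ⊗ F) × Hom_k(R,F)` -/
abbrev T0F : FO k R F := T0N.onF (one k (0 : F))
variable (k R) in
/-- `R × DR` -/
abbrev T0 : Md k R := (T0F k R k).X

/-- maps factoring through a projective -/
def P0 (A B : FO k R F) : Submodule F (A.X →ₗ[R] B.X) where
  carrier := {f | ∃ g ∈ HomF A (PA.onF B), f = pP B.X ∘ₗ g}
  add_mem' := by
    rintro _ _ ⟨g, hg, rfl⟩ ⟨g', hg', rfl⟩
    exact ⟨g + g', add_mem hg hg', (LinearMap.comp_add _ _ _).symm⟩
  zero_mem' := ⟨0, zero_mem _, by simp⟩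
  smul_mem' := by
    rintro c _ ⟨g, hg, rfl⟩
    refine ⟨g ∘ₗ A.act c, HomF.comp hg (HomF.act A c), LinearMap.ext fun t => ?_⟩
    have e : Pmul k R B.X ∘ₗ Pmap ((B.act c).restrictScalars k) = B.act c ∘ₗ Pmul k R B.X :=
      P_ext fun v => by simp
    exact ((congrArg (pP B.X) (hg c t)).trans (LinearMap.congr_fun e _)).symm
/-- maps factoring through an injective -/
def I0 (A B : FO k R F) : Submodule F (A.X →ₗ[R] B.X) where
  carrier := {f | ∃ g ∈ HomF (IA.onF A) B, f = g ∘ₗ iI A.X}
  add_mem' := by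
    rintro _ _ ⟨g, hg, rfl⟩ ⟨g', hg', rfl⟩
    exact ⟨g + g', add_mem hg hg', (LinearMap.add_comp _ _ _).symm⟩
  zero_mem' := ⟨0, zero_mem _, by simp⟩
  smul_mem' := by
    rintro c _ ⟨g, hg, rfl⟩
    exact ⟨c • g, Submodule.smul_mem _ c hg, rfl⟩

/-- finite product -/
abbrev FO.pi {ι : Type} (A : ι → FO k R F) : FO k R F where
  X := Md.pi fun i => (A i).X
  act := Algebra.lsmul k R (∀ i, (A i).X)
/-- binary product -/
abbrev FO.prod (A B : FO k R F) : FO k R F where
  X := A.X.prod B.X
  act := Algebra.lsmul k R (A.X × B.X)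
/-- the action on a stable submodule -/
def FO.subAct (A : FO k R F) (S : Submodule R A.X) (hS : ∀ (a : F), ∀ t ∈ S, a • t ∈ S) :
    F →ₐ[k] Module.End R S where
  toFun a := (A.act a).restrict (hS a)
  map_one' := by ext; simp
  map_mul' a b := by ext; simp
  map_zero' := by ext; simp
  map_add' a b := by ext; simp
  commutes' c := by ext; simp [Algebra.algebraMap_eq_smul_one]
/-- subobject -/
abbrev FO.sub (A : FO k R F) (S : Submodule R A.X) (hS : ∀ (a : F), ∀ t ∈ S, a • t ∈ S) :
    FO k R F := ⟨A.X.sub S, A.subAct S hS⟩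
/-- the action on the quotient by a stable submodule -/
def FO.quoAct (A : FO k R F) (S : Submodule R A.X) (hS : ∀ (a : F), ∀ t ∈ S, a • t ∈ S) :
    F →ₐ[k] Module.End R (A.X ⧸ S) where
  toFun a := S.mapQ S (A.act a) (hS a)
  map_one' := by ext; simp
  map_mul' a b := by ext; simp
  map_zero' := by ext; simp
  map_add' a b := by ext; simp
  commutes' c := by ext; simp [Algebra.algebraMap_eq_smul_one]
/-- quotient object -/
abbrev FO.quo (A : FO k R F) (S : Submodule R A.X) (hS : ∀ (a : F), ∀ t ∈ S, a • t ∈ S) :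
    FO k R F := ⟨A.X.quo S, A.quoAct S hS⟩
/-- twist of the `F`-action; `σ y` acts on the twist as `y` acts on `A` -/
def FO.tw (A : FO k R F) (σ : F ≃ₐ[k] F) : FO k R F := ⟨A.X, A.act.comp σ.symm.toAlgHom⟩

/-- isomorphic `F`-objects -/
def IsoF (A B : FO k R F) : Prop := ∃ f ∈ HomF A B, Function.Bijective f
/-- `A` is a direct summand of `B` -/
def Smd (A B : FO k R F) : Prop :=
  ∃ i ∈ HomF A B, ∃ p ∈ HomF B A, p ∘ₗ i = LinearMap.id
/-- `A` is the direct sum of the `T i` -/
def Decomp {ι : Type} [Fintype ι] (A : FO k R F) (T : ι → FO k R F) : Prop :=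
  ∃ (i : ∀ v, (T v).X →ₗ[R] A.X) (p : ∀ v, A.X →ₗ[R] (T v).X),
    (∀ v, i v ∈ HomF (T v) A) ∧ (∀ v, p v ∈ HomF A (T v)) ∧ (∀ v, p v ∘ₗ i v = LinearMap.id) ∧
    (∀ v w, v ≠ w → p w ∘ₗ i v = 0) ∧ ∑ v, i v ∘ₗ p v = LinearMap.id
/-- nonzero with local endomorphism ring, in Fitting form -/
def Loc (A : FO k R F) : Prop :=
  Nontrivial A.X ∧ ∀ u ∈ HomF A A, IsNilpotent u ∨ Function.Bijective u
/-- constant objects -/
def Const (A : FO k R F) : Prop := ∃ Q : Md k R, Q.fd ∧ IsoF A (TenF F Q)
/-- maps factoring through a constant object -/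
def Cst (A B : FO k R F) (f : A.X →ₗ[R] B.X) : Prop :=
  ∃ Q : Md k R, Q.fd ∧ ∃ a ∈ HomF A (TenF F Q), ∃ b ∈ HomF (TenF F Q) B, f = b ∘ₗ a

section dual
variable {S : Type u} [Ring S] [Algebra k S]
/-- carrier of the `F`-dual -/
def DT (_σ : Anti k R S) (A : FO k R F) : Type u := A.X →ₗ[F] F
variable (σ : Anti k R S) (A : FO k R F)
instance : AddCommGroup (DT σ A) := inferInstanceAs (AddCommGroup (A.X →ₗ[F] F))
instance : Module k (DT σ A) := inferInstanceAs (Module k (A.X →ₗ[F] F))
instance : FunLike (DT σ A) A.X F := inferInstanceAs (FunLike (A.X →ₗ[F] F) A.X F)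
instance : LinearMapClass (DT σ A) F A.X F :=
  inferInstanceAs (LinearMapClass (A.X →ₗ[F] F) F A.X F)
variable {σ A}
@[ext] theorem DT.ext {h h' : DT σ A} (e : ∀ s, h s = h' s) : h = h' := LinearMap.ext e
variable (σ) in
/-- a functional as an element of `DT` -/
def DT.of (h : A.X →ₗ[F] F) : DT σ A := h
/-- the underlying functional -/
def DT.lin (h : DT σ A) : A.X →ₗ[F] F := h
@[simp] theorem DT.of_apply (h : A.X →ₗ[F] F) (t : A.X) : DT.of σ h t = h t := rfl
@[simp] theorem DT.lin_apply (h : DT σ A) (t : A.X) : h.lin t = h t := rfl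
@[simp] theorem DT.add_apply (h h' : DT σ A) (t : A.X) : (h + h') t = h t + h' t := rfl
@[simp] theorem DT.sub_apply (h h' : DT σ A) (t : A.X) : (h - h') t = h t - h' t := rfl
@[simp] theorem DT.zero_apply (t : A.X) : (0 : DT σ A) t = 0 := rfl
@[simp] theorem DT.ksmul_apply (c : k) (h : DT σ A) (t : A.X) : (c • h) t = c • h t := rfl
instance : SMul S (DT σ A) :=
  ⟨fun s h => DT.of σ (h.lin ∘ₗ DistribSMul.toLinearMap F A.X (σ.e.symm s))⟩
@[simp] theorem DT.smul_apply (s : S) (h : DT σ A) (t : A.X) :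
    (s • h) t = h (σ.e.symm s • t) := rfl
instance : Module S (DT σ A) where
  one_smul h := by ext t; rw [DT.smul_apply, show σ.e.symm 1 = 1 from σ.symm.map_one, one_smul]
  mul_smul r r' h := by
    ext t
    rw [DT.smul_apply, DT.smul_apply, DT.smul_apply,
      show σ.e.symm (r * r') = σ.e.symm r' * σ.e.symm r from σ.symm.map_mul r r', mul_smul]
  smul_zero r := by ext t; simp
  smul_add r h h' := by ext t; simp
  add_smul r r' h := by ext t; simp [add_smul]
  zero_smul h := by ext t; simp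
instance : IsScalarTower k S (DT σ A) := ⟨fun c r h => by
  ext t
  rw [DT.smul_apply, DT.ksmul_apply, DT.smul_apply, LinearEquiv.map_smul, smul_assoc]
  exact h.lin.map_smul_of_tower c _⟩
variable (σ A)
/-- the `F`-action on the dual -/
def DT.act : F →ₐ[k] Module.End S (DT σ A) where
  toFun a :=
    { toFun := fun h => DT.of σ (a • h.lin)
      map_add' := fun h h' => by ext t; simp [mul_add]
      map_smul' := fun s h => by ext t; simp }
  map_one' := by ext h t; simp
  map_mul' a b := by ext h t; simp [mul_assoc]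
  map_zero' := by ext h t; simp
  map_add' a b := by ext h t; simp [add_mul]
  commutes' c := by ext h t; simp [Algebra.smul_def]
@[simp] theorem DT.act_apply (a : F) (h : DT σ A) (t : A.X) : DT.act σ A a h t = a * h t := rfl
/-- the `F`-dual of an `F`-object -/
abbrev DF : FO k S F := ⟨⟨DT σ A⟩, DT.act σ A⟩
variable {A}
/-- the dual of a map -/
def Dmap {B : FO k R F} {f : A.X →ₗ[R] B.X} (hf : f ∈ HomF A B) : DT σ B →ₗ[S] DT σ A where
  toFun h := DT.of σ (h.lin ∘ₗ HomF.lin hf)
  map_add' h h' := by ext t; simp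
  map_smul' s h := by ext t; simp
@[simp] theorem Dmap_apply {B : FO k R F} {f : A.X →ₗ[R] B.X} (hf : f ∈ HomF A B) (h : DT σ B)
    (t : A.X) : Dmap σ hf h t = h (f t) := rfl
theorem Dmap_mem {B : FO k R F} {f : A.X →ₗ[R] B.X} (hf : f ∈ HomF A B) :
    Dmap σ hf ∈ HomF (DF σ B) (DF σ A) := fun _ _ => rfl
end dual

/-- the `F`-action on `EE` -/
def EAct (d : Fam R) (A : FO k R F) : F →+* Module.End k (EE d A.X) where
  toFun a := Emap d (A.act a)
  map_one' := by rw [map_one]; exact Emap_id _ _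
  map_mul' a b := by rw [map_mul]; exact Emap_comp _ _ _
  map_zero' := by simp
  map_add' a b := by simp
instance (priority := 100) EE.moduleF (d : Fam R) (A : FO k R F) : Module F (EE d A.X) :=
  Module.compHom _ (EAct d A)
theorem EE.smul_def (d : Fam R) (A : FO k R F) (a : F) (t : EE d A.X) :
    a • t = Emap d (A.act a) t := rfl
/-- `x` as an `F`-linear operator on `EE` -/
def EXF (d : Fam R) (A : FO k R F) : Module.End F (EE d A.X) where
  toFun := EX d A.X
  map_add' := map_add _
  map_smul' a t := (Emap_EX d (A.act a) t).symm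
@[simp] theorem EXF_apply (d : Fam R) (A : FO k R F) (t : EE d A.X) :
    EXF d A t = EX d A.X t := rfl
/-- the operator `g(x)` on `EE`, `g ∈ F[x]` -/
def polE (d : Fam R) (A : FO k R F) (g : F[X]) : Module.End F (EE d A.X) := aeval (EXF d A) g
/-- the operator `x - y` on `EE` -/
def piE (d : Fam R) (A : FO k R F) (y : F) : Module.End k (EE d A.X) :=
  EX d A.X - Emap d (A.act y)
/-- the operator `x - p` on `EE`, `p ∈ k` -/
def piK (d : Fam R) (p : k) (T : Md k R) : Module.End k (EE d T) := EX d T - p • 1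

/-- the element `e(n)` -/
def eJ (d : Fam R) (y : F) (n : ℕ) : EE d (M d (J k y n).V) :=
  Bock d (J k y n).V LinearMap.id (1 : JT y n)

/-- `a : M[F[x]/(q)] → A` is the restriction of the polynomial vector `z` -/
def IsRes (d : Fam R) {q : F[X]} (hq : q.Monic) (A : FO k R F) (a : M d (Jq k q).V →ₗ[R] A.X)
    (z : Fin d.n0 → ℕ →₀ A.X) : Prop :=
  ∀ b (v : QT q), a (gen d (Jq k q).V b v) = (z b).sum fun l t => lamQ hq (Qmk q (X ^ l) * v) • t

section
variable [FiniteDimensional k R]
/-- `A` and `T^+ A` are isomorphic modulo maps through injectives -/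
def Theta (A : FO k R F) : Prop :=
  ∃ a ∈ HomF A (Tp.onF A), ∃ b ∈ HomF (Tp.onF A) A,
    b ∘ₗ a - LinearMap.id ∈ I0 A A ∧ a ∘ₗ b - LinearMap.id ∈ I0 (Tp.onF A) (Tp.onF A)
/-- the ideal `[Q^e]` -/
def QQ (e : Bool) (A B : FO k R F) : Submodule F (A.X →ₗ[R] B.X) :=
  Submodule.span F {f | ∃ i : ℕ, ∃ a ∈ HomF A ((Tn e i).onF (T0F k R F)),
    ∃ b ∈ HomF ((Tn e i).onF (T0F k R F)) B, f = b ∘ₗ a}
end

end
end Pool.Agent.P.MP_cf639b_al
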