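import Pool.Agent.P.MP_cf639b_al.Base

/-! One-parameter families, the modules `M[V]`, `Y[V]`, the `k[x]`-module `EE T`,
the Bockstein map and the map `b ↦ b^`. -/

set_option linter.dupNamespace false

namespace Pool.Agent.P.MP_cf639b_al

universe u
open TensorProduct Polynomial

noncomputable section

variable {k : Type u} [Field k] {R : Type u} [Ring R] [Algebra k R]

/-- a `k[x]`-module: a vector space with an operator -/
structure XV (k : Type u) [Field k] where
  T : Type u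
  [ag : AddCommGroup T]
  [mk' : Module k T]
  x : Module.End k T

attribute [instance] XV.ag XV.mk'

instance : CoeSort (XV k) (Type u) := ⟨XV.T⟩

/-- `k[x]`-linear maps -/
def XH (V V' : XV k) : Submodule k (V →ₗ[k] V') where
  carrier := {g | g ∘ₗ V.x = V'.x ∘ₗ g}
  add_mem' {a b} ha hb := by
    simp only [Set.mem_setOf_eq] at *
    rw [LinearMap.add_comp, LinearMap.comp_add, ha, hb]
  zero_mem' := by simp
  smul_mem' c a ha := by
    simp only [Set.mem_setOf_eq] at *
    rw [LinearMap.smul_comp, LinearMap.comp_smul, ha]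

theorem mem_XH {V V' : XV k} {g : V →ₗ[k] V'} : g ∈ XH V V' ↔ g ∘ₗ V.x = V'.x ∘ₗ g := Iff.rfl
theorem XH.comm {V V' : XV k} (g : XH V V') (v : V) : g.1 (V.x v) = V'.x (g.1 v) :=
  LinearMap.congr_fun g.2 v
theorem XH.comm_pow {V V' : XV k} (g : XH V V') (i : ℕ) (v : V) :
    g.1 ((V.x ^ i) v) = (V'.x ^ i) (g.1 v) := by
  induction i with
  | zero => simp
  | succ n ih => rw [pow_succ', pow_succ', Module.End.mul_apply, Module.End.mul_apply, XH.comm, ih]
/-- identity -/
def XH.id (V : XV k) : XH V V := ⟨LinearMap.id, rfl⟩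
/-- composition -/
def XH.comp {V V' V'' : XV k} (g : XH V' V'') (f : XH V V') : XH V V'' :=
  ⟨g.1 ∘ₗ f.1, LinearMap.ext fun v => by simp [XH.comm]⟩
/-- a polynomial in `x` -/
def XH.pol (V : XV k) (h : k[X]) : XH V V :=
  ⟨aeval V.x h, by
    change aeval V.x h * V.x = V.x * aeval V.x h
    have e : V.x = aeval V.x (X : k[X]) := (aeval_X _).symm
    nth_rw 2 3 [e]
    rw [← map_mul, ← map_mul, mul_comm]⟩
@[simp] theorem XH.id_val (V : XV k) : (XH.id V).1 = LinearMap.id := rfl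
@[simp] theorem XH.comp_val {V V' V'' : XV k} (g : XH V' V'') (f : XH V V') :
    (XH.comp g f).1 = g.1 ∘ₗ f.1 := rfl
@[simp] theorem XH.pol_val (V : XV k) (h : k[X]) : (XH.pol V h).1 = aeval V.x h := rfl

/-- a `k`-linear functor from `k[x]`-modules to `R`-modules -/
structure NF (k : Type u) [Field k] (R : Type u) [Ring R] [Algebra k R] where
  obj : XV k → Md k R
  map : ∀ {V V' : XV k}, XH V V' →ₗ[k] (obj V →ₗ[R] obj V')
  map_id : ∀ V : XV k, map (XH.id V) = LinearMap.id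
  map_comp : ∀ {V V' V'' : XV k} (g : XH V' V'') (f : XH V V'),
    map (XH.comp g f) = map g ∘ₗ map f

/-- postcomposition with an endofunctor -/
abbrev NF.post (G : NF k R) (Φ : AFun k R) : NF k R where
  obj V := Φ.obj (G.obj V)
  map := Φ.map ∘ₗ G.map
  map_id A := by simp [G.map_id, Φ.map_id]
  map_comp g f := by simp [G.map_comp, Φ.map_comp]

/-- natural transformations -/
structure NT (G H : NF k R) where
  app : ∀ V : XV k, G.obj V →ₗ[R] H.obj V
  nat : ∀ {V V' : XV k} (g : XH V V'), H.map g ∘ₗ app V = app V' ∘ₗ G.map g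

/-- `G` is isogenous to `V ↦ V^n` -/
def IsAF (G : NF k R) : Prop :=
  ∃ (n : ℕ) (h : k[X]) (i : ∀ V : XV k, (Fin n → V) →ₗ[k] G.obj V)
    (j : ∀ V : XV k, G.obj V →ₗ[k] (Fin n → V)), h ≠ 0 ∧
    (∀ (V V' : XV k) (g : XH V V') (v : Fin n → V), G.map g (i V v) = i V' fun a => g.1 (v a)) ∧
    (∀ (V V' : XV k) (g : XH V V') (z : G.obj V), j V' (G.map g z) = fun a => g.1 (j V z a)) ∧
    (∀ (V : XV k) (z : G.obj V), i V (j V z) = G.map (XH.pol V h) z) ∧
    (∀ (V : XV k) (v : Fin n → V), j V (i V v) = fun a => aeval V.x h (v a))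

/-- a family: an `n1 × n0` matrix over `R[x]` of degree at most `r` -/
structure Fam (R : Type u) where
  n0 : ℕ
  n1 : ℕ
  r : ℕ
  c : ℕ → Matrix (Fin n1) (Fin n0) R

/-- the reversed family `x^r d(1/x)` -/
abbrev Fam.rev (d : Fam R) : Fam R := ⟨d.n0, d.n1, d.r, fun i => d.c (d.r - i)⟩

/-- an anti-isomorphism of algebras -/
structure Anti (k : Type u) [Field k] (R : Type u) [Ring R] [Algebra k R]
    (S : Type u) [Ring S] [Algebra k S] where
  e : R ≃ₗ[k] S
  map_one : e 1 = 1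
  map_mul : ∀ a b, e (a * b) = e b * e a

/-- the inverse anti-isomorphism -/
def Anti.symm {S : Type u} [Ring S] [Algebra k S] (σ : Anti k R S) : Anti k S R where
  e := σ.e.symm
  map_one := by rw [← σ.map_one, LinearEquiv.symm_apply_apply]
  map_mul a b := σ.e.injective (by simp [σ.map_mul])

variable (k R) in
/-- the anti-isomorphism to the opposite algebra -/
def Anti.op : Anti k R Rᵐᵒᵖ where
  e := MulOpposite.opLinearEquiv k
  map_one := rfl
  map_mul _ _ := rfl

/-- the transposed family -/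
abbrev Fam.op {S : Type u} [Ring S] [Algebra k S] (σ : Anti k R S) (d : Fam R) : Fam S :=
  ⟨d.n1, d.n0, d.r, fun i a b => σ.e (d.c i b a)⟩

section
variable {T T' : Type u} [AddCommGroup T] [Module k T] [Module R T] [IsScalarTower k R T]
  [AddCommGroup T'] [Module k T'] [Module R T'] [IsScalarTower k R T']

variable (k) in
/-- the operator `D` on a module with an operator `x` -/
def Dop (d : Fam R) (x : Module.End R T) : (Fin d.n0 → T) →ₗ[k] (Fin d.n1 → T) where
  toFun z a := ∑ i ∈ Finset.range (d.r + 1), ∑ b, d.c i a b • (x ^ i) (z b)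
  map_add' z z' := by ext a; simp [Finset.sum_add_distrib]
  map_smul' c z := by ext a; simp [Finset.smul_sum, smul_comm c]
theorem Dop_apply (d : Fam R) (x : Module.End R T) (z : Fin d.n0 → T) (a : Fin d.n1) :
    Dop k d x z a = ∑ i ∈ Finset.range (d.r + 1), ∑ b, d.c i a b • (x ^ i) (z b) := rfl

theorem Dop_nat (d : Fam R) (x : Module.End R T) (x' : Module.End R T') (g : T →ₗ[R] T')
    (hg : g ∘ₗ x = x' ∘ₗ g) (z : Fin d.n0 → T) :
    Dop k d x' (fun b => g (z b)) = fun a => g (Dop k d x z a) := by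
  have h : ∀ (i : ℕ) (t : T), (x' ^ i) (g t) = g ((x ^ i) t) := by
    intro i t
    induction i with
    | zero => simp
    | succ n ih =>
      rw [pow_succ', pow_succ', Module.End.mul_apply, Module.End.mul_apply, ih]
      exact (LinearMap.congr_fun hg _).symm
  ext a
  simp [Dop_apply, h]

variable (R T) in
/-- multiplication by `x` on `T[x]` -/
def shift : Module.End R (ℕ →₀ T) := Finsupp.lmapDomain T R Nat.succ
@[simp] theorem shift_single (l : ℕ) (t : T) :
    shift R T (Finsupp.single l t) = Finsupp.single (l + 1) t := by simp [shift]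
@[simp] theorem shift_pow_single (i l : ℕ) (t : T) :
    (shift R T ^ i) (Finsupp.single l t) = Finsupp.single (l + i) t := by
  induction i with
  | zero => simp
  | succ n ih => rw [pow_succ', Module.End.mul_apply, ih, shift_single, add_assoc]
theorem mapRange_shift (g : T →ₗ[R] T') :
    Finsupp.mapRange.linearMap g ∘ₗ shift R T = shift R T' ∘ₗ Finsupp.mapRange.linearMap g := by
  ext l t : 2
  simp
end

/-- `D` on `T[x]` -/
abbrev DX (d : Fam R) (T : Md k R) : (Fin d.n0 → ℕ →₀ T) →ₗ[k] (Fin d.n1 → ℕ →₀ T) :=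
  Dop k d (shift R T)

/-- the cokernel of `D` on `T[x]` -/
def EE (d : Fam R) (T : Md k R) : Type u := (Fin d.n1 → ℕ →₀ T) ⧸ LinearMap.range (DX d T)

instance (d : Fam R) (T : Md k R) : AddCommGroup (EE d T) :=
  inferInstanceAs (AddCommGroup ((Fin d.n1 → ℕ →₀ T) ⧸ LinearMap.range (DX d T)))
instance (d : Fam R) (T : Md k R) : Module k (EE d T) :=
  inferInstanceAs (Module k ((Fin d.n1 → ℕ →₀ T) ⧸ LinearMap.range (DX d T)))

/-- the class of an element -/
def Emk (d : Fam R) (T : Md k R) : (Fin d.n1 → ℕ →₀ T) →ₗ[k] EE d T := Submodule.mkQ _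
theorem Emk_surj (d : Fam R) (T : Md k R) : Function.Surjective (Emk d T) :=
  Submodule.mkQ_surjective _
theorem Emk_eq_zero {d : Fam R} {T : Md k R} {z : Fin d.n1 → ℕ →₀ T} :
    Emk d T z = 0 ↔ ∃ w, DX d T w = z := Submodule.Quotient.mk_eq_zero _
theorem E_ext {d : Fam R} {T : Md k R} {W : Type u} [AddCommGroup W] [Module k W]
    {f g : EE d T →ₗ[k] W} (h : ∀ z, f (Emk d T z) = g (Emk d T z)) : f = g :=
  Submodule.linearMap_qext _ (LinearMap.ext h)

/-- the map on `EE` induced by an `R`-linear map `T[x] → T'[x]` commuting with `x` -/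
def Eind (d : Fam R) {T T' : Md k R} (g : (ℕ →₀ T) →ₗ[R] (ℕ →₀ T'))
    (hg : g ∘ₗ shift R T = shift R T' ∘ₗ g) : EE d T →ₗ[k] EE d T' :=
  Submodule.mapQ _ _ (LinearMap.compLeft (g.restrictScalars k) _) (by
    rintro _ ⟨w, rfl⟩
    exact ⟨fun b => g (w b), Dop_nat d _ _ g hg w⟩)
theorem Eind_mk (d : Fam R) {T T' : Md k R} (g : (ℕ →₀ T) →ₗ[R] (ℕ →₀ T'))
    (hg : g ∘ₗ shift R T = shift R T' ∘ₗ g) (z : Fin d.n1 → ℕ →₀ T) :
    Eind d g hg (Emk d T z) = Emk d T' fun a => g (z a) := rfl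

/-- multiplication by `x` on `EE` -/
def EX (d : Fam R) (T : Md k R) : Module.End k (EE d T) := Eind d (shift R T) rfl
theorem EX_mk (d : Fam R) (T : Md k R) (z : Fin d.n1 → ℕ →₀ T) :
    EX d T (Emk d T z) = Emk d T fun a => shift R T (z a) := rfl

/-- functoriality of `EE` -/
def Emap (d : Fam R) {T T' : Md k R} : (T →ₗ[R] T') →ₗ[k] (EE d T →ₗ[k] EE d T') where
  toFun g := Eind d (Finsupp.mapRange.linearMap g) (mapRange_shift g)
  map_add' g g' := E_ext fun z => by
    rw [LinearMap.add_apply, Eind_mk, Eind_mk, Eind_mk, ← map_add]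
    congr 1; ext a l; simp
  map_smul' c g := E_ext fun z => by
    rw [LinearMap.smul_apply, Eind_mk, Eind_mk, ← map_smul]
    congr 1; ext a l; simp
theorem Emap_mk (d : Fam R) {T T' : Md k R} (g : T →ₗ[R] T') (z : Fin d.n1 → ℕ →₀ T) :
    Emap d g (Emk d T z) = Emk d T' fun a => Finsupp.mapRange.linearMap g (z a) := rfl
theorem Emap_id (d : Fam R) (T : Md k R) :
    Emap d (LinearMap.id : T →ₗ[R] T) = LinearMap.id := E_ext fun z => by
  rw [Emap_mk]
  exact congrArg (Emk d T) (funext fun a => by simp)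
theorem Emap_comp (d : Fam R) {T T' T'' : Md k R} (g : T' →ₗ[R] T'') (f : T →ₗ[R] T') :
    Emap d (g ∘ₗ f) = Emap d g ∘ₗ Emap d f := E_ext fun z => by
  rw [LinearMap.comp_apply, Emap_mk, Emap_mk, Emap_mk]; congr 1; ext a l; simp
theorem Emap_EX (d : Fam R) {T T' : Md k R} (g : T →ₗ[R] T') (t : EE d T) :
    Emap d g (EX d T t) = EX d T' (Emap d g t) := by
  obtain ⟨z, rfl⟩ := Emk_surj d T t
  rw [EX_mk, Emap_mk, Emap_mk, EX_mk]
  congr 1
  exact funext fun a => LinearMap.congr_fun (mapRange_shift g) (z a)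

/-- the differential of `X[V]` -/
def Xd (d : Fam R) (V : XV k) : R ⊗[k] (Fin d.n1 → V) →ₗ[R] R ⊗[k] (Fin d.n0 → V) :=
  Plift (∑ p ∈ Finset.range (d.r + 1) ×ˢ (Finset.univ : Finset (Fin d.n1 × Fin d.n0)),
    TensorProduct.mk k R _ (d.c p.1 p.2.1 p.2.2) ∘ₗ LinearMap.single k (fun _ => V) p.2.2 ∘ₗ
      (V.x ^ p.1) ∘ₗ LinearMap.proj p.2.1)
theorem Xd_one_tmul (d : Fam R) (V : XV k) (v : Fin d.n1 → V) :
    Xd d V ((1 : R) ⊗ₜ v) = ∑ i ∈ Finset.range (d.r + 1), ∑ a, ∑ b,
      d.c i a b ⊗ₜ Pi.single b ((V.x ^ i) (v a)) := by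
  simp [Xd, Finset.sum_product, Fintype.sum_prod_type]

/-- the complex `X[V]` -/
abbrev Xo (d : Fam R) (V : XV k) : EO k R := ⟨⟨Fin d.n1 → V⟩, ⟨Fin d.n0 → V⟩, Xd d V⟩

/-- functoriality of `X[V]` -/
def Xmap (d : Fam R) {V V' : XV k} (g : XH V V') : CM (Xo d V) (Xo d V') where
  f1 := Pmap (g.1.compLeft _)
  f0 := Pmap (g.1.compLeft _)
  comm := P_ext fun v => by
    simp only [LinearMap.comp_apply, Pmap_tmul, Xd_one_tmul, map_sum, LinearMap.compLeft_apply,
      Function.comp_apply, ← XH.comm_pow]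
    refine Finset.sum_congr rfl fun i _ => Finset.sum_congr rfl fun a _ =>
      Finset.sum_congr rfl fun b _ => ?_
    congr 1
    ext b'
    by_cases h : b' = b
    · subst h; simp
    · simp [h]

/-- the functor `V ↦ M[V]` -/
def MN (d : Fam R) : NF k R where
  obj V := (Xo d V).H0
  map :=
    { toFun := fun g => (Xmap d g).H0
      map_add' := fun g g' => CM.H0_add _ _ _ (by rw [Xmap, Xmap, Xmap, ← Pmap_add]; rfl)
      map_smul' := fun c g => CM.H0_smul _ _ _ (by rw [Xmap, Xmap, ← Pmap_smul]; rfl) }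
  map_id T := CM.H0_id _ Pmap_id
  map_comp g f := CM.H0_comp _ _ _ (by rw [Xmap, Xmap, Xmap, ← Pmap_comp]; rfl)

/-- the module `M[V]` -/
abbrev M (d : Fam R) (V : XV k) : Md k R := (MN d).obj V

/-- the generators of `M[V]` -/
def gen (d : Fam R) (V : XV k) (b : Fin d.n0) : V →ₗ[k] M d V :=
  (Submodule.mkQ (LinearMap.range (Xd d V))).restrictScalars k ∘ₗ Pin _ ∘ₗ
    LinearMap.single k (fun _ => V) b
theorem map_gen (d : Fam R) {V V' : XV k} (g : XH V V') (b : Fin d.n0) (v : V) :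
    (MN d).map g (gen d V b v) = gen d V' b (g.1 v) := by
  change Submodule.Quotient.mk (Pmap (g.1.compLeft _) ((1 : R) ⊗ₜ Pi.single b v)) =
    Submodule.Quotient.mk ((1 : R) ⊗ₜ Pi.single b (g.1 v))
  rw [Pmap_tmul]
  congr 2
  ext b'
  by_cases h : b' = b
  · subst h; simp
  · simp [h]
theorem M_ext {d : Fam R} {V : XV k} {T : Md k R} {f g : M d V →ₗ[R] T}
    (h : ∀ b v, f (gen d V b v) = g (gen d V b v)) : f = g := by
  refine Submodule.linearMap_qext _ (P_ext fun v => ?_)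
  rw [← Finset.univ_sum_single v, TensorProduct.tmul_sum, map_sum, map_sum]
  exact Finset.sum_congr rfl fun b _ => h b (v b)
theorem gen_rel (d : Fam R) (V : XV k) (a : Fin d.n1) (v : V) :
    ∑ i ∈ Finset.range (d.r + 1), ∑ b, d.c i a b • gen d V b ((V.x ^ i) v) = 0 := by
  have h : (LinearMap.range (Xd d V)).mkQ (Xd d V ((1 : R) ⊗ₜ Pi.single a v)) = 0 := by simp
  rw [Xd_one_tmul, map_sum] at h
  refine Eq.trans (Finset.sum_congr rfl fun i _ => ?_) h
  rw [Finset.sum_eq_single a (fun a' _ ha => by simp [ha]) (by simp), map_sum]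
  refine Finset.sum_congr rfl fun b _ => ?_
  refine ((LinearMap.range (Xd d V)).mkQ.map_smul (d.c i a b)
    ((1 : R) ⊗ₜ Pi.single b ((V.x ^ i) v))).symm.trans ?_
  simp [TensorProduct.smul_tmul']
/-- the map `M[V] → T` given by a solution -/
def Mlift (d : Fam R) (V : XV k) {T : Md k R} (z : Fin d.n0 → V →ₗ[k] T)
    (hz : ∀ a v, ∑ i ∈ Finset.range (d.r + 1), ∑ b, d.c i a b • z b ((V.x ^ i) v) = 0) :
    M d V →ₗ[R] T :=
  Submodule.liftQ (LinearMap.range (Xd d V)) (Plift (∑ b, z b ∘ₗ LinearMap.proj b)) (by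
    rw [LinearMap.range_le_ker_iff]
    refine P_ext fun v => ?_
    simp only [LinearMap.comp_apply, Xd_one_tmul, map_sum, Plift_tmul, LinearMap.zero_apply]
    rw [Finset.sum_comm]
    refine Finset.sum_eq_zero fun a _ => Eq.trans (Finset.sum_congr rfl fun i _ =>
      Finset.sum_congr rfl fun b _ => ?_) (hz a (v a))
    rw [LinearMap.sum_apply, Finset.sum_eq_single b (fun b' _ hb => by simp [hb]) (by simp)]
    simp)
theorem Mlift_gen (d : Fam R) (V : XV k) {T : Md k R} (z : Fin d.n0 → V →ₗ[k] T) (hz)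
    (b : Fin d.n0) (v : V) : Mlift d V z hz (gen d V b v) = z b v := by
  change Plift (∑ b, z b ∘ₗ LinearMap.proj b) ((1 : R) ⊗ₜ Pi.single b v) = _
  rw [Plift_tmul, one_smul, LinearMap.sum_apply,
    Finset.sum_eq_single b (fun b' _ hb => by simp [hb]) (by simp)]
  simp

/-- the Bockstein map of `a : M[V] → T` -/
def Bock (d : Fam R) (V : XV k) {T : Md k R} (a : M d V →ₗ[R] T) : V →ₗ[k] EE d T :=
  Emk d T ∘ₗ LinearMap.pi fun a' => ∑ i ∈ Finset.range (d.r + 1), ∑ l ∈ Finset.range i, ∑ b,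
    Finsupp.lsingle l ∘ₗ DistribSMul.toLinearMap k T (d.c i a' b) ∘ₗ a.restrictScalars k ∘ₗ
      gen d V b ∘ₗ (V.x ^ (i - 1 - l))
theorem Bock_apply (d : Fam R) (V : XV k) {T : Md k R} (a : M d V →ₗ[R] T) (v : V) :
    Bock d V a v = Emk d T fun a' => ∑ i ∈ Finset.range (d.r + 1), ∑ l ∈ Finset.range i, ∑ b,
      Finsupp.single l (d.c i a' b • a (gen d V b ((V.x ^ (i - 1 - l)) v))) := by
  unfold Bock
  rw [LinearMap.comp_apply]
  congr 1
  ext a' : 1
  simp

section
variable [FiniteDimensional k R]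

theorem nu_Xd (d : Fam R) (V : XV k) (h : CoInd k R (Fin d.n1 → V)) (s : R) (b : Fin d.n0) :
    nu (Xd d V) h s b = ∑ i ∈ Finset.range (d.r + 1), ∑ a, (V.x ^ i) (h (d.c i a b * s) a) := by
  rw [nu_apply_of (Finset.range (d.r + 1) ×ˢ (Finset.univ : Finset (Fin d.n1 × Fin d.n0)))
    (fun p => d.c p.1 p.2.1 p.2.2) (fun p => LinearMap.single k (fun _ => V) p.2.2 ∘ₗ
      (V.x ^ p.1) ∘ₗ LinearMap.proj p.2.1) _ (fun v => by simp [Xd])]
  simp only [Finset.sum_product, Fintype.sum_prod_type, Finset.sum_apply, LinearMap.comp_apply,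
    LinearMap.single_apply, LinearMap.proj_apply]
  refine Finset.sum_congr rfl fun i _ => Finset.sum_congr rfl fun a _ => ?_
  rw [Finset.sum_eq_single b (fun b' _ hb => by simp [Ne.symm hb]) (by simp)]
  simp

/-- the functor `V ↦ Y[V]` -/
def YN (d : Fam R) : NF k R where
  obj V := (Xo d V).Tau
  map :=
    { toFun := fun g => (Xmap d g).Tau
      map_add' := fun g g' => CM.Tau_add _ _ _ (by rw [Xmap, Xmap, Xmap, ← Pmap_add]; rfl)
      map_smul' := fun c g => CM.Tau_smul _ _ _ (by rw [Xmap, Xmap, ← Pmap_smul]; rfl) }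
  map_id T := CM.Tau_id _ Pmap_id
  map_comp g f := CM.Tau_comp _ _ _ (by rw [Xmap, Xmap, Xmap, ← Pmap_comp]; rfl)

/-- the module `Y[V]` -/
abbrev Y (d : Fam R) (V : XV k) : Md k R := (YN d).obj V

/-- the cogenerators of `Y[V]` -/
def cog (d : Fam R) (V : XV k) (a : Fin d.n1) : Y d V →ₗ[k] V :=
  LinearMap.proj a ∘ₗ Iev _ ∘ₗ (LinearMap.ker (nu (Xd d V))).subtype.restrictScalars k
theorem cog_map (d : Fam R) {V V' : XV k} (g : XH V V') (a : Fin d.n1) (y : Y d V) :
    cog d V' a ((YN d).map g y) = g.1 (cog d V a y) := by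
  change nu (Pmap (g.1.compLeft _)) y.1 1 a = _
  rw [nu_Pmap]
  rfl
theorem Y_ext {d : Fam R} {V : XV k} {y y' : Y d V}
    (h : ∀ (s : R) a, cog d V a (s • y) = cog d V a (s • y')) : y = y' :=
  Subtype.ext (CoInd.ext fun s => funext fun a => by
    have := h s a
    change y.1 (1 * s) a = y'.1 (1 * s) a at this
    rwa [one_mul] at this)
theorem cog_rel (d : Fam R) (V : XV k) (b : Fin d.n0) (y : Y d V) :
    ∑ i ∈ Finset.range (d.r + 1), ∑ a, (V.x ^ i) (cog d V a (d.c i a b • y)) = 0 := by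
  have h : nu (Xd d V) y.1 1 b = 0 := by rw [LinearMap.mem_ker.mp y.2]; rfl
  rw [nu_Xd] at h
  refine Eq.trans (Finset.sum_congr rfl fun i _ => Finset.sum_congr rfl fun a _ => ?_) h
  change (V.x ^ i) (y.1 (1 * d.c i a b) a) = _
  rw [one_mul, mul_one]
/-- the map `T → Y[V]` given by a cosolution -/
def Ylift (d : Fam R) (V : XV k) {T : Md k R} (z : Fin d.n1 → T →ₗ[k] V)
    (hz : ∀ b t, ∑ i ∈ Finset.range (d.r + 1), ∑ a, (V.x ^ i) (z a (d.c i a b • t)) = 0) :
    T →ₗ[R] Y d V :=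
  LinearMap.codRestrict (LinearMap.ker (nu (Xd d V))) (Ilift (LinearMap.pi z)) (fun t => by
    rw [LinearMap.mem_ker]
    ext s b
    rw [nu_Xd]
    simpa [mul_smul] using hz b (s • t))
theorem cog_Ylift (d : Fam R) (V : XV k) {T : Md k R} (z : Fin d.n1 → T →ₗ[k] V) (hz)
    (a : Fin d.n1) (t : T) : cog d V a (Ylift d V z hz t) = z a t := by
  change z a ((1 : R) • t) = _
  rw [one_smul]

/-- the `k[x]`-linear map `b^ : EE T → V` attached to `b : T → Y[V]` -/
def hat (d : Fam R) (V : XV k) {T : Md k R} (b : T →ₗ[R] Y d V) : EE d T →ₗ[k] V :=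
  Submodule.liftQ _ (∑ a, Finsupp.lsum k (fun l => (V.x ^ l) ∘ₗ cog d V a ∘ₗ b.restrictScalars k)
      ∘ₗ LinearMap.proj a) (by
    rw [LinearMap.range_le_ker_iff]
    refine LinearMap.pi_ext' fun b0 => Finsupp.lhom_ext fun l t => ?_
    have h := congrArg (V.x ^ l) (cog_rel d V b0 (b t))
    rw [map_zero, map_sum, ] at h
    simp only [LinearMap.comp_apply, LinearMap.sum_apply, LinearMap.proj_apply, Dop_apply,
      LinearMap.single_apply, LinearMap.zero_apply, map_sum]
    rw [Finset.sum_comm]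
    refine Eq.trans (Finset.sum_congr rfl fun i _ => ?_) h
    rw [map_sum]
    refine Finset.sum_congr rfl fun a _ => ?_
    rw [Finset.sum_eq_single b0 (fun b' _ hb => by simp [hb]) (by simp)]
    simp [pow_add])
theorem hat_mk (d : Fam R) (V : XV k) {T : Md k R} (b : T →ₗ[R] Y d V)
    (z : Fin d.n1 → ℕ →₀ T) :
    hat d V b (Emk d T z) = ∑ a, (z a).sum fun l t => (V.x ^ l) (cog d V a (b t)) := by
  change (∑ a, Finsupp.lsum k (fun l => (V.x ^ l) ∘ₗ cog d V a ∘ₗ b.restrictScalars k)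
      ∘ₗ LinearMap.proj a) z = _
  simp only [LinearMap.sum_apply, LinearMap.comp_apply, LinearMap.proj_apply, Finsupp.lsum_apply]
  rfl
end

end
end Pool.Agent.P.MP_cf639b_al
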