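import Pool.Agent.P.MP_cf639b_al.Iface

/-! Inner statements for part E. -/

set_option linter.dupNamespace false

namespace Pool.Agent.P.MP_cf639b_al

universe u
open TensorProduct Polynomial Function

noncomputable section

section defs
variable {k : Type u} [Field k] {R : Type u} [Ring R] [Algebra k R]
  {F : Type u} [Field F] [Algebra k F]

/-- the object `M[J_(n+1)(y)]` of a good family -/
abbrev NJ (H : PG k R) (y : F) (n : ℕ) : FO k R F := MF H.d (J k y (n + 1))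

/-- a `σ`-semilinear isomorphism `A → A'` -/
structure TwD (σ : F ≃ₐ[k] F) (A A' : FO k R F) where
  u : A.X →ₗ[R] A'.X
  v : A'.X →ₗ[R] A.X
  hu : u ∈ HomF (A.tw σ) A'
  hv : v ∈ HomF A' (A.tw σ)
  vu : v ∘ₗ u = LinearMap.id
  uv : u ∘ₗ v = LinearMap.id

theorem TwD.hu' {σ : F ≃ₐ[k] F} {A A' : FO k R F} (α : TwD σ A A') (c : F) (t : A.X) :
    α.u (A.act c t) = A'.act (σ c) (α.u t) := by
  have := α.hu (σ c) t
  change α.u (A.act (σ.symm (σ c)) t) = A'.act (σ c) (α.u t) at this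
  rwa [AlgEquiv.symm_apply_apply] at this
theorem TwD.hv' {σ : F ≃ₐ[k] F} {A A' : FO k R F} (α : TwD σ A A') (c : F) (t : A'.X) :
    α.v (A'.act c t) = A.act (σ.symm c) (α.v t) := α.hv c t
theorem TwD.vu_apply {σ : F ≃ₐ[k] F} {A A' : FO k R F} (α : TwD σ A A') (t : A.X) :
    α.v (α.u t) = t := LinearMap.congr_fun α.vu t
theorem TwD.uv_apply {σ : F ≃ₐ[k] F} {A A' : FO k R F} (α : TwD σ A A') (t : A'.X) :
    α.u (α.v t) = t := LinearMap.congr_fun α.uv t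

/-- the inverse semilinear isomorphism -/
def TwD.symm {σ : F ≃ₐ[k] F} {A A' : FO k R F} (α : TwD σ A A') : TwD σ.symm A' A where
  u := α.v
  v := α.u
  hu c t := (α.hv' (σ c) t).trans (by rw [AlgEquiv.symm_apply_apply]; rfl)
  hv c t := α.hu' c t
  vu := α.uv
  uv := α.vu

/-- the identity `A → A.tw σ` -/
def TwD.refl (σ : F ≃ₐ[k] F) (A : FO k R F) : TwD σ A (A.tw σ) where
  u := LinearMap.id
  v := LinearMap.id
  hu := HomF.id _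
  hv := HomF.id _
  vu := rfl
  uv := rfl

theorem TwD.hom {σ : F ≃ₐ[k] F} {A A' B B' : FO k R F} (α : TwD σ A A') (β : TwD σ B B')
    {f : A.X →ₗ[R] B.X} (hf : f ∈ HomF A B) : β.u ∘ₗ f ∘ₗ α.v ∈ HomF A' B' := fun c t => by
  change β.u (f (α.v (A'.act c t))) = B'.act c (β.u (f (α.v t)))
  have e : f (A.act (σ.symm c) (α.v t)) = B.act (σ.symm c) (f (α.v t)) := hf _ _
  rw [α.hv', e, β.hu', AlgEquiv.apply_symm_apply]

variable [FiniteDimensional k R]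

theorem TwD.of_iso (L : Lib k) {σ : F ≃ₐ[k] F} {A A' : FO k R F} (h : IsoF (A.tw σ) A') :
    Nonempty (TwD σ A A') := by
  obtain ⟨f, hf, hb⟩ := h
  obtain ⟨g, hg, h1, h2⟩ := (L.id R).iso_inv F _ _ f hf hb
  exact ⟨⟨f, g, hf, hg, h1, h2⟩⟩

theorem TwD.nf (L : Lib k) (G : NF k R) (σ : F ≃ₐ[k] F) {y y' : F} (h : σ y = y') (n : ℕ) :
    Nonempty (TwD σ (G.onF (J k y n)) (G.onF (J k y' n))) :=
  h ▸ TwD.of_iso L ((L.tw R).j F G y n σ)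

theorem TwD.nj (L : Lib k) (H : PG k R) (σ : F ≃ₐ[k] F) {y y' : F} (h : σ y = y') (n : ℕ) :
    Nonempty (TwD σ (NJ H y n) (NJ H y' n)) := TwD.nf L (MN H.d) σ h (n + 1)

theorem TwD.qq (L : Lib k) {σ : F ≃ₐ[k] F} {A A' B B' : FO k R F} (α : TwD σ A A')
    (β : TwD σ B B') {e : Bool} {f : A.X →ₗ[R] B.X} (hf : f ∈ QQ e A B) :
    β.u ∘ₗ f ∘ₗ α.v ∈ QQ e A' B' :=
  (L.qq R).l F e A' (B.tw σ) B' _
    ((L.qq R).r F e A' (A.tw σ) (B.tw σ) f ((L.qq R).tw F e A B σ f hf) α.v α.hv) β.u β.hu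

/-- every map `T → N` composes with `t` into the ideal `[Q^+]` -/
def Kset (B T N : FO k R F) (t : B.X →ₗ[R] T.X) : Prop :=
  ∀ φ ∈ HomF T N, φ ∘ₗ t ∈ QQ true B N

/-- a left exact sequence which is universal modulo `[Q^+]` on the right -/
structure SQ (B Z A : FO k R F) (i : B.X →ₗ[R] Z.X) (p : Z.X →ₗ[R] A.X) : Prop where
  hi : i ∈ HomF B Z
  hp : p ∈ HomF Z A
  inj : Injective i
  ex : Exact i p
  fac : ∀ f ∈ HomF Z A, ∃ g ∈ HomF A A, f - g ∘ₗ p ∈ QQ true Z A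
  lift : ∀ C : FO k R F, ∀ q ∈ QQ true C A, ∃ q' ∈ HomF C Z, p ∘ₗ q' = q

/-- the universal extension of copies of the `N j` by `B`, relative to `[Q^+]` -/
structure UX (B : FO k R F) {ι : Type} (N : ι → FO k R F) (Z A : FO k R F)
    (i : B.X →ₗ[R] Z.X) (p : Z.X →ₗ[R] A.X) : Prop where
  fdZ : Z.fd
  fdA : A.fd
  hi : i ∈ HomF B Z
  hp : p ∈ HomF Z A
  inj : Injective i
  ex : Exact i p
  surj : Surjective p
  univ : ∀ C : FO k R F, ∀ r ∈ HomF B C, (∃ r' ∈ HomF Z C, r' ∘ₗ i = r) ↔ ∀ j, Kset B C (N j) r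
  fac : ∀ C : FO k R F, ∀ f ∈ HomF Z C, f ∘ₗ i ∈ QQ true B C →
    ∃ g ∈ HomF A C, f - g ∘ₗ p ∈ QQ true Z C
  lift : ∀ C : FO k R F, ∀ q ∈ QQ true C A, ∃ q' ∈ QQ true C Z, p ∘ₗ q' = q
  dec : ∃ (κ : Type) (_ : Fintype κ) (c : κ → ι), Decomp A fun s => N (c s)

/-- modulo `[Q^+]` every map `T → N_y` is a sum of maps through `N_y'`, `y' ≠ y` generic -/
def Thru (H : PG k R) (e : ℕ) (T : FO k R F) (ν y : F) : Prop :=
  ∀ φ ∈ HomF T (NJ H y e), ∃ (κ : Type) (_ : Fintype κ) (z : κ → F)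
    (a : ∀ s, T.X →ₗ[R] (NJ H (z s) e).X) (g : ∀ s, (NJ H (z s) e).X →ₗ[R] (NJ H y e).X),
    (∀ s, z s ≠ y ∧ TrO k {ν} (z s) ∧ a s ∈ HomF T (NJ H (z s) e) ∧
      g s ∈ HomF (NJ H (z s) e) (NJ H y e)) ∧ φ - ∑ s, g s ∘ₗ a s ∈ QQ true T (NJ H y e)
end defs

variable (k : Type u) [Field k] (R : Type u) [Ring R] [Algebra k R] [FiniteDimensional k R]

def S_EUX : Prop :=
  ∀ (F : Type u) [Field F] [Algebra k F] (B : FO k R F) (ι : Type) [Fintype ι]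
    (N : ι → FO k R F), B.fd → (∀ j, (N j).fd) → (∀ j, Theta (N j)) →
    ∃ (Z A : FO k R F) (i : B.X →ₗ[R] Z.X) (p : Z.X →ₗ[R] A.X), UX B N Z A i p

def S_ESCH : Prop :=
  ∀ (F : Type u) [Field F] [Algebra k F] (B B' Z A : FO k R F) (i : B.X →ₗ[R] Z.X)
    (p : Z.X →ₗ[R] A.X) (i' : B'.X →ₗ[R] Z.X) (p' : Z.X →ₗ[R] A.X), Z.fd → A.fd →
    SQ B Z A i p → SQ B' Z A i' p' → IsoF B B'

def S_E1 : Prop :=
  ND0 k R → ∀ (L : Type u) [Field L] [Algebra k L], Big k L →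
    ∀ (H1 H2 : PG k R) (y : L) (e1 e2 : ℕ) (ι : Type) [Fintype ι] (μ : ι → L),
    TrO k (Set.range μ) y → ∀ (Z A : FO k R L) (i : (NJ H1 y e1).X →ₗ[R] Z.X)
    (p : Z.X →ₗ[R] A.X), UX (NJ H1 y e1) (fun j => NJ H2 (μ j) e2) Z A i p →
    ∃ (H : PG k R) (ν : L) (n : ℕ), TrO k (Set.range μ) ν ∧ Smd (NJ H ν n) Z

def S_EIT : Prop :=
  ∀ (L : Type u) [Field L] [Algebra k L] [IsAlgClosed L] (H H' : PG k R) (e n : ℕ) (ν y : L),
    TrO k {ν} y → Thru H e (NJ H' ν n) ν y →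
    ∀ y' : L, TrO k {ν} y' → HomF (NJ H' ν n) (NJ H y' e) ≤ QQ true (NJ H' ν n) (NJ H y' e)

def S_EK : Prop :=
  ∀ (L : Type u) [Field L] [Algebra k L] [IsAlgClosed L] (H1 H2 H : PG k R) (y ν : L)
    (e1 e2 n : ℕ) (ι : Type) (μ : ι → L), Transcendental k y → Transcendental k ν →
    (∀ j, TrO k {ν} (μ j)) → ∀ (Z A : FO k R L) (i : (NJ H1 y e1).X →ₗ[R] Z.X)
    (p : Z.X →ₗ[R] A.X), UX (NJ H1 y e1) (fun j => NJ H2 (μ j) e2) Z A i p →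
    (∃ j, ∃ f ∈ HomF (NJ H1 y e1) (NJ H2 (μ j) e2), f ∉ QQ true (NJ H1 y e1) (NJ H2 (μ j) e2)) →
    ∀ s ∈ HomF (NJ H ν n) Z, ∀ r ∈ HomF Z (NJ H ν n), r ∘ₗ s = LinearMap.id →
    ∀ z : L, TrO k {ν} z → z ∉ Set.range μ → ¬ Kset (NJ H1 y e1) (NJ H ν n) (NJ H2 z e2) (r ∘ₗ i)

def S_ECNT : Prop :=
  ∀ (L : Type u) [Field L] [Algebra k L], Big k L → ∀ (H1 H2 H : PG k R) (y ν : L)
    (e1 e2 n : ℕ) (μ : ℕ → L), (∀ l, TrO k (insert y (μ '' Set.Iio l)) (μ l)) →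
    ∀ (m : ℕ), ∀ t ∈ HomF (NJ H1 y e1) (NJ H ν n),
    (∀ j < m, Kset (NJ H1 y e1) (NJ H ν n) (NJ H2 (μ j) e2) t) →
    (∀ z : L, TrO k (insert ν (μ '' Set.Iio m)) z →
      ¬ Kset (NJ H1 y e1) (NJ H ν n) (NJ H2 z e2) t) →
    m ≤ Module.finrank L (HomF (NJ H1 y e1) (NJ H ν n)) + 1

structure S_ETOR : Prop where
  ex : ∀ (d : Fam R) (B Z A : Md k R) (i : B →ₗ[R] Z) (p : Z →ₗ[R] A), Exact i p →
    Surjective p → Exact (Emap d i) (Emap d p)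
  unif : ∀ (F : Type u) [Field F] [Algebra k F] (d : Fam R) (A : FO k R F), A.fd →
    ∃ n0 : ℕ, ∀ (y : F) (t : EE d A.X), Trs (piE d A y) t → (piE d A y ^ n0) t = 0
  dec : ∀ (F : Type u) [Field F] [Algebra k F] (d : Fam R) (A : FO k R F) (κ : Type) [Fintype κ]
    (T : κ → FO k R F) (y : F), Decomp A T → (∀ s, Injective (piE d (T s) y)) →
    Injective (piE d A y)
  chain : ∀ (F : Type u) [Field F] [Algebra k F] (d : Fam R) (B : FO k R F), B.fd →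
    ∀ (Z : ℕ → FO k R F) (i : ∀ m, B.X →ₗ[R] (Z m).X), (∀ m, (Z m).fd) →
    (∀ m, i m ∈ HomF B (Z m)) → (∀ m, ∃ g : (Z m).X →ₗ[R] (Z (m + 1)).X, g ∘ₗ i m = i (m + 1)) →
    ∃ n0 : ℕ, ∀ (m : ℕ) (y : F) (w : EE d B.X), Trs (piE d (Z m) y) (Emap d (i m) w) →
      (piE d (Z m) y ^ n0) (Emap d (i m) w) = 0

structure S_EDIM : Prop where
  m : ∀ (F : Type u) [Field F] [Algebra k F] (d : Fam R) (V : FXV k F), V.fd →
    (MF d V).dim ≤ Module.finrank k R * d.n0 * V.dim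
  hom : ∀ (F : Type u) [Field F] [Algebra k F] (A B : FO k R F), A.fd → B.fd →
    Module.finrank F (HomF A B) ≤ A.dim * B.dim
  closed : ∀ (F : Type u) [Field F] [Algebra k F] (A : FO k R F) (κ : Type) [Fintype κ]
    (T : κ → FO k R F) (π : Pr k R), Decomp A T → (∀ s, ¬ π.Open (T s).X) → ¬ π.Open A.X
  nq : ∀ (F : Type u) [Field F] [Algebra k F] (H : PG k R) (y : F) (n : ℕ) (e : Bool),
    Transcendental k y → LinearMap.id ∉ QQ e (NJ H y n) (NJ H y n)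
  seq : ∀ (L : Type u) [Field L] [Algebra k L], Big k L → ∀ y y' : L, TrO k {y} y' →
    ∃ μ : ℕ → L, μ 0 = y' ∧ (∀ l, TrO k (insert y (μ '' Set.Iio l)) (μ l)) ∧
      (Transcendental k y → ∀ m, TrO k (μ '' Set.Iio m) y)

end
end Pool.Agent.P.MP_cf639b_al
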