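import Pool.Agent.P.MP_cf639b_al.Iface

/-! Statements of the steps of part F1: the local calculus at a point `p`. -/

set_option linter.dupNamespace false

namespace Pool.Agent.P.MP_cf639b_al

universe u
open TensorProduct Polynomial Function

noncomputable section

section defs
variable {k : Type u} [Field k] {R : Type u} [Ring R] [Algebra k R]

/-! ### The universal module `NN` -/

variable (k) in
/-- `k[x]` as a module over itself -/
abbrev VX : XV k := ⟨k[X], LinearMap.mulLeft k X⟩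
/-- the map `k[x] → V` sending `1` to `v` -/
def gv (V : XV k) : V →ₗ[k] XH (VX k) V where
  toFun v := ⟨LinearMap.applyₗ (R := k) v ∘ₗ (aeval V.x : k[X] →ₐ[k] _).toLinearMap,
    LinearMap.ext fun q => by simp⟩
  map_add' v w := Subtype.ext (LinearMap.ext fun q => by simp)
  map_smul' c v := Subtype.ext (LinearMap.ext fun q => by simp)
theorem gv_apply (V : XV k) (v : V) (q : k[X]) : (gv V v).1 q = aeval V.x q v := rfl
variable (k) in
/-- the universal module -/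
abbrev NN (d : Fam R) : Type u := EE d (M d (VX k))
variable (k) in
/-- the first variable -/
def X1 (d : Fam R) : Module.End k (NN k d) := Emap d ((MN d).map (XH.pol (VX k) X))
variable (k) in
/-- the second variable -/
abbrev X2 (d : Fam R) : Module.End k (NN k d) := EX d (M d (VX k))
variable (k) in
/-- the universal Bockstein element -/
def eN (d : Fam R) : NN k d := Bock d (VX k) LinearMap.id (1 : k[X])
/-- `b(A,B)`, the coefficients of `b` being evaluated at `A` -/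
def ev2 {N : Type u} [AddCommGroup N] [Module k N] (A B : Module.End k N) (b : k[X][X]) :
    Module.End k N := b.sum fun j c => aeval A c * B ^ j
/-- finitely generated over two operators -/
def Fg2 {N : Type u} [AddCommGroup N] [Module k N] (A B : Module.End k N) : Prop :=
  ∃ s : Finset N, Submodule.span k {w | ∃ z ∈ s, ∃ i j : ℕ, w = (A ^ i * B ^ j) z} = ⊤
variable (k) in
/-- the symmetric form of (C1) -/
def TNP (d : Fam R) : Prop :=
  (∀ q : k[X], q ≠ 0 → aeval (X1 k d) q (eN k d) ≠ 0) ∧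
  ∀ (z : NN k d) (b : k[X][X]), b ≠ 0 → ev2 (X1 k d) (X2 k d) b z = 0 →
    ∃ h f q : k[X], h ≠ 0 ∧ f ≠ 0 ∧
      aeval (X1 k d) h (aeval (X2 k d) f z) = aeval (X1 k d) q (eN k d)

/-! ### Torsion at `p` -/

theorem Emap_piK (d : Fam R) (p : k) {T T' : Md k R} (g : T →ₗ[R] T') (u : EE d T) :
    Emap d g (piK d p T u) = piK d p T' (Emap d g u) := by
  simp [piK, Emap_EX]
theorem Emap_piK_pow (d : Fam R) (p : k) {T T' : Md k R} (g : T →ₗ[R] T') (n : ℕ) (u : EE d T) :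
    Emap d g ((piK d p T ^ n) u) = (piK d p T' ^ n) (Emap d g u) := by
  induction n with
  | zero => simp
  | succ n ih => rw [pow_succ', pow_succ', Module.End.mul_apply, Module.End.mul_apply, Emap_piK, ih]

/-- the `(x-p)`-power torsion of `EE T` -/
def TS (d : Fam R) (p : k) (T : Md k R) : Submodule k (EE d T) where
  carrier := {u | Trs (piK d p T) u}
  add_mem' := by
    rintro a b ⟨n, hn⟩ ⟨m, hm⟩
    refine ⟨n + m, ?_⟩
    rw [map_add, add_comm n m, pow_add, Module.End.mul_apply, hn, ← pow_add, add_comm m n, pow_add,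
      Module.End.mul_apply, hm]
    simp
  zero_mem' := ⟨0, map_zero _⟩
  smul_mem' := by
    rintro c a ⟨n, hn⟩
    exact ⟨n, by rw [map_smul, hn, smul_zero]⟩
/-- the torsion as a type -/
abbrev TT (d : Fam R) (p : k) (T : Md k R) : Type u := TS d p T
theorem mem_TS {d : Fam R} {p : k} {T : Md k R} {u : EE d T} :
    u ∈ TS d p T ↔ ∃ n : ℕ, (piK d p T ^ n) u = 0 := Iff.rfl
/-- `π = x - p` on the torsion -/
def piT (d : Fam R) (p : k) (T : Md k R) : Module.End k (TT d p T) :=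
  (piK d p T).restrict (p := TS d p T) (q := TS d p T) (by
    rintro u ⟨n, hn⟩
    exact ⟨n, by rw [← Module.End.mul_apply, ← pow_succ, pow_succ', Module.End.mul_apply, hn,
      map_zero]⟩)
theorem piT_coe {d : Fam R} {p : k} {T : Md k R} (x : TT d p T) :
    (piT d p T x).1 = piK d p T x.1 := rfl
theorem piT_pow_coe {d : Fam R} {p : k} {T : Md k R} (n : ℕ) (x : TT d p T) :
    ((piT d p T ^ n) x).1 = (piK d p T ^ n) x.1 := by
  induction n with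
  | zero => simp
  | succ n ih => rw [pow_succ', pow_succ', Module.End.mul_apply, Module.End.mul_apply, piT_coe, ih]
theorem piT_nil {d : Fam R} {p : k} {T : Md k R} (x : TT d p T) :
    ∃ n : ℕ, (piT d p T ^ n) x = 0 := by
  obtain ⟨n, hn⟩ := x.2
  exact ⟨n, Subtype.ext (by rw [piT_pow_coe]; exact hn)⟩
theorem piT_add {d : Fam R} {p : k} {T : Md k R} (a b : ℕ) (x : TT d p T) :
    (piT d p T ^ (a + b)) x = (piT d p T ^ a) ((piT d p T ^ b) x) := by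
  rw [pow_add, Module.End.mul_apply]
theorem piT_mono {d : Fam R} {p : k} {T : Md k R} {a b : ℕ} (h : a ≤ b) {x : TT d p T}
    (hx : (piT d p T ^ a) x = 0) : (piT d p T ^ b) x = 0 := by
  obtain ⟨c, rfl⟩ := Nat.exists_eq_add_of_le' h
  rw [piT_add, hx, map_zero]
/-- functoriality of the torsion -/
def mapT (d : Fam R) (p : k) {T T' : Md k R} (g : T →ₗ[R] T') : TT d p T →ₗ[k] TT d p T' :=
  (Emap d g).restrict (p := TS d p T) (q := TS d p T') (by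
    rintro u ⟨n, hn⟩
    exact ⟨n, by rw [← Emap_piK_pow, hn, map_zero]⟩)
theorem mapT_coe {d : Fam R} {p : k} {T T' : Md k R} (g : T →ₗ[R] T') (x : TT d p T) :
    (mapT d p g x).1 = Emap d g x.1 := rfl
theorem mapT_id {d : Fam R} {p : k} {T : Md k R} (x : TT d p T) :
    mapT d p (LinearMap.id : T →ₗ[R] T) x = x := Subtype.ext (by rw [mapT_coe, Emap_id]; rfl)
theorem mapT_comp {d : Fam R} {p : k} {T T' T'' : Md k R} (g : T' →ₗ[R] T'') (f : T →ₗ[R] T')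
    (x : TT d p T) : mapT d p (g ∘ₗ f) x = mapT d p g (mapT d p f x) :=
  Subtype.ext (by rw [mapT_coe, Emap_comp]; rfl)
theorem mapT_add {d : Fam R} {p : k} {T T' : Md k R} (g f : T →ₗ[R] T') (x : TT d p T) :
    mapT d p (g + f) x = mapT d p g x + mapT d p f x :=
  Subtype.ext (by rw [mapT_coe, map_add]; rfl)
theorem mapT_sub {d : Fam R} {p : k} {T T' : Md k R} (g f : T →ₗ[R] T') (x : TT d p T) :
    mapT d p (g - f) x = mapT d p g x - mapT d p f x :=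
  Subtype.ext (by rw [mapT_coe, map_sub]; rfl)
theorem mapT_smul {d : Fam R} {p : k} {T T' : Md k R} (c : k) (f : T →ₗ[R] T') (x : TT d p T) :
    mapT d p (c • f) x = c • mapT d p f x :=
  Subtype.ext (by rw [mapT_coe, map_smul]; rfl)
theorem mapT_pi {d : Fam R} {p : k} {T T' : Md k R} (g : T →ₗ[R] T') (n : ℕ) (x : TT d p T) :
    mapT d p g ((piT d p T ^ n) x) = (piT d p T' ^ n) (mapT d p g x) :=
  Subtype.ext (by rw [mapT_coe, piT_pow_coe, piT_pow_coe, Emap_piK_pow]; rfl)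
/-- a linear map commuting with two operators commutes with their powers -/
theorem pow_comm_of {A B : Type u} [AddCommGroup A] [Module k A] [AddCommGroup B] [Module k B]
    {a : Module.End k A} {b : Module.End k B} (f : A →ₗ[k] B) (h : ∀ x, f (a x) = b (f x))
    (n : ℕ) (x : A) : f ((a ^ n) x) = (b ^ n) (f x) := by
  induction n with
  | zero => simp
  | succ n ih => rw [pow_succ', pow_succ', Module.End.mul_apply, Module.End.mul_apply, h, ih]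

/-- the module `M[J_N(p)]` -/
abbrev MJ (d : Fam R) (p : k) (N : ℕ) : Md k R := M d (J k p N).V
/-- the map `M[J_n] → M[J_m]` -/
abbrev mJ (d : Fam R) (p : k) (n m : ℕ) : MJ d p n →ₗ[R] MJ d p m := (MN d).map (jm k p n m)
open Classical in
/-- `e(N)` as a torsion element -/
def eT (d : Fam R) (p : k) (N : ℕ) : TT d p (MJ d p N) :=
  if h : eJ d p N ∈ TS d p (MJ d p N) then ⟨eJ d p N, h⟩ else 0
/-- the span of the `π^(a+r) x` -/
def Cyc {N : Type u} [AddCommGroup N] [Module k N] (π : Module.End k N) (a : ℕ) (x : N) :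
    Submodule k N := Submodule.span k (Set.range fun r : ℕ => (π ^ (a + r)) x)

theorem Cyc_map {N N' : Type u} [AddCommGroup N] [Module k N] [AddCommGroup N'] [Module k N']
    {π : Module.End k N} {π' : Module.End k N'} (f : N →ₗ[k] N')
    (h : ∀ (n : ℕ) z, f ((π ^ n) z) = (π' ^ n) (f z)) {a : ℕ} {x y : N} (hy : y ∈ Cyc π a x) :
    f y ∈ Cyc π' a (f x) := by
  refine (Submodule.span_le.mpr (show _ ⊆ ((Cyc π' a (f x)).comap f : Set N) from ?_)) hy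
  rintro _ ⟨r, rfl⟩
  exact Submodule.subset_span ⟨r, (h _ _).symm⟩
theorem Cyc_pow {N : Type u} [AddCommGroup N] [Module k N] (π : Module.End k N) (a b : ℕ)
    (x : N) : Cyc π a ((π ^ b) x) = Cyc π (a + b) x := by
  unfold Cyc
  congr 2
  funext r
  rw [← Module.End.mul_apply, ← pow_add, add_right_comm]

/-- a finite dimensional module with a family of torsion elements -/
structure Pt (d : Fam R) (p : k) (W : Type u) where
  T : Md k R
  fd : T.fd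
  t : W → TT d p T
/-- multiply by `π^a` -/
abbrev Pt.pi {d : Fam R} {p : k} {W : Type u} (a : ℕ) (x : Pt d p W) : Pt d p W :=
  ⟨x.T, x.fd, fun i => (piT d p x.T ^ a) (x.t i)⟩
/-- killed by `π^a` -/
def Pt.nil {d : Fam R} {p : k} {W : Type u} (a : ℕ) (x : Pt d p W) : Prop :=
  ∀ i, (piT d p x.T ^ a) (x.t i) = 0
/-- a module map carries the first family to the second -/
def Arr {d : Fam R} {p : k} {W : Type u} (x y : Pt d p W) : Prop :=
  ∃ g : x.T →ₗ[R] y.T, ∀ i, mapT d p g (x.t i) = y.t i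
/-- a single element -/
abbrev Pt.el {d : Fam R} {p : k} {T : Md k R} (h : T.fd) (x : TT d p T) : Pt d p PUnit :=
  ⟨T, h, fun _ => x⟩

section
variable {d : Fam R} {p : k} {W : Type u}
theorem Arr.refl (x : Pt d p W) : Arr x x := ⟨LinearMap.id, fun _ => mapT_id _⟩
theorem Arr.trans {x y z : Pt d p W} (h : Arr x y) (h' : Arr y z) : Arr x z := by
  obtain ⟨f, hf⟩ := h
  obtain ⟨g, hg⟩ := h'
  exact ⟨g ∘ₗ f, fun i => by rw [mapT_comp, hf, hg]⟩
theorem Arr.pi {x y : Pt d p W} (h : Arr x y) (a : ℕ) : Arr (x.pi a) (y.pi a) := by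
  obtain ⟨f, hf⟩ := h
  exact ⟨f, fun i => by rw [mapT_pi, hf]⟩
theorem Arr.nil {x y : Pt d p W} (h : Arr x y) {a : ℕ} (hx : x.nil a) : y.nil a := by
  obtain ⟨f, hf⟩ := h
  intro i
  rw [← hf, ← mapT_pi, hx i, map_zero]
theorem Pt.pi_pi (x : Pt d p W) (a b : ℕ) : (x.pi b).pi a = x.pi (a + b) := by
  simp only [Pt.pi, piT_add]
theorem Pt.pi_zero (x : Pt d p W) : x.pi 0 = x := rfl
theorem Pt.nil_pi (x : Pt d p W) (a b : ℕ) : (x.pi b).nil a ↔ x.nil (a + b) := by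
  simp only [Pt.nil, piT_add]
theorem Pt.nil_mono {x : Pt d p W} {a b : ℕ} (h : a ≤ b) (hx : x.nil a) : x.nil b :=
  fun i => piT_mono h (hx i)
end

/-- the properties of the elements `e(N)` -/
structure Lc (d : Fam R) (p : k) (s : ℕ) : Prop where
  fd : ∀ N, (MJ d p N).fd
  coe : ∀ N, (eT d p N).1 = eJ d p N
  zero : ∀ N, (piT d p _ ^ N) (eT d p N) = 0
  map : ∀ n m, mapT d p (mJ d p n m) (eT d p n) = (piT d p _ ^ (m - n)) (eT d p m)
  comp : ∀ n m l, n ≤ m → m ≤ l → mJ d p m l ∘ₗ mJ d p n m = mJ d p n l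
  rep : ∀ (T : Md k R) (n : ℕ) (x : TT d p T), (piT d p T ^ n) x = 0 →
    ∃ a : MJ d p n →ₗ[R] T, x = mapT d p a (eT d p n)
  ext : ∀ (T : Md k R) (n m : ℕ), n ≤ m → ∀ a : MJ d p n →ₗ[R] T, mapT d p a (eT d p n) = 0 →
    ∃ a' : MJ d p m →ₗ[R] T, a' ∘ₗ mJ d p n m = a ∧ mapT d p a' (eT d p m) = 0
  expo : ∀ T : Md k R, T.fd → ∃ a : ℕ, ∀ x : TT d p T, (piT d p T ^ a) x = 0
  acc : ∀ T : Md k R, T.fd → ∀ W : ℕ → Submodule k (EE d T), Monotone W →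
    (∀ n, ∀ u ∈ W n, piK d p T u ∈ W n) → ∃ n0, ∀ n ≥ n0, W n = W n0
  l0 : ∀ (N : ℕ) (x : TT d p (MJ d p N)), (piT d p _ ^ s) x ∈ Cyc (piT d p _) 0 (eT d p N)
  oe : ∀ N a : ℕ, (piT d p _ ^ a) (eT d p N) = 0 → N ≤ a + s
  sw : ∀ T : Md k R, T.fd → ∀ x : TT d p T, ∃ N0, ∀ N ≥ N0, ∃ (c : ℕ) (g : T →ₗ[R] MJ d p N),
    mapT d p g ((piT d p T ^ s) x) = (piT d p _ ^ c) (eT d p N) ∧
    ∀ a, (piT d p _ ^ (a + c)) (eT d p N) = 0 → (piT d p T ^ (a + 2 * s)) x = 0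

/-- the translation calculus at `p` -/
structure Calc (d : Fam R) (p : k) where
  Φ : Bool → AFun k R
  fd : ∀ (e : Bool) (T : Md k R), T.fd → ((Φ e).obj T).fd
  v : Bool → ℕ
  w : ℕ
  K : ℕ
  hw : ∀ e, v e ≤ w
  tr : ∀ (e : Bool) (T : Md k R), TT d p T →ₗ[k] TT d p ((Φ e).obj T)
  rt : ∀ (e : Bool) (T : Md k R), TT d p ((Φ e).obj T) →ₗ[k] TT d p T
  tr_pi : ∀ (e : Bool) (T : Md k R), T.fd → ∀ x, tr e T (piT d p T x) = piT d p _ (tr e T x)
  rt_pi : ∀ (e : Bool) (T : Md k R), T.fd → ∀ y, rt e T (piT d p _ y) = piT d p T (rt e T y)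
  tr_nat : ∀ (e : Bool) (T T' : Md k R), T.fd → T'.fd → ∀ (g : T →ₗ[R] T') x,
    tr e T' (mapT d p g x) = mapT d p ((Φ e).map g) (tr e T x)
  rt_nat : ∀ (e : Bool) (T T' : Md k R), T.fd → T'.fd → ∀ (g : T →ₗ[R] T') y,
    rt e T' (mapT d p ((Φ e).map g) y) = mapT d p g (rt e T y)
  rt_tr : ∀ (e : Bool) (T : Md k R), T.fd → ∀ x, rt e T (tr e T x) = (piT d p T ^ w) x
  tr_rt : ∀ (e : Bool) (T : Md k R), T.fd → ∀ y, tr e T (rt e T y) = (piT d p _ ^ w) y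
  can : ∀ (e : Bool) (T : Md k R), T.fd → ∃ (κ : (Φ (!e)).obj ((Φ e).obj T) →ₗ[R] T)
    (κ' : T →ₗ[R] (Φ (!e)).obj ((Φ e).obj T)), ∀ x,
      mapT d p κ ((piT d p _ ^ K) (tr (!e) _ (tr e T x))) =
        (piT d p T ^ (K + (v true + v false))) x ∧
      (piT d p _ ^ K) (tr (!e) _ (tr e T x)) =
        mapT d p κ' ((piT d p T ^ (K + (v true + v false))) x)

/-- the sign of a letter -/
def sg : Bool → ℤ
  | true => 1
  | false => -1
/-- the weight of a word -/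
def wt (u : List Bool) : ℤ := (u.map sg).sum
/-- the reduced word of weight `j` -/
def wd (j : ℤ) : List Bool := List.replicate j.natAbs (decide (0 ≤ j))

theorem wt_append (u u' : List Bool) : wt (u ++ u') = wt u + wt u' := by simp [wt]
theorem wt_cons (e : Bool) (u : List Bool) : wt (e :: u) = sg e + wt u := by simp [wt]
theorem wt_nil : wt [] = 0 := rfl
theorem wt_replicate (s : ℕ) (e : Bool) : wt (List.replicate s e) = sg e * s := by
  simp [wt, mul_comm]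
theorem sg_not (e : Bool) : sg (!e) = -sg e := by cases e <;> rfl
theorem wt_wd (j : ℤ) : wt (wd j) = j := by
  rw [wd, wt_replicate]
  by_cases h : 0 ≤ j
  · simp only [h, decide_true, sg]; omega
  · simp only [h, decide_false, sg]; omega
theorem wd_zero : wd 0 = [] := rfl

namespace Calc
variable {d : Fam R} {p : k} (Γ : Calc d p)
/-- the functor of a word on objects; the head of the word is applied first -/
def ob : List Bool → Md k R → Md k R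
  | [], T => T
  | e :: u, T => ob u ((Γ.Φ e).obj T)
/-- the functor of a word on maps -/
def mp : ∀ (u : List Bool) {T T' : Md k R}, (T →ₗ[R] T') → (Γ.ob u T →ₗ[R] Γ.ob u T')
  | [], _, _, g => g
  | e :: u, _, _, g => mp u ((Γ.Φ e).map g)
/-- the translation along a word -/
def trL : ∀ (u : List Bool) (T : Md k R), TT d p T →ₗ[k] TT d p (Γ.ob u T)
  | [], _ => LinearMap.id
  | e :: u, T => trL u ((Γ.Φ e).obj T) ∘ₗ Γ.tr e T
/-- the inverse translation along a word -/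
def rtL : ∀ (u : List Bool) (T : Md k R), TT d p (Γ.ob u T) →ₗ[k] TT d p T
  | [], _ => LinearMap.id
  | e :: u, T => Γ.rt e T ∘ₗ rtL u ((Γ.Φ e).obj T)
theorem ob_fd : ∀ (u : List Bool) {T : Md k R}, T.fd → (Γ.ob u T).fd
  | [], _, h => h
  | e :: u, _, h => ob_fd u (Γ.fd e _ h)
theorem ob_append : ∀ (u u' : List Bool) (T : Md k R), Γ.ob (u ++ u') T = Γ.ob u' (Γ.ob u T)
  | [], _, _ => rfl
  | _ :: u, u', _ => ob_append u u' _
theorem mp_id : ∀ (u : List Bool) (T : Md k R),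
    Γ.mp u (LinearMap.id : T →ₗ[R] T) = LinearMap.id
  | [], _ => rfl
  | e :: u, T => by rw [mp, (Γ.Φ e).map_id]; exact mp_id u _
theorem mp_comp : ∀ (u : List Bool) {T T' T'' : Md k R} (g : T' →ₗ[R] T'') (f : T →ₗ[R] T'),
    Γ.mp u (g ∘ₗ f) = Γ.mp u g ∘ₗ Γ.mp u f
  | [], _, _, _, _, _ => rfl
  | e :: u, _, _, _, g, f => by rw [mp, (Γ.Φ e).map_comp]; exact mp_comp u _ _
theorem trL_pi : ∀ (u : List Bool) {T : Md k R}, T.fd → ∀ (n : ℕ) (x : TT d p T),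
    Γ.trL u T ((piT d p T ^ n) x) = (piT d p _ ^ n) (Γ.trL u T x)
  | [], _, _, _, _ => rfl
  | e :: u, T, h, n, x => by
    change Γ.trL u _ (Γ.tr e T _) = _
    rw [pow_comm_of (Γ.tr e T) (Γ.tr_pi e T h)]
    exact trL_pi u (Γ.fd e T h) n _
theorem rtL_pi : ∀ (u : List Bool) {T : Md k R}, T.fd → ∀ (n : ℕ) (y : TT d p (Γ.ob u T)),
    Γ.rtL u T ((piT d p _ ^ n) y) = (piT d p T ^ n) (Γ.rtL u T y)
  | [], _, _, _, _ => rfl
  | e :: u, T, h, n, y => by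
    change Γ.rt e T (Γ.rtL u _ ((piT d p (Γ.ob u _) ^ n) y)) = _
    rw [rtL_pi u (Γ.fd e T h), pow_comm_of (Γ.rt e T) (Γ.rt_pi e T h)]
    rfl
theorem trL_nat : ∀ (u : List Bool) {T T' : Md k R}, T.fd → T'.fd → ∀ (g : T →ₗ[R] T')
    (x : TT d p T), Γ.trL u T' (mapT d p g x) = mapT d p (Γ.mp u g) (Γ.trL u T x)
  | [], _, _, _, _, _, _ => rfl
  | e :: u, T, T', h, h', g, x => by
    change Γ.trL u _ (Γ.tr e T' _) = _
    rw [Γ.tr_nat e T T' h h']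
    exact trL_nat u (Γ.fd e T h) (Γ.fd e T' h') _ _
theorem trL_rtL : ∀ (u : List Bool) {T : Md k R}, T.fd → ∀ y : TT d p (Γ.ob u T),
    Γ.trL u T (Γ.rtL u T y) = (piT d p _ ^ (u.length * Γ.w)) y
  | [], _, _, _ => by rw [List.length_nil, zero_mul]; rfl
  | e :: u, T, h, y => by
    change Γ.trL u _ (Γ.tr e T (Γ.rt e T (Γ.rtL u _ y))) = (piT d p (Γ.ob u _) ^ _) y
    rw [Γ.tr_rt e T h, trL_pi Γ u (Γ.fd e T h), trL_rtL u (Γ.fd e T h), ← piT_add,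
      List.length_cons, Nat.succ_mul, add_comm]
    rfl
theorem rtL_trL : ∀ (u : List Bool) {T : Md k R}, T.fd → ∀ x : TT d p T,
    Γ.rtL u T (Γ.trL u T x) = (piT d p T ^ (u.length * Γ.w)) x
  | [], _, _, _ => by rw [List.length_nil, zero_mul]; rfl
  | e :: u, T, h, x => by
    change Γ.rt e T (Γ.rtL u _ (Γ.trL u _ (Γ.tr e T x))) = _
    rw [rtL_trL u (Γ.fd e T h), pow_comm_of (Γ.rt e T) (Γ.rt_pi e T h), Γ.rt_tr e T h, ← piT_add,
      List.length_cons, Nat.succ_mul]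
/-- the translation of a pointed module along a word -/
abbrev trs {W : Type u} (u : List Bool) (x : Pt d p W) : Pt d p W :=
  ⟨Γ.ob u x.T, Γ.ob_fd u x.fd, fun i => Γ.trL u x.T (x.t i)⟩
theorem trs_nil {W : Type u} (x : Pt d p W) : Γ.trs [] x = x := rfl
theorem trs_cons {W : Type u} (e : Bool) (u : List Bool) (x : Pt d p W) :
    Γ.trs (e :: u) x = Γ.trs u (Γ.trs [e] x) := rfl
theorem trs_append {W : Type u} : ∀ (u u' : List Bool) (x : Pt d p W),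
    Γ.trs (u ++ u') x = Γ.trs u' (Γ.trs u x)
  | [], _, _ => rfl
  | e :: u, u', x => trs_append u u' (Γ.trs [e] x)
theorem trs_pi {W : Type u} (u : List Bool) (a : ℕ) (x : Pt d p W) :
    Γ.trs u (x.pi a) = (Γ.trs u x).pi a := by
  simp only [trs, Pt.pi, Γ.trL_pi u x.fd]
theorem trs_arr {W : Type u} (u : List Bool) {x y : Pt d p W} (h : Arr x y) :
    Arr (Γ.trs u x) (Γ.trs u y) := by
  obtain ⟨f, hf⟩ := h
  exact ⟨Γ.mp u f, fun i => by rw [← Γ.trL_nat u x.fd y.fd, hf]⟩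
theorem trs_nil' {W : Type u} (u : List Bool) {a : ℕ} {x : Pt d p W} (h : x.nil a) :
    (Γ.trs u x).nil a := fun i => by rw [← Γ.trL_pi u x.fd, h i, map_zero]
/-- the formal loss of a word -/
def D (u : List Bool) : ℕ := (u.map Γ.v).sum
theorem D_append (u u' : List Bool) : Γ.D (u ++ u') = Γ.D u + Γ.D u' := by simp [D]
theorem D_cons (e : Bool) (u : List Bool) : Γ.D (e :: u) = Γ.v e + Γ.D u := by simp [D]
theorem D_nil : Γ.D [] = 0 := rfl
theorem D_replicate (s : ℕ) (e : Bool) : Γ.D (List.replicate s e) = s * Γ.v e := by simp [D]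
/-- words of the same weight agree -/
def WR : Prop :=
  ∀ (W : Type u) (x : Pt d p W) (u u' : List Bool), wt u = wt u' →
    Arr ((Γ.trs u x).pi (Γ.K + Γ.D u')) ((Γ.trs u' x).pi (Γ.K + Γ.D u))
/-- the module `T^j M[J_N]` -/
abbrev A (j : ℤ) (N : ℕ) : Md k R := Γ.ob (wd j) (MJ d p N)
/-- the element `e_j(N)` -/
def ee (j : ℤ) (N : ℕ) : TT d p (Γ.A j N) := Γ.trL (wd j) _ (eT d p N)
/-- the map `T^j M[J_N] → T^j M[J_N']` -/
def io (j : ℤ) (N N' : ℕ) : Γ.A j N →ₗ[R] Γ.A j N' := Γ.mp (wd j) (mJ d p N N')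
/-- the element `ε_s(y,N)` -/
def ep (s : ℤ × ℤ) (y N : ℕ) : TT d p (Γ.A s.1 N) :=
  (piT d p _ ^ ((N : ℤ) - Γ.D (wd s.1) - s.2 - y).toNat) (Γ.ee s.1 N)
/-- the subfunctor `O_s(y)` -/
def O (s : ℤ × ℤ) (y : ℕ) (T : Md k R) : Submodule k (TT d p T) :=
  LinearMap.ker ((piT d p _ ^ ((y : ℤ) + s.2 - Γ.D (wd (-s.1))).toNat) ∘ₗ Γ.trL (wd (-s.1)) T)
/-- divisibility of the inverse translation -/
def Dv (u : List Bool) (δ : ℤ) : Prop :=
  ∃ n n' : ℕ, (n : ℤ) = n' + δ ∧ ∀ U : Md k R, U.fd → ∀ y : TT d p (Γ.ob u U),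
    ∃ t : TT d p U, (piT d p U ^ n) t = (piT d p U ^ n') (Γ.rtL u U y)
/-- bounded exponents in the direction `f` -/
def Bd (f : Bool) : Prop :=
  ∀ U : Md k R, U.fd → ∃ a : ℕ, ∀ (m : ℕ) (y : TT d p (Γ.ob (List.replicate m f) U)),
    (piT d p _ ^ a) y = 0
end Calc

/-- the order function -/
structure Lam {d : Fam R} {p : k} (Γ : Calc d p) (lam : ℤ → ℤ) (c : ℕ) : Prop where
  ex : ∀ u : List Bool, ∃ N0 : ℕ, ∀ N ≥ N0, ∀ a : ℕ,
    (piT d p _ ^ a) (Γ.trL u _ (eT d p N)) = 0 ↔ (N : ℤ) ≤ a + Γ.D u + lam (wt u)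
  ub : ∀ u : List Bool, ∃ N0 : ℕ, ∀ T : Md k R, T.fd → ∀ (x : TT d p T) (n a : ℕ), N0 ≤ n →
    (n : ℤ) ≤ a + Γ.D u + lam (wt u) → (piT d p T ^ n) x = 0 →
    (piT d p _ ^ a) (Γ.trL u T x) = 0
  sup : ∀ i j, lam i + lam j ≤ lam (i + j)
  zero : lam 0 = 0
  win : ∀ j, 0 ≤ lam j + lam (-j) + c

/-- the cone `P` -/
def Pos (lam : ℤ → ℤ) (s : ℤ × ℤ) : Prop := s.2 ≤ lam s.1
/-- a dense system in the order given by `P` -/
def Dns (lam : ℤ → ℤ) : Prop :=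
  ∃ S : Set ((ℤ × ℤ) × (ℤ × ℤ)), S.Nonempty ∧ ∀ s t, (s, t) ∈ S → ¬ Pos lam (s - t) ∧
    ∃ v, (s, v) ∈ S ∧ (v, t) ∈ S ∧ Pos lam (v - s) ∧ Pos lam (t - v)
/-- an antichain with five elements -/
def Ach (lam : ℤ → ℤ) : Prop := ∃ s : Fin 5 → ℤ × ℤ, ∀ i l, i ≠ l → ¬ Pos lam (s i - s l)
/-- `lam` is close to a line and meets it -/
def Att (lam : ℤ → ℤ) : Prop :=
  ∃ (c b : ℝ), (∀ j : ℤ, c * j - b ≤ lam j ∧ (lam j : ℝ) ≤ c * j) ∧
    ∃ j : ℤ, j ≠ 0 ∧ (lam j : ℝ) = c * j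

/-- the facts on `ε_s(y,N)` and `O_s(y)` -/
structure LF {d : Fam R} {p : k} (Γ : Calc d p) (lam : ℤ → ℤ) : Prop where
  io_comp : ∀ j N N' N'', N ≤ N' → N' ≤ N'' → Γ.io j N' N'' ∘ₗ Γ.io j N N' = Γ.io j N N''
  io_ep : ∀ s y, ∃ N0, ∀ N ≥ N0, ∀ N' ≥ N, mapT d p (Γ.io s.1 N N') (Γ.ep s y N) = Γ.ep s y N'
  pi_ep : ∀ s y b, ∃ N0, ∀ N ≥ N0, (piT d p _ ^ b) (Γ.ep s (y + b) N) = Γ.ep s y N
  nat : ∀ s y (T T' : Md k R), T.fd → T'.fd → ∀ (g : T →ₗ[R] T'), ∀ x ∈ Γ.O s y T,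
    mapT d p g x ∈ Γ.O s y T'
  shift : ∀ s, ∃ y0, ∀ y ≥ y0, ∀ (b : ℕ) (T : Md k R), T.fd → ∀ x : TT d p T,
    (piT d p T ^ b) x ∈ Γ.O s y T ↔ x ∈ Γ.O s (y + b) T
  mem : ∀ u v, ∃ y0, ∀ y ≥ y0, ∃ N0, ∀ N ≥ N0, Γ.ep u y N ∈ Γ.O v y _ ↔ Pos lam (u - v)
  incl : ∀ t v, Pos lam (t - v) → ∃ y0, ∀ y ≥ y0, ∀ T : Md k R, T.fd → Γ.O t y T ≤ Γ.O v y T
  ex : ∀ u v, Pos lam (u - v) → ∀ y, ∃ N0, ∀ N ≥ N0, ∃ N1, ∀ N' ≥ N1,
    ∃ h : Γ.A v.1 N →ₗ[R] Γ.A u.1 N', mapT d p h (Γ.ep v y N) = Γ.ep u y N'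
  oth : ∀ u v, ¬ Pos lam (u - v) → ∃ B y0, ∀ y ≥ y0, ∃ N0, ∀ N ≥ N0, ∀ z : TT d p (Γ.A u.1 N),
    (piT d p _ ^ B) z ∈ Γ.O v y _ → (piT d p _ ^ B) z ∈ Cyc (piT d p _) 1 (Γ.ep u y N)

/-- data giving a wild functor -/
structure AntiD (d : Fam R) (p : k) where
  n : ℕ
  n' : ℕ
  s : ℕ
  hs : s ≤ n'
  A : Fin 5 → Md k R
  A' : Fin 5 → Md k R
  fd : ∀ i, (A i).fd
  ρ : ∀ i, A i →ₗ[R] A' i
  a : ∀ i, MJ d p n →ₗ[R] A i
  a' : ∀ i, MJ d p (n + n') →ₗ[R] A' i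
  comm : ∀ i, a' i ∘ₗ mJ d p n (n + n') = ρ i ∘ₗ a i
  ne : ∀ i, (piK d p _ ^ n') (Emap d (a' i) (eJ d p (n + n'))) ≠ 0
  other : ∀ i l, l ≠ i → ∀ f : A l →ₗ[R] A' i, Emap d f (Emap d (a l) (eJ d p n)) ∈
    Cyc (piK d p _) (n' + 1) (Emap d (a' i) (eJ d p (n + n')))
  h1 : ∀ x : EE d (MJ d p n'), Trs (piK d p _) x →
    (piK d p _ ^ s) x ∈ Cyc (piK d p _) 0 (eJ d p n')
  h2 : ∀ (i : Fin 5) (t : EE d (A i)), Trs (piK d p _) (Emap d (ρ i) t) →
    (piK d p _ ^ (n' - s)) (Emap d (ρ i) t) = 0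

section dual
variable {S : Type u} [Ring S] [Algebra k S]
/-- the `k`-dual of a module -/
abbrev Dk (σ : Anti k R S) (T : Md k R) : Md k S := (DF σ (FO.ofMd T)).X
/-- the `k`-dual of a map -/
def Dkm (σ : Anti k R S) {T T' : Md k R} (g : T →ₗ[R] T') : Dk σ T' →ₗ[S] Dk σ T :=
  Dmap σ (A := FO.ofMd T) (B := FO.ofMd T') (mem_HomF_k g)
theorem Dkm_apply (σ : Anti k R S) {T T' : Md k R} (g : T →ₗ[R] T') (h : DT σ (FO.ofMd T'))
    (t : T) : (Dkm σ g h : DT σ (FO.ofMd T)) t = h (g t) := rfl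
/-- a natural balanced pairing -/
structure Lk (σ : Anti k R S) (d : Fam R) (p : k) where
  β : ∀ T : Md k R, TT d p T →ₗ[k] TT (d.op σ) p (Dk σ T) →ₗ[k] k
  bal : ∀ T x y, β T (piT d p T x) y = β T x (piT (d.op σ) p _ y)
  nat : ∀ (T T' : Md k R) (g : T →ₗ[R] T') x y,
    β T' (mapT d p g x) y = β T x (mapT (d.op σ) p (Dkm σ g) y)
/-- the pairing is perfect -/
def Lk.Perf {σ : Anti k R S} {d : Fam R} {p : k} (β : Lk σ d p) : Prop :=
  ∀ T : Md k R, T.fd → Module.Finite k (TT d p T) ∧ Module.Finite k (TT (d.op σ) p (Dk σ T)) ∧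
    Bijective (β.β T) ∧ Bijective (β.β T).flip
/-- the translations of `Γ'` are adjoint to the inverse translations of `Γ` -/
def Adj {σ : Anti k R S} {d : Fam R} {p : k} (β : Lk σ d p) (Γ : Calc d p)
    (Γ' : Calc (d.op σ) p) : Prop :=
  ∀ (e : Bool) (U : Md k R) (T : Md k S), U.fd → T.fd → ∀ θ : T →ₗ[S] Dk σ U, Bijective θ →
    ∃ θ1 : (Γ'.Φ e).obj T →ₗ[S] Dk σ ((Γ.Φ (!e)).obj U), Bijective θ1 ∧ ∀ y x,
      β.β _ y (mapT (d.op σ) p θ1 (Γ'.tr e T x)) =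
        β.β U (Γ.rt (!e) U y) (mapT (d.op σ) p θ x)
end dual

variable [FiniteDimensional k R]

variable (k) in
/-- generic translation maps -/
structure AK (d : Fam R) {K : Type u} [Field K] [Algebra k K] (t : K) where
  ap : M d (one k t).V →ₗ[R] Tp.obj (M d (one k t).V)
  am : M d (one k t).V →ₗ[R] Tm.obj (M d (one k t).V)
  memp : ap ∈ HomF (MF d (one k t)) (Tp.onF (MF d (one k t)))
  memm : am ∈ HomF (MF d (one k t)) (Tm.onF (MF d (one k t)))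
  pm : Cst (MF d (one k t)) (MF d (one k t))
    (eps (M d (one k t).V) ∘ₗ Tm.map ap ∘ₗ am - LinearMap.id)
  mp : Cst (MF d (one k t)) (Tp.onF (Tm.onF (MF d (one k t))))
    (Tp.map am ∘ₗ ap - eta (M d (one k t).V))

/-- natural translation maps -/
structure NA {d : Fam R} {K : Type u} [Field K] [Algebra k K] {t : K} (A : AK k d t) where
  hp : k[X]
  hm : k[X]
  hp0 : hp ≠ 0
  hm0 : hm ≠ 0
  ap : NT (MN (k := k) d) ((MN d).post Tp)
  am : NT (MN (k := k) d) ((MN d).post Tm)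
  genp : ap.app (one k t).V = Tp.map ((MN d).map (XH.pol _ hp)) ∘ₗ A.ap
  genm : am.app (one k t).V = Tm.map ((MN d).map (XH.pol _ hm)) ∘ₗ A.am
  Q : Md k R
  fd : Q.fd
  c : NT (MN (k := k) d) (TenN Q)
  b : NT (TenN Q) (MN d)
  Q' : Md k R
  fd' : Q'.fd
  c' : NT (MN (k := k) d) (TenN Q')
  b' : NT (TenN Q') (((MN d).post Tm).post Tp)
  ep : ∀ V : XV k, eps (M d V) ∘ₗ Tm.map (ap.app V) ∘ₗ am.app V =
    (MN d).map (XH.pol V (hp * hm)) + b.app V ∘ₗ c.app V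
  em : ∀ V : XV k, Tp.map (am.app V) ∘ₗ ap.app V =
    eta (M d V) ∘ₗ (MN d).map (XH.pol V (hp * hm)) + b'.app V ∘ₗ c'.app V

/-- the natural map in the direction `e` -/
def NA.a {d : Fam R} {K : Type u} [Field K] [Algebra k K] {t : K} {A : AK k d t} (N : NA A) :
    ∀ e : Bool, NT (MN (k := k) d) ((MN d).post (Te e))
  | true => N.ap
  | false => N.am

/-- iterated natural translation maps -/
def NA.it {d : Fam R} {K : Type u} [Field K] [Algebra k K] {t : K} {A : AK k d t} (N : NA A)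
    (e : Bool) (V : XV k) : ∀ s : ℕ, M d V →ₗ[R] (Tn e s).obj (M d V)
  | 0 => LinearMap.id
  | s + 1 => (Te e).map (N.it e V s) ∘ₗ (N.a e).app V

/-- the calculus `Γ` comes from `N` -/
def NA.Link {d : Fam R} {K : Type u} [Field K] [Algebra k K] {t : K} {A : AK k d t} (N : NA A)
    {p : k} (Γ : Calc d p) : Prop :=
  Γ.v true + Γ.v false = rootMultiplicity p (N.hp * N.hm) ∧
  ∀ (e : Bool) (s n a : ℕ), (piT d p _ ^ a) (Γ.trL (List.replicate s e) _ (eT d p n)) = 0 →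
    (piK d p _ ^ a) (Emap d (N.it e (J k p n).V s) (eJ d p n)) = 0
end defs

variable (k : Type u) [Field k] (R : Type u) [Ring R] [Algebra k R] [FiniteDimensional k R]

/-! ### `L0` and the transposed family -/

structure S_UNIV : Prop where
  span : ∀ (d : Fam R) (V : XV k), Submodule.span k
    {u : EE d (M d V) | ∃ (v : V) (n : NN k d), u = Emap d ((MN d).map (gv V v)) n} = ⊤
  lift : ∀ (d : Fam R) (V : XV k) (W : Type u) [AddCommGroup W] [Module k W]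
    (β : NN k d →ₗ[k] V →ₗ[k] W), (∀ n v, β (X1 k d n) v = β n (V.x v)) →
    ∃ φ : EE d (M d V) →ₗ[k] W, ∀ n v, φ (Emap d ((MN d).map (gv V v)) n) = β n v
  fg : ∀ d : Fam R, Fg2 (X1 k d) (X2 k d)
  comm : ∀ d : Fam R, Commute (X1 k d) (X2 k d)
  pol : ∀ (d : Fam R) (q : k[X]), aeval (X1 k d) q = Emap d ((MN d).map (XH.pol (VX k) q))
  gvx : ∀ (d : Fam R) (V : XV k) (v : V) (q : k[X]) (n : NN k d),
    Emap d ((MN d).map (gv V v)) (aeval (X1 k d) q n) =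
      Emap d ((MN d).map (gv V (aeval V.x q v))) n
  gve : ∀ (d : Fam R) (V : XV k) (v : V),
    Emap d ((MN d).map (gv V v)) (eN k d) = Bock d V LinearMap.id v
  diag : ∀ (d : Fam R) (q : k[X]), aeval (X1 k d) q (eN k d) = aeval (X2 k d) q (eN k d)

def S_LOCN : Prop :=
  ∀ (d : Fam R) (K : Type u) [Field K] [Algebra k K] (t : K), Gen k t →
    (∀ u : EE d (M d (one k t).V), ∃ (q : k[X]) (n : NN k d), q ≠ 0 ∧
      Emap d ((MF d (one k t)).act (aeval t q)) u =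
        Emap d ((MN d).map (gv (one k t).V (1 : K))) n) ∧
    ∀ n : NN k d, Emap d ((MN d).map (gv (one k t).V (1 : K))) n = 0 →
      ∃ q : k[X], q ≠ 0 ∧ aeval (X1 k d) q n = 0

def S_TN1 : Prop :=
  ∀ (d : Fam R) (K : Type u) [Field K] [Algebra k K] (t : K), Gen k t → CK (k := k) d t → TNP k d

def S_TN2 : Prop :=
  ∀ (d : Fam R) (K : Type u) [Field K] [Algebra k K] (t : K), Gen k t → TNP k d →
    eK (k := k) d t ≠ 0 ∧ ∃ f : k[X], f ≠ 0 ∧
      ∀ (u : EE d (MF d (one k t)).X) (g : K[X]), g ≠ 0 → polE d (MF d (one k t)) g u = 0 →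
      ∃ (c : K) (n : ℕ), aeval (EX d (MF d (one k t)).X) (f ^ n)
        (u - Emap d ((MF d (one k t)).act c) (eK d t)) = 0

def S_SYM : Prop :=
  ∀ (S : Type u) [Ring S] [Algebra k S] [FiniteDimensional k S] (σ : Anti k R S) (d : Fam R),
    ∃ Θ : NN k d ≃ₗ[k] NN k (d.op σ), (∀ n, Θ (X1 k d n) = X2 k (d.op σ) (Θ n)) ∧
      (∀ n, Θ (X2 k d n) = X1 k (d.op σ) (Θ n)) ∧ Θ (eN k d) = eN k (d.op σ)

def S_SWAP : Prop :=
  ∀ b : k[X][X], b ≠ 0 → ∃ b' : k[X][X], b' ≠ 0 ∧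
    ∀ (N : Type u) [AddCommGroup N] [Module k N] (A B : Module.End k N), Commute A B →
      ev2 A B b = ev2 B A b'

def S_CA : Prop :=
  ∀ (N : Type u) [AddCommGroup N] [Module k N] (A B : Module.End k N), Commute A B → Fg2 A B →
    (∀ (z : N) (b : k[X][X]), b ≠ 0 → ev2 A B b z = 0 →
      ∃ h f : k[X], h ≠ 0 ∧ f ≠ 0 ∧ aeval A h (aeval B f z) = 0) →
    ∃ (g : k[X]) (n : ℕ) (q : Fin n → k[X]) (α : N →ₗ[k] (Fin n → ℕ →₀ k[X]))
      (z : Fin n → N), g ≠ 0 ∧ (∀ i, aeval A (q i) (z i) = 0) ∧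
      (∀ w i l, q i ∣ α (A w) i l - X * α w i l) ∧
      (∀ w i, q i ∣ α (B w) i 0) ∧ (∀ w i l, q i ∣ α (B w) i (l + 1) - α w i l) ∧
      ∀ w, ∑ i, (α w i).sum (fun l c => aeval A c ((B ^ l) (z i))) = aeval B g w

/-! ### The calculus -/

def S_AK : Prop :=
  ∀ (d : Fam R) (K : Type u) [Field K] [Algebra k K] (t : K), Gen k t → CK (k := k) d t →
    Nonempty (AK k d t)

def S_NA : Prop :=
  ∀ (d : Fam R) (K : Type u) [Field K] [Algebra k K] (t : K), Gen k t →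
    ∀ A : AK k d t, Nonempty (NA A)

def S_LC : Prop :=
  ∀ (d : Fam R) (K : Type u) [Field K] [Algebra k K] (t : K), Gen k t → CK (k := k) d t →
    ∀ p : k, ∃ s, Lc d p s

def S_TR : Prop :=
  ∀ (d : Fam R) (p : k) (s : ℕ), Lc d p s → ∀ Φ : AFun k R, (∀ T : Md k R, T.fd → (Φ.obj T).fd) →
    ∀ a : NT (MN (k := k) d) ((MN d).post Φ),
    ∃ tr : ∀ T : Md k R, TT d p T →ₗ[k] TT d p (Φ.obj T),
      (∀ T : Md k R, T.fd → ∀ x, tr T (piT d p T x) = piT d p _ (tr T x)) ∧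
      (∀ T T' : Md k R, T.fd → T'.fd → ∀ (g : T →ₗ[R] T') x,
        tr T' (mapT d p g x) = mapT d p (Φ.map g) (tr T x)) ∧
      ∀ T : Md k R, T.fd → ∀ (n : ℕ) (g : MJ d p n →ₗ[R] T), tr T (mapT d p g (eT d p n)) =
        mapT d p (T := MJ d p n) (Φ.map g ∘ₗ a.app (J k p n).V) (eT d p n)

def S_CALC : Prop :=
  ∀ (d : Fam R) (K : Type u) [Field K] [Algebra k K] (t : K) (A : AK k d t) (N : NA A)
    (p : k) (s : ℕ), Lc d p s → ∃ Γ : Calc d p, Γ.Φ = Te ∧ N.Link Γ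

def S_WR : Prop := ∀ (d : Fam R) (p : k) (Γ : Calc d p), Γ.WR

def S_LAM : Prop :=
  ∀ (d : Fam R) (p : k) (s : ℕ), Lc d p s → ∀ Γ : Calc d p, ∃ lam, Lam Γ lam s

def S_WINX : Prop :=
  ∀ (d : Fam R) (K : Type u) [Field K] [Algebra k K] (t : K), Gen k t → CK (k := k) d t →
    ∀ (A : AK k d t) (N : NA A) (p : k), ∃ c : ℕ, ∀ s : ℕ, ∃ n o n' o' : ℕ, o ≤ n ∧ o' ≤ n' ∧
      (piK d p _ ^ o) (Emap d (N.it true (J k p n).V s) (eJ d p n)) = 0 ∧
      (piK d p _ ^ o') (Emap d (N.it false (J k p n').V s) (eJ d p n')) = 0 ∧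
      s * rootMultiplicity p (N.hp * N.hm) + o + o' ≤ n + n' + c

def S_LF : Prop :=
  ∀ (d : Fam R) (p : k) (s : ℕ), Lc d p s → ∀ (Γ : Calc d p) (lam : ℤ → ℤ) (c : ℕ),
    Lam Γ lam c → LF Γ lam

def S_ANTI1 : Prop :=
  ∀ (d : Fam R) (p : k) (s : ℕ), Lc d p s → ∀ (Γ : Calc d p) (lam : ℤ → ℤ) (c : ℕ),
    Lam Γ lam c → LF Γ lam → Ach lam → Nonempty (AntiD d p)

structure S_RX : Prop where
  ee : ∀ (d : Fam R) (B Z A : Md k R) (i : B →ₗ[R] Z) (r : Z →ₗ[R] A), Exact i r →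
    Surjective r → Exact (Emap d i) (Emap d r)
  mj : ∀ (d : Fam R) (p : k) (n n' : ℕ),
    Exact (mJ d p n (n + n')) (mJ d p (n + n') n') ∧ Surjective (mJ d p (n + n') n')
  ten : ∀ (d : Fam R) (Q : Md k R) (V : Type u) [AddCommGroup V] [Module k V] [Module.Finite k V],
    ∃ (m : ℕ) (v : Fin m → V) (φ : Fin m → (V →ₗ[k] k))
      (c : Fin m → ((TenA V).obj Q →ₗ[R] Q)), (∀ w, ∑ i, φ i w • v i = w) ∧
      (∀ i w, c i ∘ₗ tmr Q V w = φ i w • LinearMap.id) ∧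
      ∀ x : EE d ((TenA V).obj Q), x = ∑ i, Emap d (tmr Q V (v i)) (Emap d (c i) x)

def S_ANTI2 : Prop := ∀ (d : Fam R) (p : k), AntiD d p → Wild k R

def S_DENSE : Prop :=
  ∀ (d : Fam R) (p : k) (s : ℕ), Lc d p s → ∀ (Γ : Calc d p) (lam : ℤ → ℤ) (c : ℕ),
    Lam Γ lam c → LF Γ lam → Dns lam → ¬ ND k R

structure S_ARI : Prop where
  att : ∀ (lam : ℤ → ℤ) (c : ℕ), (∀ i j, lam i + lam j ≤ lam (i + j)) → lam 0 = 0 →
    (∀ j, 0 ≤ lam j + lam (-j) + c) → ¬ Ach lam → ¬ Dns lam → Att lam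
  two : ∀ lam lam' : ℤ → ℤ, (∀ i j, lam i + lam j ≤ lam (i + j)) → lam 0 = 0 →
    (∀ i j, lam' i + lam' j ≤ lam' (i + j)) → Att lam → Att lam' →
    ∃ (e : Bool) (s : ℕ), 0 < s ∧ (0 ≤ lam' (sg e * s) + lam (-(sg e * s)) ∨
      (lam' (sg e * s) = lam (sg e * s) ∧ ∀ i : ℕ, lam (sg e * s * i) = i * lam (sg e * s)))

def S_ATT : Prop :=
  ND0 k R → ∀ (d : Fam R) (p : k) (s : ℕ), Lc d p s → ∀ (Γ : Calc d p) (lam : ℤ → ℤ) (c : ℕ),
    Lam Γ lam c → Att lam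

def S_PF1 : Prop :=
  ∀ (S : Type u) [Ring S] [Algebra k S] [FiniteDimensional k S] (σ : Anti k R S) (d : Fam R)
    (p : k), ∃ β : Lk σ d p, ∀ T : Md k R, T.fd → Injective (β.β T)

def S_PF : Prop :=
  ∀ (S : Type u) [Ring S] [Algebra k S] [FiniteDimensional k S] (σ : Anti k R S) (d : Fam R)
    (p : k), ∃ β : Lk σ d p, β.Perf

def S_DUALC : Prop :=
  ∀ (S : Type u) [Ring S] [Algebra k S] [FiniteDimensional k S] (σ : Anti k R S) (d : Fam R)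
    (p : k) (β : Lk σ d p), β.Perf → ∀ Γ : Calc d p,
    ∃ Γ' : Calc (d.op σ) p, (∀ e, Γ'.v e + Γ.v (!e) = Γ.w) ∧ Adj β Γ Γ'

def S_DIV : Prop :=
  ∀ (S : Type u) [Ring S] [Algebra k S] [FiniteDimensional k S] (σ : Anti k R S) (d : Fam R)
    (p : k) (β : Lk σ d p), β.Perf → ∀ (Γ : Calc d p) (Γ' : Calc (d.op σ) p), Adj β Γ Γ' →
    ∀ (lam' : ℤ → ℤ) (c : ℕ), Lam Γ' lam' c → ∀ (e : Bool) (s : ℕ),
      Γ.Dv (List.replicate s (!e)) (s * Γ'.v e + lam' (sg e * s))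

def S_O2A : Prop :=
  ∀ (d : Fam R) (p : k) (s0 : ℕ), Lc d p s0 → ∀ (Γ : Calc d p) (lam : ℤ → ℤ) (c : ℕ),
    Lam Γ lam c → ∀ (f : Bool) (s : ℕ) (δ : ℤ), 0 < s → Γ.Dv (List.replicate s f) δ →
    (s * Γ.w : ℤ) ≤ δ + s * Γ.v f + lam (sg f * s) → Γ.Bd f

def S_O2B : Prop :=
  ∀ (d : Fam R) (p : k) (s0 : ℕ), Lc d p s0 → ∀ (Γ : Calc d p) (lam : ℤ → ℤ) (c : ℕ),
    Lam Γ lam c → ∀ (e : Bool) (s : ℕ) (δ : ℤ), 0 < s → Γ.Dv (List.replicate s (!e)) δ →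
    δ + s * Γ.v (!e) = s * Γ.w + lam (sg e * s) →
    (∀ i : ℕ, lam (sg e * s * i) = i * lam (sg e * s)) → Γ.Bd (!e)

end
end Pool.Agent.P.MP_cf639b_al
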