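import Pool.Agent.P.MP_cf639b_al.Iface

/-! Inner statements for part G. -/

set_option linter.dupNamespace false

namespace Pool.Agent.P.MP_cf639b_al

universe u
open TensorProduct Polynomial Function

noncomputable section

/-- `L` is an ultrapower of `k` -/
structure UP (k : Type u) [Field k] (L : Type u) [Field L] [Algebra k L] where
  U : Ultrafilter ℕ
  cof : (U : Filter ℕ) ≤ Filter.cofinite
  ev : (ℕ → k) →ₐ[k] L
  surj : Surjective ev
  ker : ∀ c, ev c = 0 ↔ ∀ᶠ i in (U : Filter ℕ), c i = 0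

/-- `N` is the ultraproduct of the modules `A i` -/
structure UM {k : Type u} [Field k] {R : Type u} [Ring R] [Algebra k R] {L : Type u} [Field L]
    [Algebra k L] (P : UP k L) (A : ℕ → Md k R) (N : FO k R L) where
  e : (∀ i, A i) →ₗ[R] N.X
  surj : Surjective e
  ker : ∀ f, e f = 0 ↔ ∀ᶠ i in (P.U : Filter ℕ), f i = 0
  act : ∀ (c : ℕ → k) (f : ∀ i, A i), e (fun i => c i • f i) = N.act (P.ev c) (e f)

variable (k : Type u) [Field k] (R : Type u) [Ring R] [Algebra k R] [FiniteDimensional k R]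

def S_GUP : Prop :=
  ∃ (L : Type u) (_ : Field L) (_ : Algebra k L), IsAlgClosed L ∧ Nonempty (UP k L)

def S_GUM : Prop :=
  ∀ (L : Type u) [Field L] [Algebra k L] (P : UP k L) (A : ℕ → Md k R),
    ∃ N : FO k R L, Nonempty (UM P A N)

structure S_GBAS : Prop where
  dim : ∀ (L : Type u) [Field L] [Algebra k L] (P : UP k L) (A : ℕ → Md k R) (N : FO k R L)
    (_ : UM P A N) (d : ℕ), (∀ i, (A i).fd) → (∀ i, Module.finrank k (A i) = d) →
    N.fd ∧ N.dim = d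
  span : ∀ (L : Type u) [Field L] [Algebra k L] (P : UP k L) (A : ℕ → Md k R) (N : FO k R L)
    (E : UM P A N) (d : ℕ), (∀ i, (A i).fd) → (∀ i, Module.finrank k (A i) = d) →
    ∀ (κ : Type) [Fintype κ] (W : κ → ∀ i, A i),
    Submodule.span L (Set.range fun a => E.e (W a)) = ⊤ →
    ∀ᶠ i in (P.U : Filter ℕ), Submodule.span k (Set.range fun a => W a i) = ⊤
  loc : ∀ (L : Type u) [Field L] [Algebra k L] (P : UP k L) (A : ℕ → Md k R) (N : FO k R L)
    (_ : UM P A N) (d : ℕ), (∀ i, (A i).fd) → (∀ i, Module.finrank k (A i) = d) →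
    (∀ i, Indec R (A i)) → Loc N

def S_GCON : Prop :=
  ∀ (L : Type u) [Field L] [Algebra k L] (P : UP k L) (A : ℕ → Md k R) (N : FO k R L)
    (_ : UM P A N) (d : ℕ), (∀ i, (A i).fd) → (∀ i, Module.finrank k (A i) = d) → Const N →
    ∃ Q : Md k R, ∀ᶠ i in (P.U : Filter ℕ), Nonempty (Q ≃ₗ[R] A i)

def S_GJ : Prop :=
  ∀ (L : Type u) [Field L] [Algebra k L] (P : UP k L) (A : ℕ → Md k R) (N : FO k R L)
    (_ : UM P A N) (d : ℕ), (∀ i, (A i).fd) → (∀ i, Module.finrank k (A i) = d) →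
    ∀ (D : Fam R) (c : ℕ → k) (e : ℕ), IsoF N (MF D (J k (P.ev c) e)) →
    ∀ᶠ i in (P.U : Filter ℕ), ∃ f : M D (J k (c i) e).V →ₗ[R] A i, Surjective f

def S_GRK : Prop :=
  ∀ G : NF k R, IsAF G → ∃ (r : ℕ) (h : k[X]), h ≠ 0 ∧
    ∀ (F : Type u) [Field F] [Algebra k F] (y : F) (e : ℕ), aeval y h ≠ 0 →
      (G.onF (J k y e)).fd ∧ (G.onF (J k y e)).dim = r * e

def S_GBIM : Prop :=
  ∀ (T : Md k R) (z : Module.End R T) (s : Finset T),
    Submodule.span k {t | ∃ n : ℕ, ∃ w ∈ s, t = (z ^ n) w} = ⊤ →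
    ∃ (B : Bimod k R) (h : k[X]), h ≠ 0 ∧ ∀ c : k, h.eval c ≠ 0 →
      Nonempty ((T ⧸ LinearMap.range (z - c • (1 : Module.End R T))) ≃ₗ[R] B.spec c)

def S_GFAM : Prop :=
  ∀ (D : Fam R) (e : ℕ), ∃ (T : Md k R) (z : Module.End R T) (s : Finset T),
    Submodule.span k {t | ∃ n : ℕ, ∃ w ∈ s, t = (z ^ n) w} = ⊤ ∧ ∀ c : k,
      Nonempty ((T ⧸ LinearMap.range (z - c • (1 : Module.End R T))) ≃ₗ[R] M D (J k c e).V)

end
end Pool.Agent.P.MP_cf639b_al
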