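import Pool.Agent.P.MP_cf639b_al.OZ

/-! Statements of the steps of the proof of `S_O1`. -/

set_option linter.dupNamespace false

namespace Pool.Agent.P.MP_cf639b_al

universe u
open TensorProduct Polynomial Function

noncomputable section

section defs
variable {k : Type u} [Field k] {R : Type u} [Ring R] [Algebra k R]

/-- the value of a polynomial at `t` -/
def valT {K : Type u} [Field K] [Algebra k K] (t : K) (T : Md k R) : (ℕ →₀ T) →ₗ[k] K ⊗[k] T :=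
  Finsupp.lsum k fun l => TensorProduct.mk k K T (t ^ l)
@[simp] theorem valT_single {K : Type u} [Field K] [Algebra k K] (t : K) (T : Md k R) (l : ℕ)
    (y : T) : valT t T (Finsupp.single l y) = (t ^ l) ⊗ₜ[k] y := by simp [valT]
/-- the value of a polynomial solution at `t` -/
def val (d : Fam R) (T : Md k R) {K : Type u} [Field K] [Algebra k K] (t : K) :
    ZZ d T →ₗ[k] (Fin d.n0 → K ⊗[k] T) :=
  LinearMap.pi fun b => valT t T ∘ₗ LinearMap.proj b ∘ₗ ZZ.v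
theorem val_apply (d : Fam R) (T : Md k R) {K : Type u} [Field K] [Algebra k K] (t : K)
    (ξ : ZZ d T) (b : Fin d.n0) : val d T t ξ b = valT t T (ZZ.v ξ b) := rfl

/-- `P / H(t)` and `P' / H'(1/t)` induce the same map on rational solutions -/
def Cmp {d : Fam R} {Φ : AFun k R} {K : Type u} [Field K] [Algebra k K] (t : K) (P : Tr d Φ)
    (P' : Tr d.rev Φ) (H H' : k[X]) : Prop :=
  ∀ (T : Md k R) (ξ : ZZ d T) (η : ZZ d.rev T) (c : K), val d T t ξ = c • val d.rev T t⁻¹ η →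
    aeval t⁻¹ H' • val d (Φ.obj T) t (P.t T ξ) =
      (aeval t H * c) • val d.rev (Φ.obj T) t⁻¹ (P'.t T η)

/-- `P` gains `m` zeros at `p`, modulo short solutions -/
def LATp {d : Fam R} {Φ : AFun k R} (P : Tr d Φ) (p : k) (m : ℕ) : Prop :=
  ∃ σ : ℕ, ∀ (T : Md k R) (ξ : ZZ d T), ∃ η : ZZ d (Φ.obj T),
    P.t T ξ - ((X - C p) ^ m : k[X]) • η ∈ Zs d σ (Φ.obj T)
/-- `P` raises degrees by at most `m`, modulo short solutions -/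
def LATi {d : Fam R} {Φ : AFun k R} (P : Tr d Φ) (m : ℤ) : Prop :=
  ∃ σ : ℕ, ∀ (T : Md k R) (n : ℕ), ∀ ξ ∈ Zd d n T, ∃ (q : k[X]) (N : ℕ), q ≠ 0 ∧
    (N : ℤ) ≤ q.natDegree + n + m ∧ ∃ η ∈ Zd d N (Φ.obj T), q • P.t T ξ - η ∈ Zs d σ (Φ.obj T)
/-- the total loss of `P` is at most `c` -/
def Wd {d : Fam R} {Φ : AFun k R} (P : Tr d Φ) (S : Finset k) (c : ℕ) : Prop :=
  ∃ (m : k → ℕ) (m' : ℤ), (∀ p ∈ S, LATp P p (m p)) ∧ LATi P m' ∧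
    m' ≤ ((∑ p ∈ S, m p : ℕ) : ℤ) + c
/-- `P` is onto up to `h`, modulo short solutions -/
def TWc {d : Fam R} {Φ : AFun k R} (P : Tr d Φ) (h : k[X]) (a : ℕ) : Prop :=
  ∀ (T : Md k R) (ω : ZZ d (Φ.obj T)), ∃ ξ : ZZ d T, h • ω - P.t T ξ ∈ Zs d a (Φ.obj T)
/-- the conclusion of `S_L0` -/
def L0c (d : Fam R) (g : k[X]) : Prop :=
  g ≠ 0 ∧ ∀ (V : XV k) (u : EE d (M d V)) (h : k[X]), h ≠ 0 →
    aeval (EX d (M d V)) h u = 0 → ∃ v : V, aeval (EX d (M d V)) g u = Bock d V LinearMap.id v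
/-- a functional which lowers degrees by more than `a` -/
def Steep {d : Fam R} {T : Md k R} (a : ℕ) (φ : ZZ d T →ₗ[k[X]] k[X]) : Prop :=
  ∀ n : ℕ, ∀ ξ ∈ Zd d n T, φ ξ ≠ 0 → (φ ξ).natDegree + a + 1 ≤ n
variable (k) in
/-- the lifting property -/
def HLc (d : Fam R) : Prop :=
  ∃ (a1 a2 : ℕ) (G : k[X]), G ≠ 0 ∧ ∀ T : Md k R, T.fd → ∀ φ : ZZ d T →ₗ[k[X]] k[X],
    (∀ w ∈ Zs d a1 T, φ w = 0) → ∀ f : k[X], f ≠ 0 → ∀ b : ℕ,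
    ∃ (T' : Md k R) (g : T' →ₗ[R] T) (y : k), f.eval y ≠ 0 ∧
      (∀ ξ : ZZ d T, ∃ ξ' : ZZ d T', ((X - C y) ^ b * G) • ξ = zmap d g ξ') ∧
      (∀ n : ℕ, ∀ ξ ∈ Zd d n T, ∃ (q : k[X]) (N : ℕ), q ≠ 0 ∧ N ≤ q.natDegree + n + a2 ∧
        ∃ ξ' ∈ Zd d N T', q • ξ = zmap d g ξ') ∧
      ∀ ξ' : ZZ d T', (X - C y) ^ b ∣ φ (zmap d g ξ')

variable [FiniteDimensional k R]

variable (k) in
/-- natural translation data -/
structure TD (d : Fam R) where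
  Pp : Tr d (Tp : AFun k R)
  Pm : Tr d (Tm : AFun k R)
  hp : k[X]
  hm : k[X]
  hp0 : hp ≠ 0
  hm0 : hm ≠ 0
  Q : Md k R
  fd : Q.fd
  c : NT (MN (k := k) d) (TenN Q)
  b : NT (TenN Q) (MN d)
  Q' : Md k R
  fd' : Q'.fd
  c' : NT (MN (k := k) d) (TenN Q')
  b' : NT (TenN Q') (((MN d).post Tm).post Tp)
  ep : ∀ V : XV k, eps (M d V) ∘ₗ Pm.cA Pp V =
    (MN d).map (XH.pol V (hp * hm)) + b.app V ∘ₗ c.app V
  em : ∀ V : XV k, Pp.cA Pm V =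
    eta (M d V) ∘ₗ (MN d).map (XH.pol V (hp * hm)) + b'.app V ∘ₗ c'.app V

/-- `ε ∘ tr_- ∘ tr_+ = h` modulo short solutions -/
def RPc {d : Fam R} (D : TD k d) (a : ℕ) : Prop :=
  ∀ (T : Md k R) (ξ : ZZ d T),
    zmap d (eps T) (D.Pm.t _ (D.Pp.t T ξ)) - (D.hp * D.hm) • ξ ∈ Zs d a T
/-- the gains of the two directions are almost opposite -/
def WINc {d : Fam R} (D : TD k d) : Prop :=
  ∀ p : k, ∃ c : ℕ, ∀ s : ℕ, ∃ m m' : ℕ, LATp (D.Pp.pow s) p m ∧ LATp (D.Pm.pow s) p m' ∧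
    s * rootMultiplicity p (D.hp * D.hm) ≤ m + m' + c
end defs

variable (k : Type u) [Field k] (R : Type u) [Ring R] [Algebra k R] [FiniteDimensional k R]

structure S_OB : Prop where
  tf : ∀ (d : Fam R) (T : Md k R) (q : k[X]) (ξ : ZZ d T), q ≠ 0 → q • ξ = 0 → ξ = 0
  div : ∀ (d : Fam R) (T : Md k R) (q : k[X]) (hq : q.Monic) (ξ : ZZ d T),
    res d hq T ξ = 0 ↔ ∃ η : ZZ d T, ξ = q • η
  ker : ∀ (d : Fam R) (T : Md k R) (q : k[X]) (hq : q.Monic) (a : M d (Jq k q).V →ₗ[R] T),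
    Bock d (Jq k q).V a (1 : QT q) = 0 → ∃ ξ : ZZ d T, a = res d hq T ξ
  bock : ∀ (d : Fam R) (T : Md k R) (q : k[X]) (hq : q.Monic) (ξ : ZZ d T),
    Bock d (Jq k q).V (res d hq T ξ) = 0
  trb : ∀ (d : Fam R) (Φ : AFun k R) (P : Tr d Φ) (T : Md k R) (q : k[X]), q.Monic →
    ∀ a : M d (Jq k q).V →ₗ[R] T, Bock d (Jq k q).V a (1 : QT q) = 0 →
      Bock d (Jq k q).V (Φ.map a ∘ₗ P.A (Jq k q).V) = 0
  nice : ∀ e : Bool, Nice (Te e : AFun k R)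

def S_OTREX : Prop :=
  ∀ (d : Fam R) (Φ : AFun k R), (∀ Q : Md k R, Surjective (tenI Φ Q k[X])) →
    ∀ A : NT (MN (k := k) d) ((MN d).post Φ), ∃ P : Tr d Φ, ∀ V, P.A V = A.app V

structure S_OVAL : Prop where
  inj : ∀ (d : Fam R) (T : Md k R) (K : Type u) [Field K] [Algebra k K] (t : K),
    Transcendental k t → Injective (val d T t)
  smul : ∀ (d : Fam R) (T : Md k R) (K : Type u) [Field K] [Algebra k K] (t : K) (q : k[X])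
    (ξ : ZZ d T), val d T t (q • ξ) = aeval t q • val d T t ξ
  zmap : ∀ (d : Fam R) (T T' : Md k R) (K : Type u) [Field K] [Algebra k K] (t : K)
    (g : T →ₗ[R] T') (ξ : ZZ d T) (b : Fin d.n0),
    val d T' t (zmap d g ξ) b = LinearMap.lTensor K (g.restrictScalars k) (val d T t ξ b)
  rev : ∀ (d : Fam R) (T : Md k R) (j : ℕ), ∀ ξ ∈ Zd d j T, ∃ η ∈ Zd d.rev j T,
    ∀ (K : Type u) [Field K] [Algebra k K] (t : K), t ≠ 0 →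
      val d T t ξ = t ^ j • val d.rev T t⁻¹ η
  rev' : ∀ (d : Fam R) (T : Md k R) (j : ℕ), ∀ η ∈ Zd d.rev j T, ∃ ξ ∈ Zd d j T,
    ∀ (K : Type u) [Field K] [Algebra k K] (t : K), t ≠ 0 →
      val d T t ξ = t ^ j • val d.rev T t⁻¹ η
  evm : ∀ (d : Fam R) (T : Md k R) (K : Type u) [Field K] [Algebra k K] (t c : K)
    (ξ : ZZ d T) (η : ZZ d.rev T), val d T t ξ = c • val d.rev T t⁻¹ η ↔
      ∀ (μ : K →ₗ[k] k) (b : Fin d.n0) (v : K),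
        evm d (one k t).V μ T ξ (gen d (one k t).V b v) =
          evm d.rev (one k t⁻¹).V μ T η (gen d.rev (one k t⁻¹).V b (c * v))
  rho : ∀ (d : Fam R) (V : XV k) (y : Module.End k V), V.x * y = 1 → y * V.x = 1 →
    ∃ (ρ : M d V →ₗ[R] M d.rev ⟨V.T, y⟩) (ρ' : M d.rev ⟨V.T, y⟩ →ₗ[R] M d V),
      (∀ b v, ρ (gen d V b v) = gen d.rev ⟨V.T, y⟩ b v) ∧
      (∀ b v, ρ' (gen d.rev ⟨V.T, y⟩ b v) = gen d V b v) ∧
      ρ' ∘ₗ ρ = LinearMap.id ∧ ρ ∘ₗ ρ' = LinearMap.id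

def S_OCMP : Prop :=
  ∀ (d : Fam R) (K : Type u) [Field K] [Algebra k K] (t : K), Gen k t → CK (k := k) d t →
    ∃ (D : TD k d) (D' : TD k d.rev), Cmp t D.Pp D'.Pp D.hp D'.hp ∧
      Cmp t D.Pm D'.Pm D.hm D'.hm ∧ WINc D ∧ WINc D'

structure S_OLC : Prop where
  sh : ∀ (d : Fam R) (Φ : AFun k R) (P : Tr d Φ) (σ : ℕ), ∃ σ' : ℕ,
    ∀ T : Md k R, ∀ ξ ∈ Zs d σ T, P.t T ξ ∈ Zs d σ' (Φ.obj T)
  wd : ∀ (d : Fam R) (Φ Ψ : AFun k R) (P : Tr d Φ) (Q : Tr d Ψ)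
    (S : Finset k) (c c' : ℕ), Wd P S c → Wd Q S c' → Wd (Q.comp P) S (c + c')
  id : ∀ (d : Fam R) (S : Finset k), Wd (Tr.id (k := k) d) S 0
  core : ∀ (d : Fam R) (Φ : AFun k R) (P : Tr d Φ) (p : k) (N o : ℕ), o ≤ N →
    (piK d p (Φ.obj (M d (J k p N).V)) ^ o) (Emap d (P.A (J k p N).V) (eJ d p N)) = 0 →
    LATp P p (N - o)

def S_OTW : Prop :=
  ∀ (d : Fam R) (D : TD k d), ∃ a : ℕ,
    RPc D a ∧ TWc D.Pp (D.hp * D.hm) a ∧ TWc D.Pm (D.hp * D.hm) a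

structure S_OREV : Prop where
  lat : ∀ (d : Fam R) (Φ : AFun k R) (K : Type u) [Field K] [Algebra k K] (t : K),
    Transcendental k t → ∀ (P : Tr d Φ) (P' : Tr d.rev Φ) (H H' : k[X]) (m : ℕ), H' ≠ 0 →
    Cmp t P P' H H' → LATp P' 0 m →
    LATi P ((H.natDegree : ℤ) + rootMultiplicity 0 H' - m)
  pull : ∀ (d : Fam R) (T T' : Md k R) (g : T' →ₗ[R] T) (H : k[X]), H ≠ 0 →
    (∀ η : ZZ d.rev T, ∃ η' : ZZ d.rev T', H • η = zmap d.rev g η') →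
    ∀ n : ℕ, ∀ ξ ∈ Zd d n T, ∃ (q : k[X]) (N : ℕ), q ≠ 0 ∧
      N ≤ q.natDegree + n + rootMultiplicity 0 H ∧ ∃ ξ' ∈ Zd d N T', q • ξ = zmap d g ξ'

def S_OSN : Prop :=
  ∀ (d : Fam R) (B T' T : Md k R) (i : B →ₗ[R] T') (g : T' →ₗ[R] T),
    Injective i → Exact i g → Surjective g → ∀ ξ : ZZ d T, ∃ u : EE d B, Emap d i u = 0 ∧
      ∀ H : k[X], aeval (EX d B) H u = 0 → ∃ ξ' : ZZ d T', H • ξ = zmap d g ξ'

def S_OGAM : Prop :=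
  ∃ (K : Type u) (_ : Field K) (_ : Algebra k K) (t : K),
    ∀ (d : Fam R) (B T' : Md k R) (i : B →ₗ[R] T'),
      (∀ r : B →ₗ[R] Y d (one k t).V, ∃ r' : T' →ₗ[R] Y d (one k t).V, r' ∘ₗ i = r) →
      ∀ u : EE d B, Emap d i u = 0 → ∃ H : k[X], H ≠ 0 ∧ aeval (EX d B) H u = 0

def S_OHA : Prop :=
  ∀ (d : Fam R) (D : TD k d) (a : ℕ), RPc D a →
    ∀ (K : Type u) [Field K] [Algebra k K] (A1 A2 : FO k R K), A1.fd → A2.fd → ∃ a1 : ℕ,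
    ∀ T : Md k R, T.fd → ∀ φ : ZZ d T →ₗ[k[X]] k[X], (∀ w ∈ Zs d a1 T, φ w = 0) →
      ∀ f : k[X], f ≠ 0 → ∀ b : ℕ,
      ∃ (y : k) (T' : Md k R) (i : M d (J k y b).V →ₗ[R] T') (g : T' →ₗ[R] T), f.eval y ≠ 0 ∧
        Injective i ∧ Exact i g ∧ Surjective g ∧
        (∀ r : M d (J k y b).V →ₗ[R] A1.X, ∃ r' : T' →ₗ[R] A1.X, r' ∘ₗ i = r) ∧
        (∀ r : M d (J k y b).V →ₗ[R] A2.X, ∃ r' : T' →ₗ[R] A2.X, r' ∘ₗ i = r) ∧
        ∀ ξ' : ZZ d T', (X - C y) ^ b ∣ φ (zmap d g ξ')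

def S_OHL : Prop :=
  ∀ (d : Fam R) (g g' : k[X]), TD k d → L0c d g → L0c d.rev g' → HLc k d

def S_OMIN : Prop :=
  ∀ (d : Fam R) (T : Md k R) (a : ℕ), T.fd → ¬ Short d a T →
    ∃ φ : ZZ d T →ₗ[k[X]] k[X], φ ≠ 0 ∧ Steep a φ

def S_OMAIN : Prop :=
  ∀ (d : Fam R) (Φ : AFun k R) (P : Tr d Φ) (h : k[X]) (a c : ℕ) (S : Finset k), Nice Φ →
    h ≠ 0 → TWc P h a → HLc k d → (∀ s, Wd (P.pow s) S c) →
    ∀ T : Md k R, T.fd → ∃ a' : ℕ, ∀ s, Short d a' ((Φ.it s).obj T)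

end
end Pool.Agent.P.MP_cf639b_al
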