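import Mathlib

/-! Definitions used in the final statement: representation type and Krull-Gabriel filtration.
`S`-modules are left modules; right `R`-modules are the case `S = Rᵐᵒᵖ`. -/

namespace Pool.Agent.P.MP_cf639b_al

universe u v
open CategoryTheory Polynomial

noncomputable section

/-- a `k[x]`-`S` bimodule which is free of finite rank over `k[x]` -/
structure Bimod (k : Type u) [Field k] (S : Type u) [Ring S] [Algebra k S] where
  T : Type u
  [ag : AddCommGroup T]
  [mk' : Module k T]
  [mx : Module k[X] T]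
  [ms : Module S T]
  [t1 : IsScalarTower k k[X] T]
  [t2 : IsScalarTower k S T]
  [cm : SMulCommClass k[X] S T]
  [free : Module.Free k[X] T]
  [fin : Module.Finite k[X] T]

attribute [instance] Bimod.ag Bimod.mk' Bimod.mx Bimod.ms Bimod.t1 Bimod.t2 Bimod.cm Bimod.free
  Bimod.fin

variable (k : Type u) [Field k] (S : Type u) [Ring S] [Algebra k S]

variable {k S} in
/-- the `S`-module `k[x]/(x-c) ⊗ B = B/(x-c)B` -/
abbrev Bimod.spec (B : Bimod k S) (c : k) : Type u :=
  B.T ⧸ LinearMap.range (DistribSMul.toLinearMap S B.T (X - C c : k[X]))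

/-- indecomposable module -/
def Indec (A : Type u) [AddCommGroup A] [Module S A] : Prop :=
  Nontrivial A ∧ ∀ N N' : Submodule S A, IsCompl N N' → N = ⊥ ∨ N' = ⊥

/-- `m` bimodules parametrize all but finitely many indecomposables of dimension `d` -/
def TameAt (d m : ℕ) : Prop :=
  ∃ (B : Fin m → Bimod k S) (n : ℕ) (E : Fin n → ModuleCat.{u} S),
    ∀ (A : Type u) [AddCommGroup A] [Module k A] [Module S A] [IsScalarTower k S A],
      Module.finrank k A = d → Indec S A →
        (∃ i c, Nonempty (A ≃ₗ[S] (B i).spec c)) ∨ ∃ j, Nonempty (A ≃ₗ[S] E j)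

/-- tame representation type -/
def Tame : Prop := ∀ d ≥ 1, ∃ m, TameAt k S d m

/-- domestic representation type: the numbers of bimodules needed are bounded -/
def Domestic : Prop := ∃ N, ∀ d ≥ 1, ∃ m ≤ N, TameAt k S d m

/-- functors from finitely generated modules to abelian groups -/
abbrev Fn : Type (u + 1) := FGModuleCat.{u} S ⥤ AddCommGrpCat.{u}

variable {S}

/-- finitely presented additive functor: `Hom(B,-) → Hom(A,-) → G → 0` is exact -/
def FP (G : Fn S) : Prop :=
  G.Additive ∧ ∃ (A B : FGModuleCat.{u} S) (f : A ⟶ B) (a : G.obj A), ∀ T : FGModuleCat.{u} S,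
    (∀ z : G.obj T, ∃ g : A ⟶ T, G.map g a = z) ∧
    ∀ g : A ⟶ T, G.map g a = 0 ↔ ∃ h : B ⟶ T, g = f ≫ h

open Classical in
/-- `G` is finitely presented and has finite length modulo the class `Z`: in chains
`H 0 ⊆ H 1 ⊆ ... ⊆ H m ⊆ G` of finitely presented subfunctors the number of factors
`Q i = H (i+1) / H i` outside `Z` is bounded -/
def Step (Z : Fn S → Prop) (G : Fn S) : Prop :=
  FP G ∧ ∃ n : ℕ, ∀ (m : ℕ) (H Q : ℕ → Fn S) (i : ∀ l, H l ⟶ H (l + 1))
    (p : ∀ l, H (l + 1) ⟶ Q l) (j : H m ⟶ G),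
    (∀ l ≤ m, FP (H l)) → (∀ l < m, FP (Q l)) →
    (∀ l < m, ∀ T, Function.Injective ((i l).app T) ∧
      Function.Exact ((i l).app T) ((p l).app T) ∧ Function.Surjective ((p l).app T)) →
    (∀ T, Function.Injective (j.app T)) →
    ((Finset.range m).filter fun l => ¬ Z (Q l)).card ≤ n

variable (S) in
/-- the Krull-Gabriel filtration `C_α` -/
def KGC (a : Ordinal.{v}) : Fn S → Prop :=
  Ordinal.limitRecOn a (Step fun G => ∀ T, Subsingleton (G.obj T)) (fun _ Z => Step Z)
    (fun a _ Z G => ∃ b, ∃ h : b < a, Z b h G)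

variable (S) in
/-- the Krull-Gabriel dimension is undefined: no `C_α` is everything -/
def KGInfinite : Prop := ∀ a : Ordinal.{v}, ∃ G : Fn S, FP G ∧ ¬ KGC S a G

end
end Pool.Agent.P.MP_cf639b_al
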