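import Pool.Agent.P.MP_cf639b_al.Pairs
import Pool.Agent.P.MP_cf639b_al.Stmt

/-! Statements of all the steps of the proof. Each step is proved in its own file `T/<NAME>.lean`
as an implication between these statements. -/

set_option linter.dupNamespace false

namespace Pool.Agent.P.MP_cf639b_al

universe u v
open TensorProduct Polynomial Function

noncomputable section

section defs
variable {k : Type u} [Field k] {R : Type u} [Ring R] [Algebra k R]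

/-- `q ↦ q ⊗ v` -/
def tmr (Q : Md k R) (V : Type u) [AddCommGroup V] [Module k V] :
    V →ₗ[k] (Q →ₗ[R] (TenA V).obj Q) where
  toFun v :=
    { toFun := fun q => q ⊗ₜ[k] v
      map_add' := fun _ _ => add_tmul _ _ _
      map_smul' := fun _ _ => (smul_tmul' _ _ _).symm }
  map_add' _ _ := LinearMap.ext fun _ => tmul_add _ _ _
  map_smul' _ _ := LinearMap.ext fun _ => tmul_smul _ _ _
theorem tmr_apply (Q : Md k R) (V : Type u) [AddCommGroup V] [Module k V] (v : V) (q : Q) :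
    tmr Q V v q = q ⊗ₜ[k] v := rfl

/-- the canonical map `Φ Q ⊗ V → Φ (Q ⊗ V)` -/
def tenI (Φ : AFun k R) (Q : Md k R) (V : Type u) [AddCommGroup V] [Module k V] :
    (TenA V).obj (Φ.obj Q) →ₗ[R] Φ.obj ((TenA V).obj Q) :=
  AlgebraTensorModule.lift
    { toFun := fun z => (LinearMap.applyₗ (R := k) z) ∘ₗ
        (LinearMap.restrictScalarsₗ k R _ _ k) ∘ₗ Φ.map ∘ₗ tmr Q V
      map_add' := fun _ _ => LinearMap.ext fun _ => by simp
      map_smul' := fun _ _ => LinearMap.ext fun _ => by simp }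
theorem tenI_tmul (Φ : AFun k R) (Q : Md k R) (V : Type u) [AddCommGroup V] [Module k V]
    (z : Φ.obj Q) (v : V) : tenI Φ Q V (z ⊗ₜ[k] v) = Φ.map (tmr Q V v) z := rfl

instance {S : Type u} [Ring S] [Algebra k S] {F : Type u} [Field F] [Algebra k F] (σ : Anti k R S)
    (A : FO k R F) : Module F (DT σ A) := FO.module (DF σ A)

/-- evaluation `A → D D A` -/
def Dev {S : Type u} [Ring S] [Algebra k S] {F : Type u} [Field F] [Algebra k F] (σ : Anti k R S)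
    (A : FO k R F) : A.X →ₗ[R] DT σ.symm (DF σ A) where
  toFun t := DT.of σ.symm
    { toFun := fun h => (h : DT σ A) t
      map_add' := fun _ _ => rfl
      map_smul' := fun _ _ => rfl }
  map_add' t t' := DT.ext fun h => map_add (h : DT σ A) t t'
  map_smul' r t := DT.ext fun h => by
    change (h : DT σ A) (r • t) = (h : DT σ A) (σ.e.symm (σ.e r) • t)
    rw [LinearEquiv.symm_apply_apply]
theorem Dev_apply {S : Type u} [Ring S] [Algebra k S] {F : Type u} [Field F] [Algebra k F]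
    (σ : Anti k R S) (A : FO k R F) (t : A.X) (h : DT σ A) : Dev σ A t h = h t := rfl

/-- composite of the first `n` maps of a chain -/
def chain (A : ℕ → Md k R) (j : ∀ i, A i →ₗ[R] A (i + 1)) : ∀ n, A 0 →ₗ[R] A n
  | 0 => LinearMap.id
  | n + 1 => j n ∘ₗ chain A j n

/-- chains of pp-definable subgroups of `N` between `W'` and `W` have length at most `n` -/
def PLen (N U : Md k R) (W' W : Submodule k (U →ₗ[R] N)) (n : ℕ) : Prop :=
  ∀ (m : ℕ) (χ : ℕ → PP U), (∀ i < m, (χ i).ev N < (χ (i + 1)).ev N) → W' ≤ (χ 0).ev N →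
    (χ m).ev N ≤ W → m ≤ n

/-- `w` is the `c`-th coefficient of `q z`, `deg z ≤ m`, `D z` vanishing in degrees `r,...,m` -/
def StrA (d : Fam R) (q : k[X]) (m c : ℕ) (T : Md k R) (w : Fin d.n0 → T) : Prop :=
  ∃ z : Fin d.n0 → ℕ →₀ T, (∀ b l, m < l → z b l = 0) ∧
    (∀ a l, d.r ≤ l → l ≤ m → DX d T z a l = 0) ∧
    ∀ b, w b = aeval ((shift R T).restrictScalars k : Module.End k (ℕ →₀ T)) q (z b) c
/-- the span of the coefficients of the solutions of degree at most `a` -/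
def StrB (d : Fam R) (a : ℕ) (T : Md k R) : Submodule k (Fin d.n0 → T) :=
  Submodule.span k {w | ∃ z ∈ Zle d a T, ∃ l, w = fun b => z b l}
end defs

variable (k : Type u) [Field k] (R : Type u) [Ring R] [Algebra k R] [FiniteDimensional k R]

/-! ### Library -/

structure S_PP : Prop where
  top : ∀ U : Md k R, U.fd → ∃ φ : PP U, ∀ T, φ.ev T = ⊤
  bot : ∀ U : Md k R, ∃ φ : PP U, ∀ T, φ.ev T = ⊥
  sup : ∀ (U : Md k R) (φ ψ : PP U), ∃ χ : PP U, ∀ T, χ.ev T = φ.ev T ⊔ ψ.ev T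
  inf : ∀ (U : Md k R) (φ ψ : PP U), ∃ χ : PP U, ∀ T, χ.ev T = φ.ev T ⊓ ψ.ev T
  push : ∀ (U U' : Md k R) (g : U →ₗ[R] U') (φ : PP U'), ∃ χ : PP U,
    ∀ T t, t ∈ χ.ev T ↔ ∃ t' ∈ φ.ev T, t = t' ∘ₗ g
  pull : ∀ (U U' : Md k R), U'.fd → ∀ (g : U →ₗ[R] U') (φ : PP U), ∃ χ : PP U',
    ∀ T t, t ∈ χ.ev T ↔ t ∘ₗ g ∈ φ.ev T
  cc : ∀ (Q T : Md k R) (π : Pr k R), CC Q T → π.Open T → π.Open Q
  smd : ∀ (T T' : Md k R) (i : T →ₗ[R] T') (p : T' →ₗ[R] T) (π : Pr k R),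
    p ∘ₗ i = LinearMap.id → π.Open T → π.Open T'
  iso : ∀ (T T' : Md k R) (f : T →ₗ[R] T'), Bijective f → SameS T T'

def S_NDND : Prop := ND0 k R → ND k R

def S_DPP : Prop :=
  ∀ (S : Type u) [Ring S] [Algebra k S] [FiniteDimensional k S] (σ : Anti k R S) (n : ℕ) (φ : PP (free k R n)),
    ∃ φ' : PP (free k S n), ∀ (F : Type u) [Field F] [Algebra k F] (A : FO k R F), A.fd →
      ∀ t' : free k S n →ₗ[S] (DF σ A).X, t' ∈ φ'.ev (DF σ A).X ↔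
        ∀ t ∈ φ.ev A.X, ∑ i, (t' (Pi.single i 1) : DT σ A) (t (Pi.single i 1)) = 0

def S_DUAL : Prop :=
  ∀ (S : Type u) [Ring S] [Algebra k S] [FiniteDimensional k S] (σ : Anti k R S) (π : Pr k R), ∃ π' : Pr k S,
    ∀ (F : Type u) [Field F] [Algebra k F] (A : FO k R F), A.fd →
      (π.Open A.X ↔ π'.Open (DF σ A).X)

def S_NDOP : Prop :=
  ∀ (S : Type u) [Ring S] [Algebra k S] [FiniteDimensional k S], Anti k R S → ND0 k S → ND0 k R

structure S_FD : Prop where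
  ofk : ∀ A : FO k R k, A.fd ↔ A.X.fd
  dimk : ∀ A : FO k R k, A.dim = Module.finrank k A.X
  one : ∀ (F : Type u) [Field F] [Algebra k F] (y : F), (one k y).fd ∧ (one k y).dim = 1
  jq : ∀ (F : Type u) [Field F] [Algebra k F] (q : F[X]), q.Monic →
    (Jq k q).fd ∧ (Jq k q).dim = q.natDegree
  m : ∀ (F : Type u) [Field F] [Algebra k F] (d : Fam R) (V : FXV k F), V.fd → (MF d V).fd
  y : ∀ (F : Type u) [Field F] [Algebra k F] (d : Fam R) (V : FXV k F), V.fd → (YF d V).fd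
  te : ∀ (F : Type u) [Field F] [Algebra k F] (e : Bool) (A : FO k R F), A.fd →
    ((Te e).onF A).fd
  tn : ∀ (F : Type u) [Field F] [Algebra k F] (e : Bool) (n : ℕ) (A : FO k R F), A.fd →
    ((Tn e n).onF A).fd
  pa : ∀ (F : Type u) [Field F] [Algebra k F] (A : FO k R F), A.fd → (PA.onF A).fd
  ia : ∀ (F : Type u) [Field F] [Algebra k F] (A : FO k R F), A.fd → (IA.onF A).fd
  ten : ∀ (F : Type u) [Field F] [Algebra k F] (Q : Md k R) (V : FXV k F), Q.fd → V.fd →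
    ((TenN Q).onF V).fd ∧ ((TenN Q).onF V).dim = Module.finrank k Q * V.dim
  t0 : ∀ (F : Type u) [Field F] [Algebra k F], (T0F k R F).fd
  tw : ∀ (F : Type u) [Field F] [Algebra k F] (A : FO k R F) (σ : F ≃ₐ[k] F),
    (A.fd → (A.tw σ).fd) ∧ (A.tw σ).dim = A.dim
  hom : ∀ (F : Type u) [Field F] [Algebra k F] (A B : FO k R F), A.fd → B.fd →
    Module.Finite F (HomF A B)
  homU : ∀ (F : Type u) [Field F] [Algebra k F] (U : Md k R) (A : FO k R F), U.fd → A.fd →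
    Module.Finite F (U →ₗ[R] A.X)
  tek : ∀ (e : Bool) (T : Md k R), T.fd → ((Te e).obj T).fd
  tnk : ∀ (e : Bool) (n : ℕ) (T : Md k R), T.fd → ((Tn e n).obj T).fd
  tzk : ∀ (j : ℤ) (T : Md k R), T.fd → ((Tz j).obj T).fd
  mfd : ∀ (d : Fam R) (V : XV k), Module.Finite k V → (M d V).fd ∧ (Y d V).fd
  t0k : (T0 k R).fd

structure S_ID : Prop where
  p0_le : ∀ (F : Type u) [Field F] [Algebra k F] (A B : FO k R F), P0 A B ≤ HomF A B
  i0_le : ∀ (F : Type u) [Field F] [Algebra k F] (A B : FO k R F), I0 A B ≤ HomF A B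
  p0_l : ∀ (F : Type u) [Field F] [Algebra k F] (A B C : FO k R F), ∀ f ∈ P0 A B,
    ∀ g ∈ HomF B C, g ∘ₗ f ∈ P0 A C
  p0_r : ∀ (F : Type u) [Field F] [Algebra k F] (A B C : FO k R F), ∀ f ∈ P0 B C,
    ∀ g ∈ HomF A B, f ∘ₗ g ∈ P0 A C
  i0_l : ∀ (F : Type u) [Field F] [Algebra k F] (A B C : FO k R F), ∀ f ∈ I0 A B,
    ∀ g ∈ HomF B C, g ∘ₗ f ∈ I0 A C
  i0_r : ∀ (F : Type u) [Field F] [Algebra k F] (A B C : FO k R F), ∀ f ∈ I0 B C,
    ∀ g ∈ HomF A B, f ∘ₗ g ∈ I0 A C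
  pP_mem : ∀ (F : Type u) [Field F] [Algebra k F] (A : FO k R F), pP A.X ∈ HomF (PA.onF A) A
  iI_mem : ∀ (F : Type u) [Field F] [Algebra k F] (A : FO k R F), iI A.X ∈ HomF A (IA.onF A)
  pP_nat : ∀ (T T' : Md k R) (g : T →ₗ[R] T'), g ∘ₗ pP T = pP T' ∘ₗ PA.map g
  iI_nat : ∀ (T T' : Md k R) (g : T →ₗ[R] T'), iI T' ∘ₗ g = IA.map g ∘ₗ iI T
  eps_nat : ∀ (T T' : Md k R) (g : T →ₗ[R] T'), g ∘ₗ eps T = eps T' ∘ₗ Tm.map (Tp.map g)
  eta_nat : ∀ (T T' : Md k R) (g : T →ₗ[R] T'), eta T' ∘ₗ g = Tp.map (Tm.map g) ∘ₗ eta T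
  eps_mem : ∀ (F : Type u) [Field F] [Algebra k F] (A : FO k R F),
    eps A.X ∈ HomF (Tm.onF (Tp.onF A)) A
  eta_mem : ∀ (F : Type u) [Field F] [Algebra k F] (A : FO k R F),
    eta A.X ∈ HomF A (Tp.onF (Tm.onF A))
  iso_refl : ∀ (F : Type u) [Field F] [Algebra k F] (A : FO k R F), IsoF A A
  iso_symm : ∀ (F : Type u) [Field F] [Algebra k F] (A B : FO k R F), IsoF A B → IsoF B A
  iso_trans : ∀ (F : Type u) [Field F] [Algebra k F] (A B C : FO k R F),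
    IsoF A B → IsoF B C → IsoF A C
  iso_inv : ∀ (F : Type u) [Field F] [Algebra k F] (A B : FO k R F), ∀ f ∈ HomF A B,
    Bijective f → ∃ g ∈ HomF B A, g ∘ₗ f = LinearMap.id ∧ f ∘ₗ g = LinearMap.id
  iso_fd : ∀ (F : Type u) [Field F] [Algebra k F] (A B : FO k R F), IsoF A B →
    (A.fd → B.fd) ∧ A.dim = B.dim
  smd_fd : ∀ (F : Type u) [Field F] [Algebra k F] (A B : FO k R F), Smd A B → B.fd →
    A.fd ∧ A.dim ≤ B.dim
  iso_map : ∀ (F : Type u) [Field F] [Algebra k F] (Φ : AFun k R) (A B : FO k R F),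
    IsoF A B → IsoF (Φ.onF A) (Φ.onF B)
  theta_iso : ∀ (F : Type u) [Field F] [Algebra k F] (A B : FO k R F),
    IsoF A B → Theta A → Theta B
  one_J : ∀ (F : Type u) [Field F] [Algebra k F] (y : F),
    ∃ (g : XH (J k y 1).V (one k y).V) (g' : XH (one k y).V (J k y 1).V),
      XLin _ _ g ∧ XLin _ _ g' ∧ XH.comp g g' = XH.id _ ∧ XH.comp g' g = XH.id _ ∧
      g.1 (1 : JT y 1) = (1 : F) ∧ g'.1 (1 : F) = (1 : JT y 1)
  iso_one_J : ∀ (F : Type u) [Field F] [Algebra k F] (G : NF k R) (y : F),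
    IsoF (G.onF (J k y 1)) (G.onF (one k y))

structure S_QQ : Prop where
  le : ∀ (F : Type u) [Field F] [Algebra k F] (e : Bool) (A B : FO k R F), QQ e A B ≤ HomF A B
  l : ∀ (F : Type u) [Field F] [Algebra k F] (e : Bool) (A B C : FO k R F), ∀ f ∈ QQ e A B,
    ∀ g ∈ HomF B C, g ∘ₗ f ∈ QQ e A C
  r : ∀ (F : Type u) [Field F] [Algebra k F] (e : Bool) (A B C : FO k R F), ∀ f ∈ QQ e B C,
    ∀ g ∈ HomF A B, f ∘ₗ g ∈ QQ e A C
  p0 : ∀ (F : Type u) [Field F] [Algebra k F] (e : Bool) (A B : FO k R F), A.fd →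
    P0 A B ≤ QQ e A B
  i0 : ∀ (F : Type u) [Field F] [Algebra k F] (e : Bool) (A B : FO k R F), A.fd →
    I0 A B ≤ QQ e A B
  te : ∀ (F : Type u) [Field F] [Algebra k F] (e : Bool) (A B : FO k R F), ∀ f ∈ QQ e A B,
    (Te e).map f ∈ QQ e ((Te e).onF A) ((Te e).onF B)
  tw : ∀ (F : Type u) [Field F] [Algebra k F] (e : Bool) (A B : FO k R F) (σ : F ≃ₐ[k] F),
    ∀ f ∈ QQ e A B, f ∈ QQ e (A.tw σ) (B.tw σ)
  sum : ∀ (F : Type u) [Field F] [Algebra k F] (e : Bool) (A B : FO k R F), ∀ f ∈ QQ e A B,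
    ∃ (n : ℕ) (m : Fin n → ℕ) (a : ∀ i, A.X →ₗ[R] ((Tn e (m i)).onF (T0F k R F)).X)
      (b : ∀ i, ((Tn e (m i)).onF (T0F k R F)).X →ₗ[R] B.X),
      (∀ i, a i ∈ HomF A ((Tn e (m i)).onF (T0F k R F))) ∧
      (∀ i, b i ∈ HomF ((Tn e (m i)).onF (T0F k R F)) B) ∧ f = ∑ i, b i ∘ₗ a i
  t0p : ∀ (F : Type u) [Field F] [Algebra k F] (A B : FO k R F), ∀ a ∈ HomF A (T0F k R F),
    ∀ b ∈ HomF (T0F k R F) B, b ∘ₗ a ∈ P0 A B ⊔ I0 A B

def S_TEN : Prop :=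
  ∀ (e : Bool) (Q : Md k R) (V : Type u) [AddCommGroup V] [Module k V],
    Bijective (tenI (Te e) Q V)

structure S_CST : Prop where
  le : ∀ (F : Type u) [Field F] [Algebra k F] (A B : FO k R F) f, Cst A B f → f ∈ HomF A B
  zero : ∀ (F : Type u) [Field F] [Algebra k F] (A B : FO k R F), Cst A B 0
  add : ∀ (F : Type u) [Field F] [Algebra k F] (A B : FO k R F) f g,
    Cst A B f → Cst A B g → Cst A B (f + g)
  neg : ∀ (F : Type u) [Field F] [Algebra k F] (A B : FO k R F) f, Cst A B f → Cst A B (-f)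
  l : ∀ (F : Type u) [Field F] [Algebra k F] (A B C : FO k R F) f, Cst A B f →
    ∀ g ∈ HomF B C, Cst A C (g ∘ₗ f)
  r : ∀ (F : Type u) [Field F] [Algebra k F] (A B C : FO k R F) f, Cst B C f →
    ∀ g ∈ HomF A B, Cst A C (f ∘ₗ g)
  p0 : ∀ (F : Type u) [Field F] [Algebra k F] (A B : FO k R F), B.fd → ∀ f ∈ P0 A B, Cst A B f
  i0 : ∀ (F : Type u) [Field F] [Algebra k F] (A B : FO k R F), A.fd → ∀ f ∈ I0 A B, Cst A B f
  te : ∀ (F : Type u) [Field F] [Algebra k F] (e : Bool) (A B : FO k R F) f, Cst A B f →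
    Cst ((Te e).onF A) ((Te e).onF B) ((Te e).map f)
  cte : ∀ (F : Type u) [Field F] [Algebra k F] (e : Bool) (n : ℕ),
    Const ((Tn e n).onF (T0F k R F))
  zx : ∀ (F : Type u) [Field F] [Algebra k F] (d : Fam R) (V : FXV k F), V.V.x = 0 →
    (MF d V).fd → Const (MF d V)

structure S_DD : Prop where
  fd : ∀ (S : Type u) [Ring S] [Algebra k S] [FiniteDimensional k S] (σ : Anti k R S) (F : Type u) [Field F] [Algebra k F]
    (A : FO k R F), A.fd → (DF σ A).fd ∧ (DF σ A).dim = A.dim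
  ev_mem : ∀ (S : Type u) [Ring S] [Algebra k S] [FiniteDimensional k S] (σ : Anti k R S) (F : Type u) [Field F]
    [Algebra k F] (A : FO k R F), Dev σ A ∈ HomF A (DF σ.symm (DF σ A))
  ev_bij : ∀ (S : Type u) [Ring S] [Algebra k S] [FiniteDimensional k S] (σ : Anti k R S) (F : Type u) [Field F]
    [Algebra k F] (A : FO k R F), A.fd → Bijective (Dev σ A)
  full : ∀ (S : Type u) [Ring S] [Algebra k S] [FiniteDimensional k S] (σ : Anti k R S) (F : Type u) [Field F]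
    [Algebra k F] (A B : FO k R F), A.fd → B.fd → ∀ g ∈ HomF (DF σ B) (DF σ A),
    ∃ (f : A.X →ₗ[R] B.X) (hf : f ∈ HomF A B), g = Dmap σ hf
  iso : ∀ (S : Type u) [Ring S] [Algebra k S] [FiniteDimensional k S] (σ : Anti k R S) (F : Type u) [Field F]
    [Algebra k F] (A B : FO k R F), IsoF A B → IsoF (DF σ A) (DF σ B)
  loc : ∀ (S : Type u) [Ring S] [Algebra k S] [FiniteDimensional k S] (σ : Anti k R S) (F : Type u) [Field F]
    [Algebra k F] (A : FO k R F), A.fd → Loc A → Loc (DF σ A)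
  const : ∀ (S : Type u) [Ring S] [Algebra k S] [FiniteDimensional k S] (σ : Anti k R S) (F : Type u) [Field F]
    [Algebra k F] (A : FO k R F), Const A → Const (DF σ A)
  cst : ∀ (S : Type u) [Ring S] [Algebra k S] [FiniteDimensional k S] (σ : Anti k R S) (F : Type u) [Field F]
    [Algebra k F] (A B : FO k R F) (f : A.X →ₗ[R] B.X) (hf : f ∈ HomF A B),
    Cst A B f → Cst (DF σ B) (DF σ A) (Dmap σ hf)
  i0 : ∀ (S : Type u) [Ring S] [Algebra k S] [FiniteDimensional k S] (σ : Anti k R S) (F : Type u) [Field F]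
    [Algebra k F] (A B : FO k R F) (f : A.X →ₗ[R] B.X) (hf : f ∈ HomF A B), A.fd →
    f ∈ I0 A B → Dmap σ hf ∈ P0 (DF σ B) (DF σ A)
  p0 : ∀ (S : Type u) [Ring S] [Algebra k S] [FiniteDimensional k S] (σ : Anti k R S) (F : Type u) [Field F]
    [Algebra k F] (A B : FO k R F) (f : A.X →ₗ[R] B.X) (hf : f ∈ HomF A B),
    f ∈ P0 A B → Dmap σ hf ∈ I0 (DF σ B) (DF σ A)
  tw : ∀ (S : Type u) [Ring S] [Algebra k S] [FiniteDimensional k S] (σ : Anti k R S) (F : Type u) [Field F]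
    [Algebra k F] (A : FO k R F) (τ : F ≃ₐ[k] F), IsoF (DF σ (A.tw τ)) ((DF σ A).tw τ)

def S_DMY : Prop :=
  ∀ (S : Type u) [Ring S] [Algebra k S] [FiniteDimensional k S] (σ : Anti k R S) (F : Type u)
    [Field F] [Algebra k F] (d : Fam R) (y : F),
    IsoF (DF σ (MF d (one k y))) (YF (d.op σ) (one k y)) ∧
    IsoF (DF σ (YF d (one k y))) (MF (d.op σ) (one k y))

structure S_ST : Prop where
  eps_inv : ∀ (F : Type u) [Field F] [Algebra k F] (A : FO k R F),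
    ∃ g ∈ HomF A (Tm.onF (Tp.onF A)), eps A.X ∘ₗ g - LinearMap.id ∈ P0 A A ∧
      g ∘ₗ eps A.X - LinearMap.id ∈ P0 (Tm.onF (Tp.onF A)) (Tm.onF (Tp.onF A))
  eta_inv : ∀ (F : Type u) [Field F] [Algebra k F] (A : FO k R F),
    ∃ g ∈ HomF (Tp.onF (Tm.onF A)) A, g ∘ₗ eta A.X - LinearMap.id ∈ I0 A A ∧
      eta A.X ∘ₗ g - LinearMap.id ∈ I0 (Tp.onF (Tm.onF A)) (Tp.onF (Tm.onF A))
  tri_p : ∀ (F : Type u) [Field F] [Algebra k F] (A : FO k R F),
    Tp.map (eps A.X) ∘ₗ eta (Tp.obj A.X) - LinearMap.id ∈ I0 (Tp.onF A) (Tp.onF A)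
  tri_m : ∀ (F : Type u) [Field F] [Algebra k F] (A : FO k R F),
    eps (Tm.obj A.X) ∘ₗ Tm.map (eta A.X) - LinearMap.id ∈ P0 (Tm.onF A) (Tm.onF A)
  tp : ∀ (F : Type u) [Field F] [Algebra k F] (A B : FO k R F), ∀ f ∈ P0 A B,
    Tp.map f ∈ I0 (Tp.onF A) (Tp.onF B)
  tm : ∀ (F : Type u) [Field F] [Algebra k F] (A B : FO k R F), ∀ f ∈ I0 A B,
    Tm.map f ∈ P0 (Tm.onF A) (Tm.onF B)
  full_p : ∀ (F : Type u) [Field F] [Algebra k F] (A B : FO k R F),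
    ∀ g ∈ HomF (Tp.onF A) (Tp.onF B), ∃ f ∈ HomF A B, g - Tp.map f ∈ I0 (Tp.onF A) (Tp.onF B)
  refl_p : ∀ (F : Type u) [Field F] [Algebra k F] (A B : FO k R F), ∀ f ∈ HomF A B,
    Tp.map f ∈ I0 (Tp.onF A) (Tp.onF B) → f ∈ P0 A B

def S_ZETA : Prop :=
  ∀ d : Fam R, ∃ z : NT (YN (k := k) d) ((MN d).post Tp),
    ∀ (F : Type u) [Field F] [Algebra k F] (V : FXV k F),
      ∃ g ∈ HomF (Tp.onF (MF d V)) (YF d V),
        g ∘ₗ z.app V.V - LinearMap.id ∈ I0 (YF d V) (YF d V) ∧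
        z.app V.V ∘ₗ g - LinearMap.id ∈ I0 (Tp.onF (MF d V)) (Tp.onF (MF d V))

def S_EXT : Prop :=
  ∀ (F : Type u) [Field F] [Algebra k F] (A B : FO k R F), A.fd → B.fd →
    ∀ h : HomF B (Tp.onF A) →ₗ[F] F, (∀ ψ : HomF B (Tp.onF A), ψ.1 ∈ I0 B (Tp.onF A) → h ψ = 0) →
    ∃ (Z : FO k R F) (i : B.X →ₗ[R] Z.X) (p : Z.X →ₗ[R] A.X), Z.fd ∧ i ∈ HomF B Z ∧
      p ∈ HomF Z A ∧ Injective i ∧ Exact i p ∧ Surjective p ∧
      (∀ (Q : FO k R F) (r : B.X →ₗ[R] Q.X) (hr : r ∈ HomF B Q),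
        (∃ r' ∈ HomF Z Q, r' ∘ₗ i = r) ↔
          ∀ ψ (hψ : ψ ∈ HomF Q (Tp.onF A)), h ⟨ψ ∘ₗ r, HomF.comp hψ hr⟩ = 0) ∧
      (∀ (A' : FO k R F) (b : A'.X →ₗ[R] A.X) (hb : b ∈ HomF A' A),
        (∃ b' ∈ HomF A' Z, p ∘ₗ b' = b) ↔
          ∀ ψ (hψ : ψ ∈ HomF B (Tp.onF A')),
            h ⟨Tp.map b ∘ₗ ψ, HomF.comp (Tp.map_mem hb) hψ⟩ = 0)

def S_ALS : Prop :=
  ∀ N : Md k R, N.fd → Loc (FO.ofMd N) → ∃ (Z : Md k R) (i : N →ₗ[R] Z), Z.fd ∧
    ∀ (Q : Md k R) (r : N →ₗ[R] Q),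
      (∃ r' : Z →ₗ[R] Q, r' ∘ₗ i = r) ↔ ¬ ∃ s : Q →ₗ[R] N, s ∘ₗ r = LinearMap.id

structure S_BOCK : Prop where
  x : ∀ (d : Fam R) (V : XV k) (T : Md k R) (a : M d V →ₗ[R] T) (v : V),
    Bock d V a (V.x v) = EX d T (Bock d V a v)
  comp : ∀ (d : Fam R) (V : XV k) (T T' : Md k R) (a : M d V →ₗ[R] T) (g : T →ₗ[R] T') (v : V),
    Bock d V (g ∘ₗ a) v = Emap d g (Bock d V a v)
  eq : ∀ (d : Fam R) (V : XV k) (T : Md k R) (a : M d V →ₗ[R] T) (v : V),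
    Bock d V a v = Emap d a (Bock d V LinearMap.id v)
  map : ∀ (d : Fam R) (V V' : XV k) (T : Md k R) (a : M d V' →ₗ[R] T) (g : XH V V') (v : V),
    Bock d V (a ∘ₗ (MN d).map g) v = Bock d V' a (g.1 v)
  pol : ∀ (d : Fam R) (V : XV k) (T : Md k R) (a : M d V →ₗ[R] T) (h : k[X]) (v : V),
    Bock d V a (aeval V.x h v) = aeval (EX d T) h (Bock d V a v)
  emap_pol : ∀ (d : Fam R) (T T' : Md k R) (g : T →ₗ[R] T') (h : k[X]) (u : EE d T),
    Emap d g (aeval (EX d T) h u) = aeval (EX d T') h (Emap d g u)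
  emap_piK : ∀ (d : Fam R) (p : k) (T T' : Md k R) (g : T →ₗ[R] T') (n : ℕ) (u : EE d T),
    Emap d g ((piK d p T ^ n) u) = (piK d p T' ^ n) (Emap d g u)
  emap_piE : ∀ (F : Type u) [Field F] [Algebra k F] (d : Fam R) (y : F) (A B : FO k R F),
    ∀ g ∈ HomF A B, ∀ (n : ℕ) (u : EE d A.X),
    Emap d g ((piE d A y ^ n) u) = (piE d B y ^ n) (Emap d g u)
  emap_polE : ∀ (F : Type u) [Field F] [Algebra k F] (d : Fam R) (q : F[X]) (A B : FO k R F),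
    ∀ g ∈ HomF A B, ∀ u : EE d A.X, Emap d g (polE d A q u) = polE d B q (Emap d g u)
  piE_k : ∀ (F : Type u) [Field F] [Algebra k F] (d : Fam R) (p : k) (A : FO k R F),
    piE d A (algebraMap k F p) = piK d p A.X
  piE_pol : ∀ (F : Type u) [Field F] [Algebra k F] (d : Fam R) (y : F) (A : FO k R F) (n : ℕ)
    (u : EE d A.X), polE d A ((X - C y) ^ n) u = (piE d A y ^ n) u
  polE_k : ∀ (F : Type u) [Field F] [Algebra k F] (d : Fam R) (h : k[X]) (A : FO k R F)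
    (u : EE d A.X), polE d A (h.map (algebraMap k F)) u = aeval (EX d A.X) h u
  piK_pol : ∀ (d : Fam R) (p : k) (T : Md k R), piK d p T = aeval (EX d T) (X - C p : k[X])
  jq : ∀ (F : Type u) [Field F] [Algebra k F] (d : Fam R) (q h : F[X]) (A : FO k R F),
    ∀ a ∈ HomF (MF d (Jq k q)) A,
    Bock d (Jq k q).V a (Qmk q h) = polE d A h (Bock d (Jq k q).V a (1 : QT q))
  ej_map : ∀ (F : Type u) [Field F] [Algebra k F] (d : Fam R) (y : F) (n m : ℕ),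
    Emap d ((MN d).map (jm k y n m)) (eJ d y n) =
      (piE d (MF d (J k y m)) y ^ (m - n)) (eJ d y m)
  ej_zero : ∀ (F : Type u) [Field F] [Algebra k F] (d : Fam R) (y : F) (n : ℕ),
    (piE d (MF d (J k y n)) y ^ n) (eJ d y n) = 0
  ek_zero : ∀ (F : Type u) [Field F] [Algebra k F] (d : Fam R) (y : F),
    piE d (MF d (one k y)) y (eK d y) = 0
  hat_x : ∀ (d : Fam R) (V : XV k) (T : Md k R) (b : T →ₗ[R] Y d V) (u : EE d T),
    hat d V b (EX d T u) = V.x (hat d V b u)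
  hat_pol : ∀ (d : Fam R) (V : XV k) (T : Md k R) (b : T →ₗ[R] Y d V) (h : k[X]) (u : EE d T),
    hat d V b (aeval (EX d T) h u) = aeval V.x h (hat d V b u)
  hat_comp : ∀ (d : Fam R) (V : XV k) (T T' : Md k R) (b : T' →ₗ[R] Y d V) (g : T →ₗ[R] T')
    (u : EE d T), hat d V (b ∘ₗ g) u = hat d V b (Emap d g u)
  hat_map : ∀ (d : Fam R) (V V' : XV k) (T : Md k R) (b : T →ₗ[R] Y d V) (g : XH V V')
    (u : EE d T), hat d V' ((YN d).map g ∘ₗ b) u = g.1 (hat d V b u)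
  hat_add : ∀ (d : Fam R) (V : XV k) (T : Md k R) (b b' : T →ₗ[R] Y d V),
    hat d V (b + b') = hat d V b + hat d V b'
  hat_sub : ∀ (d : Fam R) (V : XV k) (T : Md k R) (b b' : T →ₗ[R] Y d V),
    hat d V (b - b') = hat d V b - hat d V b'
  hat_inj : ∀ (d : Fam R) (V : XV k) (T : Md k R) (b b' : T →ₗ[R] Y d V),
    hat d V b = hat d V b' → b = b'
  hat_surj : ∀ (d : Fam R) (V : XV k) (T : Md k R) (β : EE d T →ₗ[k] V),
    (∀ u, β (EX d T u) = V.x (β u)) → ∃ b : T →ₗ[R] Y d V, hat d V b = β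
  hat_lin : ∀ (F : Type u) [Field F] [Algebra k F] (d : Fam R) (V : FXV k F) (A : FO k R F)
    (b : A.X →ₗ[R] Y d V.V), b ∈ HomF A (YF d V) ↔
      ∀ (c : F) (u : EE d A.X), hat d V.V b (Emap d (A.act c) u) = V.act c (hat d V.V b u)
  hat_jq : ∀ (F : Type u) [Field F] [Algebra k F] (d : Fam R) (q h : F[X]) (A : FO k R F),
    ∀ b ∈ HomF A (YF d (Jq k q)), ∀ u : EE d A.X,
    hat d (Jq k q).V b (polE d A h u) = Qmk q h * (hat d (Jq k q).V b u : QT q)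

structure S_REP : Prop where
  rep : ∀ (F : Type u) [Field F] [Algebra k F] (d : Fam R) (A : FO k R F) (q : F[X]), q.Monic →
    ∀ u : EE d A.X, polE d A q u = 0 →
      ∃ a ∈ HomF (MF d (Jq k q)) A, u = Bock d (Jq k q).V a (1 : QT q)
  res : ∀ (F : Type u) [Field F] [Algebra k F] (d : Fam R) (A : FO k R F) (q : F[X])
    (hq : q.Monic) (z : Fin d.n0 → ℕ →₀ A.X), DX d A.X z = 0 →
      ∃ a ∈ HomF (MF d (Jq k q)) A, IsRes d hq A a z ∧ Bock d (Jq k q).V a = 0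
  ker : ∀ (F : Type u) [Field F] [Algebra k F] (d : Fam R) (A : FO k R F) (q : F[X])
    (hq : q.Monic), ∀ a ∈ HomF (MF d (Jq k q)) A, Bock d (Jq k q).V a (1 : QT q) = 0 →
      ∃ z : Fin d.n0 → ℕ →₀ A.X, DX d A.X z = 0 ∧ IsRes d hq A a z
  ext : ∀ (F : Type u) [Field F] [Algebra k F] (d : Fam R) (A : FO k R F) (y : F) (n m : ℕ),
    n ≤ m → ∀ a ∈ HomF (MF d (J k y n)) A, Bock d (J k y n).V a (1 : JT y n) = 0 →
      ∃ a' ∈ HomF (MF d (J k y m)) A, a' ∘ₗ (MN d).map (jm k y n m) = a ∧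
        Bock d (J k y m).V a' = 0
  repJ : ∀ (F : Type u) [Field F] [Algebra k F] (d : Fam R) (A : FO k R F) (y : F) (n : ℕ)
    (u : EE d A.X), (piE d A y ^ n) u = 0 →
      ∃ a ∈ HomF (MF d (J k y n)) A, u = Emap d a (eJ d y n)
  repk : ∀ (d : Fam R) (T : Md k R) (p : k) (n : ℕ) (u : EE d T), (piK d p T ^ n) u = 0 →
      ∃ a : M d (J k p n).V →ₗ[R] T, u = Emap d a (eJ d p n)

structure S_NOE : Prop where
  fin : ∀ (F : Type u) [Field F] [Algebra k F] (d : Fam R) (A : FO k R F), A.fd →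
    Module.Finite F[X] (Module.AEval' (EXF d A))
  expo : ∀ (F : Type u) [Field F] [Algebra k F] (d : Fam R) (A : FO k R F), A.fd → ∀ y : F,
    ∃ e : ℕ, ∀ t, Trs (piE d A y) t → (piE d A y ^ e) t = 0
  expok : ∀ (d : Fam R) (T : Md k R), T.fd → ∀ p : k, ∃ e : ℕ, Expo d p e T
  short : ∀ (F : Type u) [Field F] [Algebra k F] (d : Fam R) (A : FO k R F), A.fd →
    ∃ a, Short d a A.X
  kill : ∀ (d : Fam R) (T : Md k R), T.fd → ∃ f : k[X], f ≠ 0 ∧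
    ∀ (u : EE d T) (g : k[X]), g ≠ 0 → aeval (EX d T) g u = 0 → aeval (EX d T) f u = 0
  acc : ∀ (F : Type u) [Field F] [Algebra k F] (d : Fam R) (A : FO k R F), A.fd →
    ∀ W : ℕ → Submodule F (EE d A.X), Monotone W → (∀ n, ∀ u ∈ W n, EX d A.X u ∈ W n) →
    ∃ n0, ∀ n ≥ n0, W n = W n0
  short_mono : ∀ (d : Fam R) (T : Md k R) (a b : ℕ), a ≤ b → Short d a T → Short d b T
  expo_mono : ∀ (d : Fam R) (p : k) (T : Md k R) (a b : ℕ), a ≤ b → Expo d p a T → Expo d p b T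

def S_CO : Prop :=
  ∀ (F : Type u) [Field F] [Algebra k F] (d : Fam R) (A : FO k R F), A.fd → ∀ (y : F) (N : ℕ),
    (∀ t, Trs (piE d A y) t → (piE d A y ^ N) t = 0) → ∀ t, Trs (piE d A y) t →
    ∃ b ∈ HomF A (YF d (J k y N)), ∀ m : ℕ,
      Jmk y N ((X - C y) ^ m) * (hat d (J k y N).V b t : JT y N) = 0 ↔ (piE d A y ^ m) t = 0

structure S_CC : Prop where
  refl : ∀ Q : Md k R, CC Q Q
  trans : ∀ Q Q' T : Md k R, CC Q Q' → CC Q' T → CC Q T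
  smd : ∀ (Q T T' : Md k R) (i : T →ₗ[R] T') (p : T' →ₗ[R] T), p ∘ₗ i = LinearMap.id →
    CC Q T' → CC Q T
  te : ∀ (e : Bool) (Q T : Md k R), CC Q T → CC ((Te e).obj Q) ((Te e).obj T)
  tn : ∀ (e : Bool) (n : ℕ) (Q T : Md k R), CC Q T → CC ((Tn e n).obj Q) ((Tn e n).obj T)
  tz : ∀ (j : ℤ) (Q T : Md k R), CC Q T → CC ((Tz j).obj Q) ((Tz j).obj T)
  ten : ∀ (Q : Md k R) (V : XV k), CC Q ((TenN Q).obj V)
  t0 : ∀ V : XV k, CC (T0 k R) (T0N.obj V)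
  pa : ∀ T : Md k R, CC (T0 k R) (PA.obj T)
  ia : ∀ T : Md k R, CC (T0 k R) (IA.obj T)
  jk : ∀ (F : Type u) [Field F] [Algebra k F] (d : Fam R) (p : k) (n : ℕ),
    CC (M d (J k p n).V) (M d (J k (algebraMap k F p) n).V)
  zx : ∀ (d : Fam R) (V : XV k), V.x = 0 → CC (M d (one k (0 : k)).V) (M d V)
  ksp : ∀ (d : Fam R) (V : XV k), KSp V → CC (M d (one k (RatFunc.X : RatFunc k)).V) (M d V)
  expo : ∀ (d : Fam R) (p : k) (a : ℕ) (Q T : Md k R), CC Q T → Expo d p a Q → Expo d p a T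
  short : ∀ (d : Fam R) (a : ℕ) (Q T : Md k R), CC Q T → Short d a Q → Short d a T
  kill : ∀ (d : Fam R) (f : k[X]) (Q T : Md k R), CC Q T →
    (∀ (u : EE d Q) (g : k[X]), g ≠ 0 → aeval (EX d Q) g u = 0 → aeval (EX d Q) f u = 0) →
    ∀ (u : EE d T) (g : k[X]), g ≠ 0 → aeval (EX d T) g u = 0 → aeval (EX d T) f u = 0

def S_NOTOR : Prop :=
  ∀ (d : Fam R) (Q : Md k R), Q.fd → ∃ f : k[X], f ≠ 0 ∧
    ∀ (F : Type u) [Field F] [Algebra k F] (A : FO k R F), CC Q A.X → ∀ y : F, aeval y f ≠ 0 →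
      Injective (piE d A y)

structure S_AF : Prop where
  m : ∀ d : Fam R, IsAF (MN (k := k) d)
  y : ∀ d : Fam R, IsAF (YN (k := k) d)
  te : ∀ (e : Bool) (G : NF k R), IsAF G → IsAF (G.post (Te e))
  ten : ∀ Q : Md k R, Q.fd → IsAF (TenN Q)

def S_AF1 : Prop :=
  ∀ (G H : NF k R), IsAF G → IsAF H → ∀ (K : Type u) [Field K] [Algebra k K] (t : K), Gen k t →
    ∀ f ∈ HomF (G.onF (one k t)) (H.onF (one k t)), ∃ (h : k[X]) (a : NT G H), h ≠ 0 ∧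
      a.app (one k t).V = H.map (XH.pol _ h) ∘ₗ f

def S_AF2 : Prop :=
  ∀ (G H : NF k R), IsAF G → IsAF H → ∀ (K : Type u) [Field K] [Algebra k K] (t : K),
    Transcendental k t → ∀ a : NT G H, a.app (one k t).V = 0 →
      ∃ h : k[X], h ≠ 0 ∧ ∀ V, H.map (XH.pol V h) ∘ₗ a.app V = 0

structure S_KS : Prop where
  dec : ∀ (F : Type u) [Field F] [Algebra k F] (A : FO k R F), A.fd →
    ∃ (n : ℕ) (T : Fin n → FO k R F), (∀ i, Loc (T i)) ∧ Decomp A T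
  sum : ∀ (F : Type u) [Field F] [Algebra k F] (A : FO k R F), Loc A →
    ∀ (ι : Type) (s : Finset ι) (u : ι → A.X →ₗ[R] A.X), (∀ i ∈ s, u i ∈ HomF A A) →
    Bijective (∑ i ∈ s, u i) → ∃ i ∈ s, Bijective (u i)
  smd_of : ∀ (F : Type u) [Field F] [Algebra k F] (A B : FO k R F), ∀ a ∈ HomF A B,
    ∀ b ∈ HomF B A, Bijective (b ∘ₗ a) → Smd A B
  exch : ∀ (F : Type u) [Field F] [Algebra k F] (A B : FO k R F) (ι : Type) [Fintype ι]
    (T : ι → FO k R F), Loc A → Decomp B T → Smd A B → ∃ i, Smd A (T i)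
  smd_iso : ∀ (F : Type u) [Field F] [Algebra k F] (A B : FO k R F), Nontrivial A.X → Loc B →
    Smd A B → IsoF A B
  split_bij : ∀ (F : Type u) [Field F] [Algebra k F] (A B : FO k R F), Nontrivial A.X → Loc B →
    ∀ a ∈ HomF A B, ∀ b ∈ HomF B A, Bijective (b ∘ₗ a) → Bijective a ∧ Bijective b
  loc_iso : ∀ (F : Type u) [Field F] [Algebra k F] (A B : FO k R F), IsoF A B → Loc A → Loc B
  loc_tw : ∀ (F : Type u) [Field F] [Algebra k F] (A : FO k R F) (σ : F ≃ₐ[k] F),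
    Loc A → Loc (A.tw σ)
  compl : ∀ (F : Type u) [Field F] [Algebra k F] (A B : FO k R F), Smd A B →
    ∃ C : FO k R F, IsoF B (A.prod C)
  indec : ∀ (F : Type u) [Field F] [Algebra k F] (A : FO k R F), A.fd → Nontrivial A.X →
    (∀ u ∈ HomF A A, u ∘ₗ u = u → u = 0 ∨ u = LinearMap.id) → Loc A

def S_BCLOC : Prop :=
  ∀ (F : Type u) [Field F] [Algebra k F] (Q : Md k R), Q.fd → Loc (FO.ofMd Q) → Loc (TenF F Q)

def S_CANCEL : Prop :=
  ∀ (F : Type u) [Field F] [Algebra k F] (A B Z : FO k R F), A.fd → B.fd → Z.fd →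
    IsoF (A.prod Z) (B.prod Z) → IsoF A B

structure S_AUT : Prop where
  aut : ∀ (L : Type u) [Field L] [Algebra k L] [IsAlgClosed L] (s : Set L) (a b : L),
    TrO k s a → TrO k s b → ∃ σ : L ≃ₐ[k] L, (∀ c ∈ s, σ c = c) ∧ σ a = b
  mono : ∀ (L : Type u) [Field L] [Algebra k L] (s s' : Set L) (a : L), s ⊆ s' →
    TrO k s' a → TrO k s a
  tr : ∀ (L : Type u) [Field L] [Algebra k L] (s : Set L) (a : L), TrO k s a → Transcendental k a
  empty : ∀ (L : Type u) [Field L] [Algebra k L] (a : L), Transcendental k a → TrO k ∅ a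
  ne : ∀ (L : Type u) [Field L] [Algebra k L] (s : Set L) (a : L), TrO k s a → a ∉ s
  exch : ∀ (L : Type u) [Field L] [Algebra k L] (s : Set L) (a b : L),
    TrO k s a → TrO k (insert a s) b → TrO k (insert b s) a
  alg : ∀ (L : Type u) [Field L] [Algebra k L] (s s' : Set L) (a : L),
    TrO k s a → (∀ c ∈ s', ¬ TrO k s c) → TrO k (s ∪ s') a
  map : ∀ (L : Type u) [Field L] [Algebra k L] (s : Set L) (a : L) (σ : L ≃ₐ[k] L),
    TrO k s a → TrO k (σ '' s) (σ a)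
  orbit : ∀ (L : Type u) [Field L] [Algebra k L] (s : Set L) (a : L), ¬ TrO k s a →
    {b : L | ∃ σ : L ≃ₐ[k] L, (∀ c ∈ s, σ c = c) ∧ σ a = b}.Finite
  gen : Gen k (RatFunc.X : RatFunc k)
  gen_inv : ∀ (K : Type u) [Field K] [Algebra k K] (t : K), Gen k t → Gen k t⁻¹
  emb : ∀ (K : Type u) [Field K] [Algebra k K] (t : K), Gen k t →
    ∀ (L : Type u) [Field L] [Algebra k L] (y : L), Transcendental k y →
    ∃ ι : K →ₐ[k] L, ι t = y
  big : ∃ (L : Type u) (_ : Field L) (_ : Algebra k L), Big k L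

structure S_TW : Prop where
  mem : ∀ (F : Type u) [Field F] [Algebra k F] (A B : FO k R F) (σ : F ≃ₐ[k] F)
    (f : A.X →ₗ[R] B.X), f ∈ HomF A B ↔ f ∈ HomF (A.tw σ) (B.tw σ)
  iso : ∀ (F : Type u) [Field F] [Algebra k F] (A B : FO k R F) (σ : F ≃ₐ[k] F),
    IsoF A B → IsoF (A.tw σ) (B.tw σ)
  j : ∀ (F : Type u) [Field F] [Algebra k F] (G : NF k R) (y : F) (n : ℕ) (σ : F ≃ₐ[k] F),
    IsoF ((G.onF (J k y n)).tw σ) (G.onF (J k (σ y) n))
  one : ∀ (F : Type u) [Field F] [Algebra k F] (G : NF k R) (y : F) (σ : F ≃ₐ[k] F),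
    IsoF ((G.onF (one k y)).tw σ) (G.onF (one k (σ y)))
  const : ∀ (F : Type u) [Field F] [Algebra k F] (A : FO k R F) (σ : F ≃ₐ[k] F),
    Const A → IsoF (A.tw σ) A
  piE : ∀ (F : Type u) [Field F] [Algebra k F] (d : Fam R) (A : FO k R F) (y : F)
    (σ : F ≃ₐ[k] F), piE d (A.tw σ) (σ y) = piE d A y
  afun : ∀ (F : Type u) [Field F] [Algebra k F] (Φ : AFun k R) (A : FO k R F) (σ : F ≃ₐ[k] F),
    (Φ.onF A).tw σ = Φ.onF (A.tw σ)
  dec : ∀ (F : Type u) [Field F] [Algebra k F] (A : FO k R F) (ι : Type) [Fintype ι]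
    (T : ι → FO k R F) (σ : F ≃ₐ[k] F), Decomp A T → (∀ i, IsoF ((T i).tw σ) (T i)) →
    IsoF (A.tw σ) A

def S_COMP : Prop :=
  ∀ T : Md k R, DCC T → ∀ (U G : Md k R), U.fd → ∀ (a : U →ₗ[R] G) (b : U →ₗ[R] T),
    (∀ φ : PP U, a ∈ φ.ev G → b ∈ φ.ev T) → ∃ f : G →ₗ[R] T, b = f ∘ₗ a

structure S_ORB : Prop where
  dcc : ∀ (F : Type u) [Field F] [Algebra k F] (A : FO k R F), A.fd → DCC A.X
  min : ∀ (F : Type u) [Field F] [Algebra k F] (A : FO k R F), A.fd → ∀ U : Md k R, U.fd →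
    ∀ p : Set (PP U), p.Nonempty →
      (∀ φ ∈ p, ∀ ψ ∈ p, ∃ χ ∈ p, χ.ev A.X ≤ φ.ev A.X ⊓ ψ.ev A.X) →
      ∃ φ ∈ p, ∀ ψ ∈ p, φ.ev A.X ≤ ψ.ev A.X
  orb : ∀ (F : Type u) [Field F] [Algebra k F] (A : FO k R F), A.fd → ∀ U : Md k R, U.fd →
    ∀ a : U →ₗ[R] A.X, ∃ φ : PP U, ∀ b, b ∈ φ.ev A.X ↔ ∃ f : A.X →ₗ[R] A.X, b = f ∘ₗ a

structure S_PG : Prop where
  alJ : ∀ (F : Type u) [Field F] [Algebra k F] (f : k[X]) (y : F) (n : ℕ), aeval y f ≠ 0 →
    Allowed true f (J k y n).V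
  alOne : ∀ (F : Type u) [Field F] [Algebra k F] (f : k[X]) (y : F), aeval y f ≠ 0 →
    Allowed true f (one k y).V
  alK : ∀ (f : k[X]) (V : XV k), f ≠ 0 → KSp V → Allowed true f V
  kspJ : ∀ (F : Type u) [Field F] [Algebra k F] (y : F) (n : ℕ), Transcendental k y →
    KSp (J k y n).V
  kspOne : ∀ (F : Type u) [Field F] [Algebra k F] (y : F), Transcendental k y → KSp (one k y).V
  decF : ∀ (H : PG k R) (F : Type u) [Field F] [Algebra k F] (V V' : FXV k F),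
    Allowed true H.D.f V.V → Allowed true H.D.f V'.V → ∀ a ∈ HomF (MF H.d V) (MF H.d V'),
    ∃ g : XH V.V V'.V, XLin V V' g ∧ a - (MN H.d).map g ∈ H.D.J H.v V.V H.v V'.V
  nilp : ∀ (D : RD k R) (v : D.ι) (V : XV k), Allowed (D.K v) D.f V →
    ∀ j ∈ D.J v V v V, IsNilpotent (j : Module.End R (M (D.d v) V))
  unit : ∀ (D : RD k R) (v : D.ι) (V V' : XV k), Allowed (D.K v) D.f V → Allowed (D.K v) D.f V' →
    ∀ a : M (D.d v) V →ₗ[R] M (D.d v) V', ∀ j ∈ D.J v V v V', Bijective a → Bijective (a + j)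
  nilc : ∀ (H : PG k R) (V : ℕ → XV k), (∀ i, Allowed true H.D.f (V i)) →
    ∀ j : ∀ i, M H.d (V i) →ₗ[R] M H.d (V (i + 1)),
    (∀ i, j i ∈ H.D.J H.v (V i) H.v (V (i + 1))) → chain (fun i => M H.d (V i)) j H.D.s = 0
  nt : ∀ (H : PG k R) (V : XV k), Allowed true H.D.f V → Nontrivial V → Nontrivial (M H.d V)
  locJ : ∀ (H : PG k R) (F : Type u) [Field F] [Algebra k F] (y : F) (n : ℕ),
    aeval y H.D.f ≠ 0 → Loc (MF H.d (J k y (n + 1)))
  ordJ : ∀ (H : PG k R) (F : Type u) [Field F] [Algebra k F] (y : F) (n : ℕ),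
    aeval y H.D.f ≠ 0 → (piE H.d (MF H.d (J k y (n + 1))) y ^ n) (eJ H.d y (n + 1)) ≠ 0
  torsJ : ∀ (H : PG k R) (F : Type u) [Field F] [Algebra k F] (y : F) (n : ℕ),
    aeval y H.D.f ≠ 0 → ∀ u, Trs (piE H.d (MF H.d (J k y n)) y) u →
    ∃ v, u = Bock H.d (J k y n).V LinearMap.id v
  junkJ : ∀ (H : PG k R) (F : Type u) [Field F] [Algebra k F] (y y' : F) (n n' : ℕ),
    aeval y H.D.f ≠ 0 → aeval y' H.D.f ≠ 0 → y ≠ y' →
    ∀ a ∈ HomF (MF H.d (J k y n)) (MF H.d (J k y' n')), a ∈ H.D.J H.v _ H.v _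
  notorJ : ∀ (H : PG k R) (F : Type u) [Field F] [Algebra k F] (y y' : F) (n : ℕ),
    aeval y H.D.f ≠ 0 → aeval y' H.D.f ≠ 0 → y ≠ y' →
    Injective (piE H.d (MF H.d (J k y n)) y')
  isoJ : ∀ (H : PG k R) (F : Type u) [Field F] [Algebra k F] (y y' : F) (n n' : ℕ),
    aeval y H.D.f ≠ 0 → aeval y' H.D.f ≠ 0 →
    IsoF (MF H.d (J k y (n + 1))) (MF H.d (J k y' (n' + 1))) → y = y'
  unitG : ∀ (H : PG k R) (u : H.G →ₗ[R] H.G), Bijective u ∨ u ∈ H.JG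
  alG : ∀ H : PG k R, Allowed (H.D.K H.v) H.D.f (one k (RatFunc.X : RatFunc k)).V
  fdG : ∀ H : PG k R, H.GF.fd
  ntG : ∀ H : PG k R, Nontrivial H.G
  infG : ∀ H : PG k R, ¬ H.G.fd
  nc : ∀ (H : PG k R) (F : Type u) [Field F] [Algebra k F] (y : F) (n : ℕ), Transcendental k y →
    ∀ Q : Md k R, Q.fd → ¬ CC Q (M H.d (J k y (n + 1)).V)
  nconst : ∀ (H : PG k R) (F : Type u) [Field F] [Algebra k F] (y : F) (n : ℕ),
    Transcendental k y → ¬ Const (MF H.d (J k y (n + 1)))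

structure S_SAMES : Prop where
  ksp : ∀ (d : Fam R) (V : XV k), Nontrivial V → KSp V →
    SameS (M d V) (M d (one k (RatFunc.X : RatFunc k)).V)
  j : ∀ (d : Fam R) (F : Type u) [Field F] [Algebra k F] (y : F) (n : ℕ), Transcendental k y →
    SameS (M d (J k y (n + 1)).V) (M d (one k (RatFunc.X : RatFunc k)).V)

/-! ### Parts A and B -/

def S_WT : Prop := Wild k R → ¬ ND0 k R

def S_RED : Prop :=
  ND0 k R → ∀ (F : Type u) [Field F] [Algebra k F] (N : FO k R F) (E : Type u) [Ring E]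
    [Module E N.X] [SMulCommClass E R N.X], IsFiniteLength E N.X →
    ∃ (D : RD k R) (V : D.ι → FXV k F),
      (∀ v, if D.K v then KSp (V v).V else (V v).V.x = 0) ∧
      Decomp N (fun v => MF (D.d v) (V v))

/-! ### Part C -/

def S_JORD : Prop :=
  ∀ (F : Type u) [Field F] [Algebra k F] [IsAlgClosed F] (V : FXV k F), V.fd →
    ∃ (n : ℕ) (y : Fin n → F) (m : Fin n → ℕ) (i : ∀ l, XH (J k (y l) (m l + 1)).V V.V)
      (p : ∀ l, XH V.V (J k (y l) (m l + 1)).V), (∀ l, XLin _ _ (i l)) ∧ (∀ l, XLin _ _ (p l)) ∧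
      (∀ l, XH.comp (p l) (i l) = XH.id _) ∧ (∀ l l', l ≠ l' → XH.comp (p l') (i l) = 0) ∧
      ∑ l, XH.comp (i l) (p l) = XH.id _

/-- the whole library, for all algebras -/
structure Lib : Prop where
  aut : S_AUT k
  jord : S_JORD k
  pp : ∀ (S : Type u) [Ring S] [Algebra k S] [FiniteDimensional k S], S_PP k S
  ndnd : ∀ (S : Type u) [Ring S] [Algebra k S] [FiniteDimensional k S], S_NDND k S
  dpp : ∀ (S : Type u) [Ring S] [Algebra k S] [FiniteDimensional k S], S_DPP k S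
  dual : ∀ (S : Type u) [Ring S] [Algebra k S] [FiniteDimensional k S], S_DUAL k S
  ndop : ∀ (S : Type u) [Ring S] [Algebra k S] [FiniteDimensional k S], S_NDOP k S
  fd : ∀ (S : Type u) [Ring S] [Algebra k S] [FiniteDimensional k S], S_FD k S
  id : ∀ (S : Type u) [Ring S] [Algebra k S] [FiniteDimensional k S], S_ID k S
  qq : ∀ (S : Type u) [Ring S] [Algebra k S] [FiniteDimensional k S], S_QQ k S
  ten : ∀ (S : Type u) [Ring S] [Algebra k S] [FiniteDimensional k S], S_TEN k S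
  cst : ∀ (S : Type u) [Ring S] [Algebra k S] [FiniteDimensional k S], S_CST k S
  dd : ∀ (S : Type u) [Ring S] [Algebra k S] [FiniteDimensional k S], S_DD k S
  dmy : ∀ (S : Type u) [Ring S] [Algebra k S] [FiniteDimensional k S], S_DMY k S
  st : ∀ (S : Type u) [Ring S] [Algebra k S] [FiniteDimensional k S], S_ST k S
  zeta : ∀ (S : Type u) [Ring S] [Algebra k S] [FiniteDimensional k S], S_ZETA k S
  ext : ∀ (S : Type u) [Ring S] [Algebra k S] [FiniteDimensional k S], S_EXT k S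
  als : ∀ (S : Type u) [Ring S] [Algebra k S] [FiniteDimensional k S], S_ALS k S
  bock : ∀ (S : Type u) [Ring S] [Algebra k S] [FiniteDimensional k S], S_BOCK k S
  rep : ∀ (S : Type u) [Ring S] [Algebra k S] [FiniteDimensional k S], S_REP k S
  noe : ∀ (S : Type u) [Ring S] [Algebra k S] [FiniteDimensional k S], S_NOE k S
  co : ∀ (S : Type u) [Ring S] [Algebra k S] [FiniteDimensional k S], S_CO k S
  cc : ∀ (S : Type u) [Ring S] [Algebra k S] [FiniteDimensional k S], S_CC k S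
  notor : ∀ (S : Type u) [Ring S] [Algebra k S] [FiniteDimensional k S], S_NOTOR k S
  af : ∀ (S : Type u) [Ring S] [Algebra k S] [FiniteDimensional k S], S_AF k S
  af1 : ∀ (S : Type u) [Ring S] [Algebra k S] [FiniteDimensional k S], S_AF1 k S
  af2 : ∀ (S : Type u) [Ring S] [Algebra k S] [FiniteDimensional k S], S_AF2 k S
  ks : ∀ (S : Type u) [Ring S] [Algebra k S] [FiniteDimensional k S], S_KS k S
  bcloc : ∀ (S : Type u) [Ring S] [Algebra k S] [FiniteDimensional k S], S_BCLOC k S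
  cancel : ∀ (S : Type u) [Ring S] [Algebra k S] [FiniteDimensional k S], S_CANCEL k S
  tw : ∀ (S : Type u) [Ring S] [Algebra k S] [FiniteDimensional k S], S_TW k S
  comp : ∀ (S : Type u) [Ring S] [Algebra k S] [FiniteDimensional k S], S_COMP k S
  orb : ∀ (S : Type u) [Ring S] [Algebra k S] [FiniteDimensional k S], S_ORB k S
  pg : ∀ (S : Type u) [Ring S] [Algebra k S] [FiniteDimensional k S], S_PG k S
  sames : ∀ (S : Type u) [Ring S] [Algebra k S] [FiniteDimensional k S], S_SAMES k S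
  wt : ∀ (S : Type u) [Ring S] [Algebra k S] [FiniteDimensional k S], S_WT k S

def S_CL : Prop :=
  ND0 k R → ∀ (F : Type u) [Field F] [Algebra k F] [IsAlgClosed F] (N : FO k R F), N.fd →
    ∃ (D : RD k R) (ι : Type) (_ : Fintype ι) (v : ι → D.ι) (V : ι → FXV k F),
      Decomp N (fun i => MF (D.d (v i)) (V i)) ∧
      ∀ i, (D.K (v i) = false ∧ (V i).V.x = 0) ∨
        (D.K (v i) = true ∧ ∃ (y : F) (m : ℕ), Transcendental k y ∧ V i = J k y (m + 1))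

def S_CL1 : Prop :=
  ND0 k R → ∀ (F : Type u) [Field F] [Algebra k F] [IsAlgClosed F] (N : FO k R F), N.fd → Loc N →
    Const N ∨ ∃ (H : PG k R) (y : F) (m : ℕ), Transcendental k y ∧ IsoF N (MF H.d (J k y (m + 1)))

def S_HOM : Prop :=
  ND0 k R → ∀ (F : Type u) [Field F] [Algebra k F] [IsAlgClosed F] (H : PG k R) (y : F) (e : ℕ),
    Transcendental k y → Theta (MF H.d (J k y (e + 1)))

def S_C1 : Prop :=
  ∀ H : PG k R, eK (k := k) H.d (RatFunc.X : RatFunc k) ≠ 0 ∧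
    ∀ (u : EE H.d H.GF.X) (g : (RatFunc k)[X]), g ≠ 0 → polE H.d H.GF g u = 0 →
      ∃ (c : RatFunc k) (n : ℕ), aeval (EX H.d H.GF.X) (H.D.f ^ n)
        (u - Emap H.d (H.GF.act c) (eK H.d RatFunc.X)) = 0

def S_GOOD : Prop := ND0 k R → ∀ H : PG k R, CK (k := k) H.d (RatFunc.X : RatFunc k)

def S_CKrev : Prop :=
  ∀ (d : Fam R) (K : Type u) [Field K] [Algebra k K] (t : K), Gen k t →
    CK (k := k) d t → CK (k := k) d.rev t⁻¹

def S_CKop : Prop :=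
  ∀ (S : Type u) [Ring S] [Algebra k S] [FiniteDimensional k S] (σ : Anti k R S) (d : Fam R)
    (K : Type u) [Field K] [Algebra k K] (t : K), Gen k t →
    CK (k := k) d t → CK (k := k) (d.op σ) t

/-- natural versions of (C2) -/
structure NTh (d : Fam R) where
  h : k[X]
  hh : h ≠ 0
  th : NT (MN (k := k) d) (YN d)
  th' : NT (YN (k := k) d) (MN d)
  Q : Md k R
  fd : Q.fd
  a : NT (MN (k := k) d) (TenN Q)
  b : NT (TenN Q) (MN d)
  Q' : Md k R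
  fd' : Q'.fd
  a' : NT (YN (k := k) d) (TenN Q')
  b' : NT (TenN Q') (YN d)
  eM : ∀ V, th'.app V ∘ₗ th.app V = (MN d).map (XH.pol V h) + b.app V ∘ₗ a.app V
  eY : ∀ V, th.app V ∘ₗ th'.app V = (YN d).map (XH.pol V h) + b'.app V ∘ₗ a'.app V
  c : k[X]
  hc : c ≠ 0
  ev : ∀ (V : XV k) (v : V), hat d V (th.app V) (Bock d V LinearMap.id v) = aeval V.x c v

def S_NTH : Prop :=
  ∀ (d : Fam R) (K : Type u) [Field K] [Algebra k K] (t : K), Gen k t →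
    CK (k := k) d t → Nonempty (NTh k R d)

def S_L0 : Prop :=
  ∀ (d : Fam R) (K : Type u) [Field K] [Algebra k K] (t : K), Gen k t → CK (k := k) d t →
    ∃ g : k[X], g ≠ 0 ∧ ∀ (V : XV k) (u : EE d (M d V)) (h : k[X]), h ≠ 0 →
      aeval (EX d (M d V)) h u = 0 → ∃ v : V, aeval (EX d (M d V)) g u = Bock d V LinearMap.id v

def S_TUBE : Prop := ∀ H : PG k R, CK (k := k) H.d (RatFunc.X : RatFunc k) → ∃ g, Tube H g

def S_TUBE2 : Prop :=
  ∀ (H H' : PG k R) (g : k[X]), Tube H g → ∀ (F : Type u) [Field F] [Algebra k F] (y y' : F)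
    (n : ℕ), Transcendental k y' → aeval y g ≠ 0 →
    ¬ Injective (piE H.d (MF H'.d (J k y' (n + 1))) y) →
    Transcendental k y ∧ ∃ e, IsoF (MF H'.d (J k y' (n + 1))) (MF H.d (J k y (e + 1)))

def S_ORTH : Prop :=
  ∀ (S : Type u) [Ring S] [Algebra k S] [FiniteDimensional k S] (σ : Anti k R S) (d : Fam R)
    (F : Type u) [Field F] [Algebra k F] (A : FO k R F), A.fd → ∀ w : Fin d.n1 → ℕ →₀ A.X,
    (∀ z : Fin d.n1 → ℕ →₀ DT σ A, DX (d.op σ) (DF σ A).X z = 0 → ∀ l : ℕ,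
      ∑ a, ∑ i ∈ Finset.range (l + 1), z a i (w a (l - i)) = 0) →
    ∃ h : F[X], h ≠ 0 ∧ polE d A h (Emk d A.X w) = 0

def S_STRP : Prop :=
  ∀ (d : Fam R) (q : k[X]) (m c a : ℕ), ∃ π : Pr k R, ∀ T : Md k R,
    π.Open T ↔ ∃ w, StrA d q m c T w ∧ w ∉ StrB d a T

def S_STRO : Prop :=
  ∀ (H : PG k R) (q : k[X]) (m c a : ℕ), q ≠ 0 → q.natDegree ≤ c → c ≤ m →
    ∃ w, StrA H.d q m c H.G w ∧ w ∉ StrB H.d a H.G

def S_STRC : Prop :=
  ∀ (S : Type u) [Ring S] [Algebra k S] [FiniteDimensional k S] (σ : Anti k R S) (d : Fam R)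
    (g : k[X]) (a : ℕ), g ≠ 0 → ∃ m c : ℕ, (g ^ a).natDegree ≤ c ∧ c ≤ m ∧
      ∀ (F : Type u) [Field F] [Algebra k F] [IsAlgClosed F] (A : FO k R F), A.fd →
        Short d a A.X → Short (d.op σ) a (DF σ A).X →
        (∀ p : k, g.eval p = 0 → Expo d p a A.X) → Expo d.rev 0 a A.X →
        (∀ y : F, aeval y g ≠ 0 → Injective (piE d A y)) →
        ∀ w, StrA d (g ^ a) m c A.X w → w ∈ StrB d a A.X

def S_STR : Prop :=
  ∀ (S : Type u) [Ring S] [Algebra k S] [FiniteDimensional k S] (σ : Anti k R S) (H : PG k R) (g : k[X]) (a : ℕ), g ≠ 0 →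
    ∃ π : Pr k R, π.Open H.G ∧
      ∀ (F : Type u) [Field F] [Algebra k F] [IsAlgClosed F] (A : FO k R F), A.fd →
        Short H.d a A.X → Short (H.d.op σ) a (DF σ A).X →
        (∀ p : k, g.eval p = 0 → Expo H.d p a A.X) → Expo H.d.rev 0 a A.X →
        (∀ y : F, aeval y g ≠ 0 → Injective (piE H.d A y)) → ¬ π.Open A.X

def S_SAME : Prop :=
  ND0 k R → ∀ (H H' : PG k R), SameS H.G H'.G →
    ∀ (F : Type u) [Field F] [Algebra k F] [IsAlgClosed F] (y' : F) (n : ℕ), Transcendental k y' →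
    ∃ (y : F) (e : ℕ), Transcendental k y ∧
      IsoF (MF H'.d (J k y' (n + 1))) (MF H.d (J k y (e + 1)))

/-! ### Part F -/

def S_SWF : Prop :=
  ∀ (d : Fam R) (K : Type u) [Field K] [Algebra k K] (t : K), Gen k t → CK (k := k) d t →
    ∀ p : k, ∃ s : ℕ, ∀ (F : Type u) [Field F] [Algebra k F] (A A' : FO k R F), A.fd → ∀ n : ℕ,
      ¬ Expo d p (n + s) A.X → ¬ Expo d p (n + s) A'.X →
      ∃ f ∈ HomF A A', ∃ u, Trs (piK d p A.X) u ∧ (piK d p A'.X ^ n) (Emap d f u) ≠ 0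

def S_O1 : Prop :=
  ∀ (d : Fam R) (K : Type u) [Field K] [Algebra k K] (t : K), Gen k t → CK (k := k) d t →
    ∃ (e : Bool) (a : ℕ), ∀ m, Short d a ((Tn e m).obj (T0 k R))

def S_O2 : Prop :=
  ND0 k R → ∀ (d : Fam R) (K : Type u) [Field K] [Algebra k K] (t : K), Gen k t →
    CK (k := k) d t → ∀ p : k, ∃ (e : Bool) (a : ℕ), ∀ m, Expo d p a ((Tn e m).obj (T0 k R))

/-! ### Part E -/

def S_REL : Prop :=
  ∀ (F : Type u) [Field F] [Algebra k F] (A B : FO k R F), A.fd → B.fd → Theta A → Theta B →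
    QQ true A B ≤ QQ false A B

def S_LL : Prop :=
  ∀ (H : PG k R) (π : Pr k R), π.Open H.G → ∃ (r : ℕ) (ρ : Fin r → Pr k R),
    (∀ i, ¬ (ρ i).Open H.G) ∧ ∀ (F : Type u) [Field F] [Algebra k F] (A : FO k R F), A.fd →
      ¬ π.Open A.X → A.dim ≤ ∑ i, (ρ i).dim A

structure S_PDIM : Prop where
  smd : ∀ (π : Pr k R) (F : Type u) [Field F] [Algebra k F] (A B : FO k R F), B.fd → Smd A B →
    π.dim A ≤ π.dim B
  ext : ∀ π : Pr k R, ∃ c : ℕ, ∀ (F : Type u) [Field F] [Algebra k F] (B Z A : FO k R F), Z.fd →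
    ∀ i ∈ HomF B Z, ∀ p ∈ HomF Z A, Injective i → Exact i p → Surjective p → ¬ π.Open A.X →
    π.dim Z ≤ c * B.dim

def S_E : Prop :=
  ND0 k R → ∀ (L : Type u) [Field L] [Algebra k L], Big k L →
    ∀ (H1 H2 : PG k R) (y1 y2 : L) (e1 e2 : ℕ), Transcendental k y1 → TrO k {y1} y2 →
    (∃ f ∈ HomF (MF H1.d (J k y1 (e1 + 1))) (MF H2.d (J k y2 (e2 + 1))),
      f ∉ QQ true (MF H1.d (J k y1 (e1 + 1))) (MF H2.d (J k y2 (e2 + 1)))) → Gam H2

/-! ### Part D -/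

def S_SMALL : Prop :=
  ∃ (I : Type u) (pr : I → Pr k R), ∀ π : Pr k R, ∃ i, ∀ T, π.Open T ↔ (pr i).Open T

def S_RP : Prop :=
  ∀ (I : Type u) (l : Filter I) [l.NeBot] (G : I → Md k R), (∀ i, Nontrivial (G i)) →
    ∃ N : Md k R, Nontrivial N ∧ ∀ π : Pr k R, (∀ᶠ i in l, ¬ π.Open (G i)) → ¬ π.Open N

def S_KILL : Prop :=
  ∀ N : Md k R, (¬ ∃ n, PLen N (reg k R) ⊥ ⊤ n) → ∀ (m : ℕ) (ρ : Fin m → Pr k R),
    (∀ i, ∃ n, PLen N (ρ i).U ((ρ i).φ.ev N ⊓ (ρ i).ψ.ev N) ((ρ i).φ.ev N) n) →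
    ∃ N' : Md k R, Nontrivial N' ∧ ∀ i, ¬ (ρ i).Open N'

def S_FLEN : Prop :=
  ∀ (N : Md k R) (n : ℕ), PLen N (reg k R) ⊥ ⊤ n → IsFiniteLength (Module.End R N) N

def S_ENDO : Prop :=
  ND0 k R → ∀ G : ℕ → Md k R, (∀ i, Nontrivial (G i)) →
    ∃ N : Md k R, Nontrivial N ∧ IsFiniteLength (Module.End R N) N ∧
      ∀ π : Pr k R, π.Open N → ∀ i0, ∃ i ≥ i0, π.Open (G i)

def S_D1 : Prop :=
  ND0 k R → ∀ H : ℕ → PG k R, (∀ i j, i ≠ j → ¬ SameS (H i).G (H j).G) → ∃ H0 : PG k R, Gam H0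

def S_LINK : Prop :=
  ∀ (H : PG k R) (π π' : Pr k R), π.Open H.G → π'.Open H.G →
    ∃ ρ : Pr k R, ρ.Open H.G ∧ ∀ T, ρ.Open T → π.Open T ∧ π'.Open T

def S_MSA : Prop :=
  ∀ (d : Fam R) (e : Bool) (a : ℕ), (∀ m, Short d a ((Tn e m).obj (T0 k R))) →
    ∀ (F : Type u) [Field F] [Algebra k F] (A : FO k R F), A.fd → ¬ Short d a A.X →
    ∃ s : Finset F, ∀ y ∉ s, Transcendental k y →
      ∃ f ∈ HomF (MF d (one k y)) A, f ∉ QQ e (MF d (one k y)) A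

def S_MSC : Prop :=
  ∀ (d : Fam R) (p : k) (e : Bool) (a : ℕ), (∀ m, Expo d p a ((Tn e m).obj (T0 k R))) →
    ∀ (F : Type u) [Field F] [Algebra k F] (A B : FO k R F), ∀ f ∈ QQ e A B,
    ∀ u, Trs (piK d p A.X) u → (piK d p B.X ^ a) (Emap d f u) = 0

/-- `E` with either sign -/
def S_E2 : Prop :=
  ND0 k R → ∀ (L : Type u) [Field L] [Algebra k L], Big k L →
    ∀ (H1 H2 : PG k R) (y1 y2 : L) (e1 e2 : ℕ) (e : Bool), Transcendental k y1 → TrO k {y1} y2 →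
    ∀ A B : FO k R L, IsoF A (MF H1.d (J k y1 (e1 + 1))) → IsoF B (MF H2.d (J k y2 (e2 + 1))) →
    (∃ f ∈ HomF A B, f ∉ QQ e A B) → Gam H2

structure S_DG : Prop where
  ex : ∀ (S : Type u) [Ring S] [Algebra k S] [FiniteDimensional k S] (σ : Anti k R S), ND0 k S →
    ∀ (L : Type u) [Field L] [Algebra k L] [IsAlgClosed L] (H : PG k R) (y : L) (n : ℕ),
    Transcendental k y → ∃ (H' : PG k S) (y' : L) (n' : ℕ), Transcendental k y' ∧
      IsoF (DF σ (MF H.d (J k y (n + 1)))) (MF H'.d (J k y' (n' + 1)))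
  ind : ∀ (S : Type u) [Ring S] [Algebra k S] [FiniteDimensional k S] (σ : Anti k R S)
    (L : Type u) [Field L] [Algebra k L], Big k L → ∀ (H : PG k R) (H' : PG k S) (y y' : L)
    (n n' : ℕ) (s : Finset L), Transcendental k y' → TrO k (s : Set L) y →
    IsoF (DF σ (MF H.d (J k y (n + 1)))) (MF H'.d (J k y' (n' + 1))) → TrO k (s : Set L) y'

def S_GAMD : Prop :=
  ∀ (S : Type u) [Ring S] [Algebra k S] [FiniteDimensional k S] (σ : Anti k R S), ND0 k R →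
    ∀ (L : Type u) [Field L] [Algebra k L] [IsAlgClosed L] (H : PG k R) (H' : PG k S) (y y' : L)
    (n n' : ℕ), Transcendental k y → Transcendental k y' →
    IsoF (DF σ (MF H.d (J k y (n + 1)))) (MF H'.d (J k y' (n' + 1))) → Gam H' → Gam H

def S_MSB : Prop :=
  ND0 k R → ∀ H : PG k R, ∃ a : ℕ, ∀ (L : Type u) [Field L] [Algebra k L], Big k L →
    ∀ (G : PG k R) (y : L), Transcendental k y →
    ¬ Short (H.d.op (Anti.op k R)) a (DF (Anti.op k R) (MF G.d (J k y 1))).X → Gam G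

def S_MS : Prop :=
  ND0 k R → ∀ (H : PG k R) (π : Pr k R), Gam H → π.Open H.G →
    ∃ G : PG k R, Gam G ∧ ¬ SameS G.G H.G ∧ π.Open G.G

def S_SEP : Prop :=
  ∀ (G H : PG k R) (π : Pr k R), ¬ SameS G.G H.G → π.ψ.le π.φ → π.Open G.G → π.Open H.G →
    ∃ χ : PP π.U, π.ψ.le χ ∧ χ.le π.φ ∧
      (Pr.Open ⟨π.U, π.fd, π.φ, χ⟩ G.G ∨ Pr.Open ⟨π.U, π.fd, π.φ, χ⟩ H.G) ∧
      (Pr.Open ⟨π.U, π.fd, χ, π.ψ⟩ G.G ∨ Pr.Open ⟨π.U, π.fd, χ, π.ψ⟩ H.G)

def S_FIN : Prop :=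
  ND0 k R → ∃ (n : ℕ) (H : Fin n → PG k R), ∀ H' : PG k R, ∃ i, SameS (H i).G H'.G

/-! ### Part G and the bridge -/

def S_G : Prop :=
  ND0 k R → (∃ (n : ℕ) (H : Fin n → PG k R), ∀ H' : PG k R, ∃ i, SameS (H i).G H'.G) →
    Domestic k R

def S_KG : Prop := ¬ KGInfinite.{u, v} R → ND0 k R

end
end Pool.Agent.P.MP_cf639b_al
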