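import Pool.Agent.P.MP_cf639b_al.Iface

/-! Polynomial solutions `ZZ d T` as a `k[X]`-module, their evaluations `evm`, and translation
data `Tr`, `TD`. -/

set_option linter.dupNamespace false

namespace Pool.Agent.P.MP_cf639b_al

universe u
open TensorProduct Polynomial Function

noncomputable section

variable {k : Type u} [Field k] {R : Type u} [Ring R] [Algebra k R]

section shift
variable {T : Type u} [AddCommGroup T] [Module R T]
theorem shift_apply_zero (z : ℕ →₀ T) : shift R T z 0 = 0 :=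
  Finsupp.mapDomain_of_notMem_range z 0 (by simp)
theorem shift_apply_succ (z : ℕ →₀ T) (l : ℕ) : shift R T z (l + 1) = z l :=
  Finsupp.mapDomain_apply Nat.succ_injective z l
theorem shift_pow_apply (i : ℕ) (z : ℕ →₀ T) (l : ℕ) :
    (shift R T ^ i) z l = if i ≤ l then z (l - i) else 0 := by
  induction i generalizing l with
  | zero => simp
  | succ n ih =>
    rw [pow_succ', Module.End.mul_apply]
    cases l with
    | zero => simp [shift_apply_zero]
    | succ l => rw [shift_apply_succ, ih]; simp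
end shift

/-- polynomial solutions -/
def ZZ (d : Fam R) (T : Md k R) : Type u := LinearMap.ker (DX d T)

instance (d : Fam R) (T : Md k R) : AddCommGroup (ZZ d T) :=
  inferInstanceAs (AddCommGroup (LinearMap.ker (DX d T)))
instance (d : Fam R) (T : Md k R) : Module k (ZZ d T) :=
  inferInstanceAs (Module k (LinearMap.ker (DX d T)))

section
variable {d : Fam R} {T T' T'' : Md k R}

/-- the underlying polynomial vector -/
def ZZ.v : ZZ d T →ₗ[k] (Fin d.n0 → ℕ →₀ T) := (LinearMap.ker (DX d T)).subtype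
theorem ZZ.sol (ξ : ZZ d T) : DX d T (ZZ.v ξ) = 0 := ξ.2
/-- a solution as an element of `ZZ` -/
def ZZ.mk (z : Fin d.n0 → ℕ →₀ T) (h : DX d T z = 0) : ZZ d T := ⟨z, h⟩
@[simp] theorem ZZ.v_mk (z : Fin d.n0 → ℕ →₀ T) (h : DX d T z = 0) : ZZ.v (ZZ.mk z h) = z := rfl
theorem ZZ.v_inj : Injective (ZZ.v : ZZ d T → _) := Subtype.val_injective
@[ext] theorem ZZ.ext {ξ η : ZZ d T} (h : ∀ b l, ZZ.v ξ b l = ZZ.v η b l) : ξ = η :=
  ZZ.v_inj (funext fun b => Finsupp.ext (h b))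

variable (d T) in
/-- multiplication by `x` -/
def ZX : Module.End k (ZZ d T) where
  toFun ξ := ZZ.mk (fun b => shift R T (ZZ.v ξ b)) (by
    have h : DX d T (ZZ.v ξ) = 0 := ξ.sol
    refine (Dop_nat d _ _ (shift R T) rfl (ZZ.v ξ)).trans ?_
    funext a
    change shift R T (DX d T (ZZ.v ξ) a) = 0
    rw [h]; simp)
  map_add' ξ η := ZZ.v_inj (funext fun b => by simp)
  map_smul' c ξ := ZZ.v_inj (funext fun b => by simp)

instance (d : Fam R) (T : Md k R) : Module k[X] (ZZ d T) :=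
  Module.compHom _ (aeval (ZX d T) : k[X] →ₐ[k] _).toRingHom
theorem ZZ.smul_def (q : k[X]) (ξ : ZZ d T) : q • ξ = aeval (ZX d T) q ξ := rfl
instance (d : Fam R) (T : Md k R) : IsScalarTower k k[X] (ZZ d T) :=
  ⟨fun c q ξ => by simp only [ZZ.smul_def, map_smul, LinearMap.smul_apply]⟩
theorem ZZ.C_smul (c : k) (ξ : ZZ d T) : (C c : k[X]) • ξ = c • ξ := by
  simp [ZZ.smul_def]
theorem ZZ.v_X (ξ : ZZ d T) (b : Fin d.n0) : ZZ.v ((X : k[X]) • ξ) b = shift R T (ZZ.v ξ b) := by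
  rw [ZZ.smul_def, aeval_X]; rfl
theorem ZZ.v_X_pow (i : ℕ) (ξ : ZZ d T) (b : Fin d.n0) :
    ZZ.v ((X ^ i : k[X]) • ξ) b = (shift R T ^ i) (ZZ.v ξ b) := by
  induction i with
  | zero => simp
  | succ n ih => rw [pow_succ', mul_smul, ZZ.v_X, ih, pow_succ', Module.End.mul_apply]
theorem ZZ.v_X_pow_apply (i : ℕ) (ξ : ZZ d T) (b : Fin d.n0) (l : ℕ) :
    ZZ.v ((X ^ i : k[X]) • ξ) b l = if i ≤ l then ZZ.v ξ b (l - i) else 0 := by
  rw [ZZ.v_X_pow, shift_pow_apply]
theorem ZZ.v_monomial (i : ℕ) (c : k) (ξ : ZZ d T) (b : Fin d.n0) (l : ℕ) :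
    ZZ.v ((monomial i c : k[X]) • ξ) b l = if i ≤ l then c • ZZ.v ξ b (l - i) else 0 := by
  rw [← C_mul_X_pow_eq_monomial, mul_smul, ZZ.C_smul, map_smul, Pi.smul_apply, Finsupp.smul_apply,
    ZZ.v_X_pow_apply]
  split_ifs <;> simp
/-- coefficients of `q • ξ` -/
theorem ZZ.v_smul (q : k[X]) (ξ : ZZ d T) (b : Fin d.n0) (l : ℕ) :
    ZZ.v (q • ξ) b l = ∑ i ∈ Finset.range (l + 1), q.coeff i • ZZ.v ξ b (l - i) := by
  induction q using Polynomial.induction_on' with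
  | add p q hp hq =>
    rw [add_smul, map_add, Pi.add_apply, Finsupp.add_apply, hp, hq, ← Finset.sum_add_distrib]
    simp [add_smul]
  | monomial i c =>
    rw [ZZ.v_monomial]
    split_ifs with h
    · rw [Finset.sum_eq_single i (fun j _ hj => by simp [coeff_monomial, Ne.symm hj])
        (fun hn => absurd (Finset.mem_range.mpr (by omega)) hn)]
      simp
    · refine (Finset.sum_eq_zero fun j hj => ?_).symm
      have : i ≠ j := by rintro rfl; exact h (by simpa [Nat.lt_succ_iff] using hj)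
      simp [coeff_monomial, this]

/-- a `k`-linear map commuting with `X` is `k[X]`-linear -/
def xlin {A B : Type*} [AddCommGroup A] [Module k A] [Module k[X] A] [IsScalarTower k k[X] A]
    [AddCommGroup B] [Module k B] [Module k[X] B] [IsScalarTower k k[X] B] (f : A →ₗ[k] B)
    (h : ∀ a, f ((X : k[X]) • a) = (X : k[X]) • f a) : A →ₗ[k[X]] B where
  toFun := f
  map_add' := f.map_add
  map_smul' q a := by
    induction q using Polynomial.induction_on' with
    | add p q hp hq => simp only [add_smul, map_add, hp, hq, RingHom.id_apply]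
    | monomial i c =>
      have e : ∀ (n : ℕ) (a : A), f ((X ^ n : k[X]) • a) = (X ^ n : k[X]) • f a := by
        intro n
        induction n with
        | zero => simp
        | succ n ih => intro a; rw [pow_succ', mul_smul, h, ih, mul_smul]
      rw [RingHom.id_apply, ← smul_X_eq_monomial, smul_assoc, smul_assoc, map_smul, e]
@[simp] theorem xlin_apply {A B : Type*} [AddCommGroup A] [Module k A] [Module k[X] A]
    [IsScalarTower k k[X] A] [AddCommGroup B] [Module k B] [Module k[X] B]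
    [IsScalarTower k k[X] B] (f : A →ₗ[k] B) (h) (a : A) : xlin f h a = f a := rfl

variable (d) in
/-- functoriality of `ZZ`, `k`-linear version -/
def zmapk (g : T →ₗ[R] T') : ZZ d T →ₗ[k] ZZ d T' where
  toFun ξ := ZZ.mk (fun b => Finsupp.mapRange.linearMap g (ZZ.v ξ b)) (by
    have h : DX d T (ZZ.v ξ) = 0 := ξ.sol
    refine (Dop_nat d _ _ _ (mapRange_shift g) (ZZ.v ξ)).trans ?_
    funext a
    change Finsupp.mapRange.linearMap g (DX d T (ZZ.v ξ) a) = 0
    rw [h]; simp)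
  map_add' ξ η := ZZ.ext fun b l => by simp
  map_smul' c ξ := ZZ.ext fun b l => by simp

variable (d) in
/-- functoriality of `ZZ` -/
def zmap (g : T →ₗ[R] T') : ZZ d T →ₗ[k[X]] ZZ d T' :=
  xlin (zmapk d g) fun ξ => ZZ.v_inj (funext fun b => by
    rw [ZZ.v_X]
    change Finsupp.mapRange.linearMap g (ZZ.v ((X : k[X]) • ξ) b) = _
    rw [ZZ.v_X]
    exact LinearMap.congr_fun (mapRange_shift g) _)
theorem v_zmap' (g : T →ₗ[R] T') (ξ : ZZ d T) (b : Fin d.n0) :
    ZZ.v (zmap d g ξ) b = Finsupp.mapRange.linearMap g (ZZ.v ξ b) := rfl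
@[simp] theorem v_zmap (g : T →ₗ[R] T') (ξ : ZZ d T) (b : Fin d.n0) (l : ℕ) :
    ZZ.v (zmap d g ξ) b l = g (ZZ.v ξ b l) := rfl
theorem zmap_id (ξ : ZZ d T) : zmap d (LinearMap.id : T →ₗ[R] T) ξ = ξ := ZZ.ext fun _ _ => rfl
theorem zmap_comp (g : T' →ₗ[R] T'') (f : T →ₗ[R] T') (ξ : ZZ d T) :
    zmap d (g ∘ₗ f) ξ = zmap d g (zmap d f ξ) := ZZ.ext fun _ _ => rfl
theorem zmap_add (g f : T →ₗ[R] T') (ξ : ZZ d T) :
    zmap d (g + f) ξ = zmap d g ξ + zmap d f ξ := ZZ.ext fun _ _ => by simp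
theorem zmap_sub (g f : T →ₗ[R] T') (ξ : ZZ d T) :
    zmap d (g - f) ξ = zmap d g ξ - zmap d f ξ := ZZ.ext fun _ _ => by simp
theorem zmap_ksmul (c : k) (f : T →ₗ[R] T') (ξ : ZZ d T) :
    zmap d (c • f) ξ = c • zmap d f ξ := ZZ.ext fun _ _ => by simp
theorem zmap_zero (ξ : ZZ d T) : zmap d (0 : T →ₗ[R] T') ξ = 0 := ZZ.ext fun _ _ => by simp

variable (d) in
/-- solutions of degree at most `n` -/
def Zd (n : ℕ) (T : Md k R) : Submodule k (ZZ d T) where
  carrier := {ξ | ∀ b l, n < l → ZZ.v ξ b l = 0}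
  add_mem' {x y} hx hy b l h := by simp [hx b l h, hy b l h]
  zero_mem' _ _ _ := rfl
  smul_mem' c x hx b l h := by simp [hx b l h]
theorem mem_Zd {n : ℕ} {ξ : ZZ d T} : ξ ∈ Zd d n T ↔ ∀ b l, n < l → ZZ.v ξ b l = 0 := Iff.rfl
theorem Zd_mono {n m : ℕ} (h : n ≤ m) : Zd d n T ≤ Zd d m T :=
  fun _ hx b l hl => hx b l (by omega)
theorem exists_Zd (ξ : ZZ d T) : ∃ n, ξ ∈ Zd d n T := by
  refine ⟨Finset.univ.sup fun b => (ZZ.v ξ b).support.sup id, fun b l hl => ?_⟩
  by_contra h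
  have h1 : l ≤ (ZZ.v ξ b).support.sup id :=
    Finset.le_sup (f := id) (Finsupp.mem_support_iff.mpr h)
  have h2 := Finset.le_sup (f := fun b => (ZZ.v ξ b).support.sup id) (Finset.mem_univ b)
  omega
theorem Zd_zmap {n : ℕ} (g : T →ₗ[R] T') {ξ : ZZ d T} (h : ξ ∈ Zd d n T) :
    zmap d g ξ ∈ Zd d n T' := fun b l hl => by rw [v_zmap, h b l hl, map_zero]
theorem Zd_smul {n : ℕ} (q : k[X]) {ξ : ZZ d T} (h : ξ ∈ Zd d n T) :
    q • ξ ∈ Zd d (q.natDegree + n) T := fun b l hl => by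
  rw [ZZ.v_smul]
  refine Finset.sum_eq_zero fun p hp => ?_
  by_cases h1 : q.natDegree < p
  · rw [coeff_eq_zero_of_natDegree_lt h1, zero_smul]
  · rw [h b _ (by omega), smul_zero]

variable (d) in
/-- the span of the solutions of degree at most `a` -/
def Zs (a : ℕ) (T : Md k R) : Submodule k[X] (ZZ d T) := Submodule.span k[X] (Zd d a T)
theorem Zd_le_Zs {a : ℕ} {ξ : ZZ d T} (h : ξ ∈ Zd d a T) : ξ ∈ Zs d a T :=
  Submodule.subset_span h
theorem Zs_mono {n m : ℕ} (h : n ≤ m) : Zs d n T ≤ Zs d m T :=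
  Submodule.span_mono (Zd_mono h)
/-- induction principle: a linear map sends `Zs` into `N` if it sends `Zd` into `N` -/
theorem Zs_le {a : ℕ} {B : Type*} [AddCommGroup B] [Module k[X] B] (f : ZZ d T →ₗ[k[X]] B)
    (N : Submodule k[X] B) (h : ∀ ξ ∈ Zd d a T, f ξ ∈ N) {ξ : ZZ d T} (hξ : ξ ∈ Zs d a T) :
    f ξ ∈ N :=
  (Submodule.span_le.mpr (show (Zd d a T : Set (ZZ d T)) ⊆ N.comap f from h)) hξ
theorem Zs_zmap {a : ℕ} (g : T →ₗ[R] T') {ξ : ZZ d T} (h : ξ ∈ Zs d a T) :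
    zmap d g ξ ∈ Zs d a T' := Zs_le _ _ (fun _ h => Zd_le_Zs (Zd_zmap g h)) h
theorem short_iff {a : ℕ} : Short d a T ↔ ∀ ξ : ZZ d T, ξ ∈ Zs d a T := by
  constructor
  · intro h ξ
    have key : ∀ z ∈ Submodule.span k {w | ∃ i : ℕ, ∃ z' ∈ Zle d a T,
        w = fun b => (shift R T ^ i) (z' b)}, ∃ η ∈ Zs d a T, ZZ.v η = z := by
      intro z hz
      induction hz using Submodule.span_induction with
      | mem w hw =>
        obtain ⟨i, z', hz', rfl⟩ := hw
        exact ⟨(X ^ i : k[X]) • ZZ.mk z' hz'.1, Submodule.smul_mem _ _ (Zd_le_Zs hz'.2),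
          funext fun b => ZZ.v_X_pow _ _ _⟩
      | zero => exact ⟨0, zero_mem _, map_zero _⟩
      | add x y _ _ hx hy =>
        obtain ⟨η, h1, rfl⟩ := hx
        obtain ⟨η', h2, rfl⟩ := hy
        exact ⟨η + η', add_mem h1 h2, map_add _ _ _⟩
      | smul c x _ hx =>
        obtain ⟨η, h1, rfl⟩ := hx
        exact ⟨c • η, Submodule.smul_of_tower_mem _ c h1, map_smul _ _ _⟩
    obtain ⟨η, h1, h2⟩ := key _ (h _ ξ.sol)
    rwa [← ZZ.v_inj h2]
  · intro h z hz
    have key : ∀ ξ ∈ Zs d a T, ∀ q : k[X], ZZ.v (q • ξ) ∈ Submodule.span k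
        {w | ∃ i : ℕ, ∃ z' ∈ Zle d a T, w = fun b => (shift R T ^ i) (z' b)} := by
      intro ξ hξ
      induction hξ using Submodule.span_induction with
      | mem w hw =>
        intro q
        induction q using Polynomial.induction_on' with
        | add p q hp hq => rw [add_smul, map_add]; exact add_mem hp hq
        | monomial i c =>
          rw [← smul_X_eq_monomial, smul_assoc, map_smul]
          exact Submodule.smul_mem _ _ (Submodule.subset_span
            ⟨i, ZZ.v w, ⟨w.sol, hw⟩, funext fun b => ZZ.v_X_pow _ _ _⟩)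
      | zero => intro q; simp
      | add x y _ _ hx hy => intro q; rw [smul_add, map_add]; exact add_mem (hx q) (hy q)
      | smul c x _ hx => intro q; rw [smul_smul]; exact hx _
    simpa using key _ (h (ZZ.mk z hz)) 1

/-- the coefficients of the equation `D ξ = 0` -/
theorem ZZ.sol_apply (ξ : ZZ d T) (a : Fin d.n1) (l : ℕ) :
    ∑ i ∈ Finset.range (d.r + 1), ∑ b, d.c i a b • (if i ≤ l then ZZ.v ξ b (l - i) else 0) = 0 := by
  have h := congrArg (fun w => w a l) ξ.sol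
  simpa [Dop_apply, Finsupp.finsetSum_apply, shift_pow_apply] using h

/-- contraction of a polynomial vector with the functionals `v ↦ μ (x^l v)` -/
def ctr (V : XV k) (μ : V →ₗ[k] k) (T : Md k R) : (ℕ →₀ T) →ₗ[k] (V →ₗ[k] T) :=
  Finsupp.lsum k fun l => LinearMap.smulRightₗ (μ ∘ₗ (V.x ^ l))
@[simp] theorem ctr_single (V : XV k) (μ : V →ₗ[k] k) (l : ℕ) (y : T) (v : V) :
    ctr V μ T (Finsupp.single l y) v = μ ((V.x ^ l) v) • y := by simp [ctr]
theorem ctr_apply (V : XV k) (μ : V →ₗ[k] k) (z : ℕ →₀ T) (v : V) :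
    ctr V μ T z v = z.sum fun l y => μ ((V.x ^ l) v) • y := by
  induction z using Finsupp.induction_linear with
  | zero => simp
  | add x y hx hy =>
    rw [map_add, LinearMap.add_apply, hx, hy, Finsupp.sum_add_index'] <;> simp
  | single l y => rw [ctr_single, Finsupp.sum_single_index]; simp
theorem ctr_rsmul (V : XV k) (μ : V →ₗ[k] k) (r : R) (z : ℕ →₀ T) (v : V) :
    ctr V μ T (r • z) v = r • ctr V μ T z v := by
  induction z using Finsupp.induction_linear with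
  | zero => simp
  | add x y hx hy => simp [hx, hy]
  | single l y => simp [smul_comm r]
theorem ctr_shift_pow (V : XV k) (μ : V →ₗ[k] k) (i : ℕ) (z : ℕ →₀ T) (v : V) :
    ctr V μ T ((shift R T ^ i) z) v = ctr V μ T z ((V.x ^ i) v) := by
  induction z using Finsupp.induction_linear with
  | zero => simp
  | add x y hx hy => simp [hx, hy]
  | single l y => simp [pow_add]

variable (d) in
/-- the map `M[V] → T` attached to a polynomial solution and a functional on `V` -/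
def evm (V : XV k) (μ : V →ₗ[k] k) (T : Md k R) : ZZ d T →ₗ[k] (M d V →ₗ[R] T) where
  toFun ξ := Mlift d V (fun b => ctr V μ T (ZZ.v ξ b)) (fun a v => by
    have h := congrArg (fun w => ctr V μ T (w a) v) ξ.sol
    simpa [Dop_apply, ctr_shift_pow, ctr_rsmul] using h)
  map_add' ξ η := M_ext fun b v => by simp [Mlift_gen]
  map_smul' c ξ := M_ext fun b v => by simp [Mlift_gen]
theorem evm_gen (V : XV k) (μ : V →ₗ[k] k) (ξ : ZZ d T) (b : Fin d.n0) (v : V) :
    evm d V μ T ξ (gen d V b v) = ctr V μ T (ZZ.v ξ b) v := by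
  simp only [evm, LinearMap.coe_mk, AddHom.coe_mk, Mlift_gen]
theorem evm_zmap (V : XV k) (μ : V →ₗ[k] k) (g : T →ₗ[R] T') (ξ : ZZ d T) :
    evm d V μ T' (zmap d g ξ) = g ∘ₗ evm d V μ T ξ := M_ext fun b v => by
  rw [LinearMap.comp_apply, evm_gen, evm_gen, v_zmap']
  induction ZZ.v ξ b using Finsupp.induction_linear with
  | zero => simp
  | add x y hx hy => simp only [map_add, LinearMap.add_apply, hx, hy]
  | single l y => simp
theorem evm_map (V V' : XV k) (μ : V' →ₗ[k] k) (g : XH V V') (ξ : ZZ d T) :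
    evm d V' μ T ξ ∘ₗ (MN d).map g = evm d V (μ ∘ₗ g.1) T ξ := M_ext fun b v => by
  rw [LinearMap.comp_apply, map_gen, evm_gen, evm_gen, ctr_apply, ctr_apply]
  simp [XH.comm_pow]
theorem evm_smul (V : XV k) (μ : V →ₗ[k] k) (q : k[X]) (ξ : ZZ d T) :
    evm d V μ T (q • ξ) = evm d V μ T ξ ∘ₗ (MN d).map (XH.pol V q) := M_ext fun b v => by
  rw [LinearMap.comp_apply, map_gen, evm_gen, evm_gen, XH.pol_val]
  induction q using Polynomial.induction_on' with
  | add p q hp hq => simp only [add_smul, map_add, Pi.add_apply, LinearMap.add_apply, hp, hq]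
  | monomial i c =>
    rw [← smul_X_eq_monomial, smul_assoc, map_smul, Pi.smul_apply, ZZ.v_X_pow,
      LinearMap.map_smul_of_tower, LinearMap.smul_apply, ctr_shift_pow]
    simp

variable (k) in
/-- the free `k[x]`-module of rank one -/
abbrev V0 : XV k := ⟨k[X], LinearMap.mulLeft k X⟩
theorem V0_pow (i : ℕ) (p : k[X]) : ((V0 k).x ^ i) p = X ^ i * p := by
  change (LinearMap.mulLeft k X ^ i) p = _
  rw [LinearMap.pow_mulLeft]; rfl
theorem evm_V0 (l : ℕ) (ξ : ZZ d T) (b : Fin d.n0) (i : ℕ) :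
    evm d (V0 k) (lcoeff k l) T ξ (gen d (V0 k) b (X ^ i : k[X])) =
      if i ≤ l then ZZ.v ξ b (l - i) else 0 := by
  rw [evm_gen]
  induction ZZ.v ξ b using Finsupp.induction_linear with
  | zero => simp
  | add x y hx hy => rw [map_add, LinearMap.add_apply, hx, hy]; split_ifs <;> simp
  | single j y =>
    rw [ctr_single, V0_pow, ← pow_add]
    change (X ^ (j + i) : k[X]).coeff l • y = _
    rw [coeff_X_pow, Finsupp.single_apply]
    split_ifs <;> first | (exfalso; omega) | simp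
theorem evm_V0_one (l : ℕ) (ξ : ZZ d T) (b : Fin d.n0) :
    evm d (V0 k) (lcoeff k l) T ξ (gen d (V0 k) b (1 : k[X])) = ZZ.v ξ b l := by
  simpa using evm_V0 l ξ b 0
theorem evm_ext {ξ η : ZZ d T}
    (h : ∀ l, evm d (V0 k) (lcoeff k l) T ξ = evm d (V0 k) (lcoeff k l) T η) : ξ = η :=
  ZZ.ext fun b l => by rw [← evm_V0_one, ← evm_V0_one, h]
end

/-- the functional `lamQ` on `k[x]/(q)` -/
abbrev lamV {q : k[X]} (hq : q.Monic) : (Jq k q).V →ₗ[k] k := lamQ hq
/-- the restriction of a polynomial solution to `k[x]/(q)` -/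
abbrev res (d : Fam R) {q : k[X]} (hq : q.Monic) (T : Md k R) :
    ZZ d T →ₗ[k] (M d (Jq k q).V →ₗ[R] T) := evm d (Jq k q).V (lamV hq) T

/-- inner iteration -/
def AFun.it (Φ : AFun k R) : ℕ → AFun k R
  | 0 => AFun.id
  | n + 1 => (Φ.it n).comp Φ
theorem AFun.iter_succ' (Φ : AFun k R) (n : ℕ) : Φ.iter (n + 1) = (Φ.iter n).comp Φ := by
  induction n with
  | zero => rfl
  | succ n ih => exact congrArg Φ.comp ih
theorem AFun.it_eq (Φ : AFun k R) (n : ℕ) : Φ.it n = Φ.iter n := by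
  induction n with
  | zero => rfl
  | succ n ih => rw [AFun.iter_succ', ← ih]; rfl

/-- functors which preserve finite dimensional modules and the relation `CC` -/
def Nice (Φ : AFun k R) : Prop :=
  (∀ T : Md k R, T.fd → (Φ.obj T).fd) ∧ ∀ Q T : Md k R, CC Q T → CC (Φ.obj Q) (Φ.obj T)
theorem Nice.id : Nice (AFun.id : AFun k R) := ⟨fun _ h => h, fun _ _ h => h⟩
theorem Nice.comp {Φ Ψ : AFun k R} (h : Nice Φ) (h' : Nice Ψ) : Nice (Φ.comp Ψ) :=
  ⟨fun _ hT => h.1 _ (h'.1 _ hT), fun _ _ hT => h.2 _ _ (h'.2 _ _ hT)⟩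
theorem Nice.it {Φ : AFun k R} (h : Nice Φ) : ∀ n, Nice (Φ.it n)
  | 0 => Nice.id
  | n + 1 => (h.it n).comp h

/-- a natural map `M → Φ M` together with the induced map on polynomial solutions -/
structure Tr (d : Fam R) (Φ : AFun k R) where
  A : ∀ V : XV k, M d V →ₗ[R] Φ.obj (M d V)
  natA : ∀ {V V' : XV k} (g : XH V V'), Φ.map ((MN d).map g) ∘ₗ A V = A V' ∘ₗ (MN d).map g
  t : ∀ T : Md k R, ZZ d T →ₗ[k[X]] ZZ d (Φ.obj T)
  spec : ∀ (T : Md k R) (ξ : ZZ d T) (V : XV k) (μ : V →ₗ[k] k),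
    evm d V μ (Φ.obj T) (t T ξ) = Φ.map (evm d V μ T ξ) ∘ₗ A V

section
variable {d : Fam R} {Φ Ψ Θ : AFun k R}
/-- the natural transformation -/
def Tr.nt (P : Tr d Φ) : NT (MN d) ((MN d).post Φ) := ⟨P.A, P.natA⟩
theorem Tr.nat (P : Tr d Φ) {T T' : Md k R} (g : T →ₗ[R] T') (ξ : ZZ d T) :
    P.t T' (zmap d g ξ) = zmap d (Φ.map g) (P.t T ξ) := evm_ext fun l => by
  rw [evm_zmap, P.spec, P.spec, evm_zmap, Φ.map_comp, LinearMap.comp_assoc]
theorem Tr.ext {P P' : Tr d Φ} (h : ∀ V, P.A V = P'.A V) : P = P' := by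
  have ht : P.t = P'.t := funext fun T => LinearMap.ext fun ξ => evm_ext fun l => by
    rw [P.spec, P'.spec, h]
  obtain ⟨a, _, t, _⟩ := P
  obtain ⟨a', _, t', _⟩ := P'
  obtain rfl : a = a' := funext h
  obtain rfl : t = t' := ht
  rfl
variable (d) in
/-- the identity -/
def Tr.id : Tr d (AFun.id : AFun k R) where
  A _ := LinearMap.id
  natA _ := rfl
  t _ := LinearMap.id
  spec _ _ _ _ := rfl
/-- the natural map of the composite -/
def Tr.cA (Q : Tr d Ψ) (P : Tr d Φ) (V : XV k) : M d V →ₗ[R] Ψ.obj (Φ.obj (M d V)) :=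
  Ψ.map (P.A V) ∘ₗ Q.A V
theorem Tr.cA_nat (Q : Tr d Ψ) (P : Tr d Φ) {V V' : XV k} (g : XH V V') :
    Ψ.map (Φ.map ((MN d).map g)) ∘ₗ Q.cA P V = Q.cA P V' ∘ₗ (MN d).map g := by
  rw [Tr.cA, Tr.cA, ← LinearMap.comp_assoc, ← Ψ.map_comp, P.natA, Ψ.map_comp,
    LinearMap.comp_assoc, Q.natA, LinearMap.comp_assoc]
theorem Tr.cA_spec (Q : Tr d Ψ) (P : Tr d Φ) (T : Md k R) (ξ : ZZ d T) (V : XV k)
    (μ : V →ₗ[k] k) : evm d V μ (Ψ.obj (Φ.obj T)) (Q.t _ (P.t T ξ)) =
      Ψ.map (Φ.map (evm d V μ T ξ)) ∘ₗ Q.cA P V := by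
  rw [Q.spec, P.spec, Ψ.map_comp, LinearMap.comp_assoc, Tr.cA]
/-- first `P`, then `Q` -/
def Tr.comp (Q : Tr d Ψ) (P : Tr d Φ) : Tr d (Ψ.comp Φ) where
  A := Q.cA P
  natA := Q.cA_nat P
  t T := Q.t (Φ.obj T) ∘ₗ P.t T
  spec := Q.cA_spec P
theorem Tr.comp_A (Q : Tr d Ψ) (P : Tr d Φ) (V : XV k) : (Q.comp P).A V = Q.cA P V := rfl
theorem Tr.comp_t (Q : Tr d Ψ) (P : Tr d Φ) (T : Md k R) (ξ : ZZ d T) :
    (Q.comp P).t T ξ = Q.t (Φ.obj T) (P.t T ξ) := rfl
/-- powers; `P.pow (n+1)` is first `P`, then `P.pow n` -/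
def Tr.pow (P : Tr d Φ) : ∀ n, Tr d (Φ.it n)
  | 0 => Tr.id d
  | n + 1 => (P.pow n).comp P
theorem Tr.pow_add_eq (P : Tr d Φ) (a b : ℕ) :
    (⟨Φ.it (a + b), P.pow (a + b)⟩ : Σ Φ : AFun k R, Tr d Φ) =
      ⟨(Φ.it a).comp (Φ.it b), (P.pow a).comp (P.pow b)⟩ := by
  induction b with
  | zero =>
    exact congrArg (Sigma.mk (Φ.it a)) (Tr.ext fun V => by
      change _ = (Φ.it a).map LinearMap.id ∘ₗ _
      rw [(Φ.it a).map_id]; rfl)
  | succ b ih =>
    refine (congrArg (fun S : Σ Φ : AFun k R, Tr d Φ =>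
      (⟨S.1.comp Φ, S.2.comp P⟩ : Σ Φ : AFun k R, Tr d Φ)) ih).trans ?_
    exact congrArg (Sigma.mk ((Φ.it a).comp (Φ.it (b + 1)))) (Tr.ext fun V => by
      change (Φ.it a).map ((Φ.it b).map (P.A V)) ∘ₗ (Φ.it a).map ((P.pow b).A V) ∘ₗ _ =
        (Φ.it a).map ((Φ.it b).map (P.A V) ∘ₗ (P.pow b).A V) ∘ₗ _
      rw [(Φ.it a).map_comp]; rfl)
/-- a property of the composite is a property of the power -/
theorem Tr.pow_add (P : Tr d Φ) (a b : ℕ) (W : ∀ Φ : AFun k R, Tr d Φ → Prop)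
    (h : W _ ((P.pow a).comp (P.pow b))) : W _ (P.pow (a + b)) :=
  (congrArg (fun S : Σ Φ : AFun k R, Tr d Φ => W S.1 S.2) (P.pow_add_eq a b)).mpr h
/-- `P.pow (n+1)` is also first `P.pow n`, then `P` -/
theorem Tr.pow_succ' (P : Tr d Φ) (n : ℕ) (W : ∀ Φ : AFun k R, Tr d Φ → Prop)
    (h : W _ (P.comp (P.pow n))) : W _ (P.pow (n + 1)) := by
  rw [add_comm]
  refine P.pow_add 1 n W ?_
  have e : (P.pow 1).comp (P.pow n) = P.comp (P.pow n) := Tr.ext fun V => rfl
  exact e ▸ h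
end

end
end Pool.Agent.P.MP_cf639b_al
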