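import Pool.Agent.P.MP_cf639b_al.FObj

/-! pp-pairs, dense chains, reduction data and good families. -/

set_option linter.dupNamespace false

namespace Pool.Agent.P.MP_cf639b_al

universe u
open TensorProduct Polynomial

noncomputable section

variable {k : Type u} [Field k] {R : Type u} [Ring R] [Algebra k R]

variable (k R) in
/-- the regular module -/
abbrev reg : Md k R := ⟨R⟩
variable (k R) in
/-- the free module -/
abbrev free (n : ℕ) : Md k R := ⟨Fin n → R⟩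

/-- a pp-formula in the sort `U` -/
structure PP (U : Md k R) where
  Z : Md k R
  fd : Z.fd
  u : U →ₗ[R] Z

/-- the solution set in `T` -/
def PP.ev {U : Md k R} (φ : PP U) (T : Md k R) : Submodule k (U →ₗ[R] T) where
  carrier := {t | ∃ g : φ.Z →ₗ[R] T, t = g ∘ₗ φ.u}
  add_mem' := by
    rintro _ _ ⟨g, rfl⟩ ⟨g', rfl⟩
    exact ⟨g + g', (LinearMap.add_comp _ _ _).symm⟩
  zero_mem' := ⟨0, by simp⟩
  smul_mem' := by
    rintro c _ ⟨g, rfl⟩
    exact ⟨c • g, rfl⟩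
theorem PP.mem_ev {U : Md k R} {φ : PP U} {T : Md k R} {t : U →ₗ[R] T} :
    t ∈ φ.ev T ↔ ∃ g : φ.Z →ₗ[R] T, t = g ∘ₗ φ.u := Iff.rfl
theorem PP.comp_mem {U : Md k R} {φ : PP U} {T T' : Md k R} {t : U →ₗ[R] T} (g : T →ₗ[R] T')
    (ht : t ∈ φ.ev T) : g ∘ₗ t ∈ φ.ev T' := by
  obtain ⟨h, rfl⟩ := ht
  exact ⟨g ∘ₗ h, rfl⟩
/-- implication -/
def PP.le {U : Md k R} (φ ψ : PP U) : Prop := ∀ T, φ.ev T ≤ ψ.ev T
theorem PP.le_iff {U : Md k R} {φ ψ : PP U} : φ.le ψ ↔ φ.u ∈ ψ.ev φ.Z :=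
  ⟨fun h => h _ ⟨LinearMap.id, rfl⟩, fun h _ _ ⟨g, hg⟩ => hg ▸ PP.comp_mem g h⟩

/-- the solution set in an `F`-object, as an `F`-subspace -/
def PP.evF {F : Type u} [Field F] [Algebra k F] {U : Md k R} (φ : PP U) (A : FO k R F) :
    Submodule F (U →ₗ[R] A.X) where
  carrier := φ.ev A.X
  add_mem' := add_mem
  zero_mem' := zero_mem _
  smul_mem' c _ ht := PP.comp_mem (A.act c) ht

variable (k R) in
/-- a pp-pair -/
structure Pr where
  U : Md k R
  fd : U.fd
  φ : PP U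
  ψ : PP U

/-- the pair is open on `T` -/
def Pr.Open (π : Pr k R) (T : Md k R) : Prop := ¬ π.φ.ev T ≤ π.ψ.ev T
/-- the dimension of the pair on an `F`-object -/
def Pr.dim {F : Type u} [Field F] [Algebra k F] (π : Pr k R) (A : FO k R F) : ℕ :=
  Module.finrank F (π.φ.evF A) - Module.finrank F (π.φ.evF A ⊓ π.ψ.evF A : Submodule F _)
/-- the same pairs are open -/
def SameS (T T' : Md k R) : Prop := ∀ π : Pr k R, π.Open T ↔ π.Open T'

variable (k R) in
/-- no dense system of pp-pairs -/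
def ND0 : Prop :=
  ¬ ∃ S : Set (Pr k R), S.Nonempty ∧ ∀ π ∈ S, ¬ π.φ.le π.ψ ∧ ∃ χ : PP π.U,
    π.ψ.le χ ∧ χ.le π.φ ∧ (⟨π.U, π.fd, π.φ, χ⟩ : Pr k R) ∈ S ∧ (⟨π.U, π.fd, χ, π.ψ⟩ : Pr k R) ∈ S

variable (k R) in
/-- no dense system of pp-pairs, with change of sort -/
def ND : Prop :=
  ¬ ∃ S : Set (Pr k R), S.Nonempty ∧ ∀ π ∈ S, ¬ π.φ.le π.ψ ∧ π.ψ.le π.φ ∧
    ∃ (U : Md k R) (hU : U.fd) (g : π.U →ₗ[R] U) (φ1 ψ1 φ2 ψ2 : PP U),
      (⟨U, hU, φ1, ψ1⟩ : Pr k R) ∈ S ∧ (⟨U, hU, φ2, ψ2⟩ : Pr k R) ∈ S ∧ φ2.le ψ1 ∧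
      (∀ T, ∀ t ∈ φ1.ev T, t ∘ₗ g ∈ π.φ.ev T) ∧
      (∀ T, ∀ t ∈ φ1.ev T, t ∘ₗ g ∈ π.ψ.ev T → t ∈ ψ2.ev T)

/-- descending chain condition on pp-definable subgroups -/
def DCC (T : Md k R) : Prop := ¬ ∃ φ : ℕ → PP (reg k R), StrictAnti fun n => (φ n).ev T

/-- five-subspace systems whose first two subspaces are independent -/
structure Sys (k : Type u) [Field k] where
  V : Vs k
  fd : Module.Finite k V
  U : Fin 5 → Submodule k V
  dis : U 0 ⊓ U 1 = ⊥
/-- morphisms of systems -/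
structure SysH (S S' : Sys k) where
  f : S.V →ₗ[k] S'.V
  mem : ∀ i, ∀ v ∈ S.U i, f v ∈ S'.U i
/-- composition -/
def SysH.comp {S S' S'' : Sys k} (g : SysH S' S'') (f : SysH S S') : SysH S S'' :=
  ⟨g.f ∘ₗ f.f, fun i v hv => g.mem i _ (f.mem i v hv)⟩

variable (k R) in
/-- a functor from systems to finite dimensional modules which reflects factorizations -/
def Wild : Prop :=
  ∃ (Φ : Sys k → Md k R) (m : ∀ {S S' : Sys k}, SysH S S' → (Φ S →ₗ[R] Φ S')),
    (∀ S, (Φ S).fd) ∧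
    (∀ (S S' S'' : Sys k) (g : SysH S' S'') (f : SysH S S'), m (g.comp f) = m g ∘ₗ m f) ∧
    ∀ (S0 S S' : Sys k) (u : SysH S0 S) (u' : SysH S0 S') (h : Φ S' →ₗ[R] Φ S),
      m u = h ∘ₗ m u' → ∃ g : SysH S' S, u.f = g.f ∘ₗ u'.f

/-- every finite subset of `T` is fixed by a finite sum of maps `T → Q → T` -/
def CC (Q T : Md k R) : Prop :=
  ∀ s : Finset T, ∃ (n : ℕ) (a : Fin n → T →ₗ[R] Q) (b : Fin n → Q →ₗ[R] T),
    ∀ t ∈ s, ∑ i, b i (a i t) = t

/-- `t` is killed by a power of `π` -/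
def Trs {W : Type u} [AddCommGroup W] [Module k W] (π : Module.End k W) (t : W) : Prop :=
  ∃ n : ℕ, (π ^ n) t = 0
/-- the `(x-p)`-power torsion of `EE T` is killed by `(x-p)^a` -/
def Expo (d : Fam R) (p : k) (a : ℕ) (T : Md k R) : Prop :=
  ∀ t : EE d T, Trs (piK d p T) t → (piK d p T ^ a) t = 0
/-- polynomial solutions of degree at most `a` -/
def Zle (d : Fam R) (a : ℕ) (T : Md k R) : Submodule k (Fin d.n0 → ℕ →₀ T) where
  carrier := {z | DX d T z = 0 ∧ ∀ b l, a < l → z b l = 0}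
  add_mem' {x y} hx hy := ⟨by rw [map_add, hx.1, hy.1, add_zero], fun b l h => by
    simp [hx.2 b l h, hy.2 b l h]⟩
  zero_mem' := ⟨map_zero _, fun _ _ _ => rfl⟩
  smul_mem' c x hx := ⟨by rw [map_smul, hx.1, smul_zero], fun b l h => by simp [hx.2 b l h]⟩
/-- polynomial solutions are spanned by the shifts of those of degree at most `a` -/
def Short (d : Fam R) (a : ℕ) (T : Md k R) : Prop :=
  ∀ z, DX d T z = 0 → z ∈ Submodule.span k
    {w | ∃ i : ℕ, ∃ z' ∈ Zle d a T, w = fun b => (shift R T ^ i) (z' b)}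

/-- allowed `k[x]`-modules: `f(x)` invertible (`true`), or `x = 0` (`false`) -/
def Allowed (b : Bool) (f : k[X]) (V : XV k) : Prop :=
  if b then Function.Bijective (aeval V.x f) else V.x = 0
/-- all nonzero polynomials act invertibly -/
def KSp (V : XV k) : Prop := ∀ p : k[X], p ≠ 0 → Function.Bijective (aeval V.x p)

variable (k R) in
/-- reduction data: finitely many families with an ideal of junk maps -/
structure RD where
  ι : Type
  [fin : Fintype ι]
  K : ι → Bool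
  d : ι → Fam R
  f : k[X]
  hf : f ≠ 0
  J : ∀ (v : ι) (V : XV k) (w : ι) (V' : XV k), Submodule k (M (d v) V →ₗ[R] M (d w) V')
  s : ℕ
  left : ∀ {v V w V' u V''}, Allowed (K v) f V → Allowed (K w) f V' → Allowed (K u) f V'' →
    ∀ j ∈ J v V w V', ∀ g : M (d w) V' →ₗ[R] M (d u) V'', g ∘ₗ j ∈ J v V u V''
  right : ∀ {v V w V' u V''}, Allowed (K v) f V → Allowed (K w) f V' → Allowed (K u) f V'' →
    ∀ j ∈ J w V' u V'', ∀ g : M (d v) V →ₗ[R] M (d w) V', j ∘ₗ g ∈ J v V u V''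
  nil : ∀ {v V}, Allowed (K v) f V → ∀ l : List (Module.End R (M (d v) V)), l.length = s →
    (∀ j ∈ l, j ∈ J v V v V) → l.prod = 0
  bock : ∀ {v V w V'}, Allowed (K v) f V → Allowed (K w) f V' → K v = true →
    ∀ j ∈ J v V w V', Bock (d v) V j = 0
  ne : ∀ {v V w V'}, Allowed (K v) f V → Allowed (K w) f V' → v ≠ w → J v V w V' = ⊤
  dec : ∀ {v V V'}, Allowed (K v) f V → Allowed (K v) f V' →
    ∀ a : M (d v) V →ₗ[R] M (d v) V', ∃ g : XH V V', a - (MN (d v)).map g ∈ J v V v V'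
  inj : ∀ {v V V'}, Allowed (K v) f V → Allowed (K v) f V' → K v = true →
    ∀ g : XH V V', (MN (d v)).map g ∈ J v V v V' → g = 0

attribute [instance] RD.fin

variable (k R) in
/-- a good family: a vertex of transcendental type of reduction data -/
structure PG where
  D : RD k R
  v : D.ι
  hK : D.K v = true

/-- the family -/
abbrev PG.d (H : PG k R) : Fam R := H.D.d H.v
/-- the generic module as a `k(x)`-object -/
abbrev PG.GF (H : PG k R) : FO k R (RatFunc k) := MF H.d (one k (RatFunc.X : RatFunc k))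
/-- the generic module -/
abbrev PG.G (H : PG k R) : Md k R := M H.d (one k (RatFunc.X : RatFunc k)).V
/-- junk endomorphisms of the generic module -/
abbrev PG.JG (H : PG k R) : Submodule k (H.G →ₗ[R] H.G) := H.D.J H.v _ H.v _
/-- every pair open on the generic module is open on an inequivalent one -/
def Gam (H : PG k R) : Prop :=
  ∀ π : Pr k R, π.Open H.G → ∃ H' : PG k R, ¬ SameS H'.G H.G ∧ π.Open H'.G

variable (k) in
/-- `K = k(t)` with `t` transcendental -/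
def Gen {K : Type u} [Field K] [Algebra k K] (t : K) : Prop :=
  Transcendental k t ∧ ∀ a : K, ∃ p q : k[X], q ≠ 0 ∧ a * aeval t q = aeval t p

variable (k) in
/-- `y` is transcendental over `k(s)` -/
def TrO {L : Type u} [Field L] [Algebra k L] (s : Set L) (y : L) : Prop :=
  Transcendental (IntermediateField.adjoin k s) y

variable (k) in
/-- algebraically closed of infinite transcendence degree -/
def Big (L : Type u) [Field L] [Algebra k L] : Prop :=
  IsAlgClosed L ∧ ∀ s : Finset L, ∃ y : L, TrO k (s : Set L) y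

/-- the conclusion of the tube lemma off the roots of `g` -/
def Tube (H : PG k R) (g : k[X]) : Prop :=
  g ≠ 0 ∧ H.D.f ∣ g ∧ ∀ (F : Type u) [Field F] [Algebra k F] (A : FO k R F), A.fd →
    ∀ (y : F) (e : ℕ), aeval y g ≠ 0 →
      (∀ t, Trs (piE H.d A y) t → (piE H.d A y ^ (e + 1)) t = 0) →
      (∃ t, Trs (piE H.d A y) t ∧ (piE H.d A y ^ e) t ≠ 0) → Smd (MF H.d (J k y (e + 1))) A

variable [FiniteDimensional k R]

/-- the element `e` of `EE(M[K])` -/
def eK (d : Fam R) {K : Type u} [Field K] [Algebra k K] (t : K) : EE d (MF d (one k t)).X :=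
  Bock d (one k t).V LinearMap.id (1 : K)

/-- the properties (C1), (C2) of a family over `K = k(t)` -/
structure CK (d : Fam R) {K : Type u} [Field K] [Algebra k K] (t : K) : Prop where
  ne : eK (k := k) d t ≠ 0
  tors : ∃ f : k[X], f ≠ 0 ∧ ∀ (u : EE d (MF d (one k t)).X) (g : K[X]), g ≠ 0 →
    polE d (MF d (one k t)) g u = 0 → ∃ (c : K) (n : ℕ),
      aeval (EX d (MF d (one k t)).X) (f ^ n) (u - Emap d ((MF d (one k t)).act c) (eK d t)) = 0
  th : ∃ a ∈ HomF (MF d (one k t)) (YF d (one k t)), ∃ b ∈ HomF (YF d (one k t)) (MF d (one k t)),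
    Cst (MF d (one k t)) (MF d (one k t)) (b ∘ₗ a - LinearMap.id) ∧
    Cst (YF d (one k t)) (YF d (one k t)) (a ∘ₗ b - LinearMap.id)

end
end Pool.Agent.P.MP_cf639b_al
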